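import Pool.Agent.Lib.MP_9e3d42_al.CT.D

/-! Lifting endomorphisms when the tensor product with the dual has no torsion. -/

open Module MvPolynomial IsLocalRing
open scoped TensorProduct

namespace Pool.Agent.Lib.MP_9e3d42_al.CT

variable {O R M : Type*} [CommRing O] [CommRing R] [Algebra O R] [AddCommGroup M] [Module O M]
  [Module R M] [IsScalarTower O R M]

lemma frob_lift [IsLocalRing O] [Module.Free O R] [Module.Finite O R] {x : O}
    (hx : x ∈ maximalIdeal O) (l : R →ₗ[O] O)
    (h : ∀ a, (∀ r, l (a * r) ∈ maximalIdeal O) → ∃ a', a = x • a') :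
    Function.Bijective ((LinearMap.mul O R).compr₂ l) := by
  classical
  let b := Module.Free.chooseBasis O R
  suffices IsUnit (LinearMap.toMatrix b b.dualBasis ((LinearMap.mul O R).compr₂ l)).det from
    LinearEquiv.coe_ofIsUnitDet this ▸ (LinearEquiv.ofIsUnitDet this).bijective
  by_contra h1
  have h2 := (residue_eq_zero_iff _).2 h1
  rw [RingHom.map_det] at h2
  obtain ⟨v, hv, h3⟩ := Matrix.exists_mulVec_eq_zero_iff.2 h2
  choose w hw using fun i => residue_surjective (v i)
  obtain ⟨a, ha⟩ := h (b.equivFun.symm w) fun r => by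
    have h4 : ∀ i, l (b.equivFun.symm w * b i) ∈ maximalIdeal O := fun i => by
      have h5 := congrFun (LinearMap.toMatrix_mulVec_repr b b.dualBasis
        ((LinearMap.mul O R).compr₂ l) (b.equivFun.symm w)) i
      rw [Basis.dualBasis_repr, ← b.equivFun_apply, LinearEquiv.apply_symm_apply] at h5
      rw [← residue_eq_zero_iff]
      refine (congrArg (residue O) h5.symm).trans ?_
      rw [RingHom.map_mulVec, show (residue O) ∘ w = v from funext hw]
      exact congrFun h3 i
    rw [← b.sum_repr r, Finset.mul_sum, map_sum]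
    exact sum_mem fun i _ => by
      rw [mul_smul_comm, map_smul]; exact Ideal.mul_mem_left _ _ (h4 i)
  refine hv (funext fun i => ?_)
  rw [LinearEquiv.symm_apply_eq, map_smul] at ha
  rw [← hw, ha]
  exact (residue_eq_zero_iff _).2 (Ideal.mul_mem_right _ _ hx)

lemma dual_onto {l : R →ₗ[O] O} (h : Function.Bijective ((LinearMap.mul O R).compr₂ l))
    (ω : Dual O M) : ∃ ξ : Dual R M, ∀ m, l (ξ m) = ω m := by
  choose ξ hξ using fun m => h.2 (ω ∘ₗ (LinearMap.toSpanSingleton R M m).restrictScalars O)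
  have k : ∀ m r, l (ξ m * r) = ω (r • m) := fun m r => LinearMap.congr_fun (hξ m) r
  refine ⟨⟨⟨ξ, fun a b => h.1 (LinearMap.ext fun r => ?_)⟩, fun a b =>
    h.1 (LinearMap.ext fun r => ?_)⟩, fun m => by simpa using k m 1⟩
  · simp [k]
  · change l (ξ (a • b) * r) = l (a * ξ b * r)
    rw [mul_comm a, mul_assoc, k, k, smul_smul, mul_comm]

theorem sat [IsDomain O] [IsPrincipalIdealRing O] [Module.Free O M] [Module.Finite O M]
    [Module.Finite O (M ⊗[R] Dual R M)] [IsTorsionFree O (M ⊗[R] Dual R M)] {l : R →ₗ[O] O}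
    (h : Function.Bijective ((LinearMap.mul O R).compr₂ l))
    {π : MvPolynomial (Fin 2) O →ₐ[O] R} (hπ : Function.Surjective π)
    {ψ : MvPolynomial (Fin 2) O →ₐ[O] End O M} (hψ : ψ = (Algebra.lsmul O O M).comp π)
    (a : O) (ha : a ≠ 0) (φ u1 u2 : End O M) (h1 : ad O (ψ (X 0)) (ψ (X 0)) φ = a • u1)
    (h2 : ad O (ψ (X 1)) (ψ (X 1)) φ = a • u2) :
    ∃ φ', ad O (ψ (X 0)) (ψ (X 0)) φ' = u1 ∧ ad O (ψ (X 1)) (ψ (X 1)) φ' = u2 := by
  have hψa : ∀ p m, ψ p m = π p • m := fun p m => by rw [hψ]; rfl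
  have k1 : ∀ p, ∃ u, ψ p * φ - φ * ψ p = a • u := fun p => by
    obtain ⟨s, t, e⟩ := exists_bezout p
    have := (isDer_inner (ψ := ψ) φ).eq_act e
    exact ⟨act ψ s u1 + act ψ t u2, by
      rw [smul_add, ← map_smul, ← map_smul, ← h1, ← h2]; exact this⟩
  let β : M →ₗ[O] Dual R M →ₗ[O] O ⧸ Ideal.span {a} := LinearMap.mk₂ O
    (fun m ξ => (Ideal.span {a}).mkQ (l (ξ (φ m)))) (by simp) (by simp [-smul_eq_mul])
    (by simp) (by simp [-smul_eq_mul])
  let β' := TensorProduct.liftAddHom (R := R) (LinearMap.toAddMonoidHom'.comp β.toAddMonoidHom)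
    fun r m ξ => by
      obtain ⟨p, rfl⟩ := hπ r
      obtain ⟨u, hu⟩ := k1 p
      have := LinearMap.congr_fun hu m
      simp only [LinearMap.sub_apply, End.mul_apply, hψa, LinearMap.smul_apply] at this
      refine ((Submodule.Quotient.eq _).2 ?_).symm
      change l (π p • ξ (φ m)) - l (ξ (φ (π p • m))) ∈ _
      rw [← map_smul, ← map_sub, ← map_sub, this, LinearMap.map_smul_of_tower, map_smul]
      exact Ideal.mul_mem_right _ _ (Ideal.mem_span_singleton_self a)
  have hβ : ∀ m ξ, β' (m ⊗ₜ ξ) = β m ξ := fun _ _ => rfl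
  obtain ⟨τ, hτ⟩ := Module.projective_lifting_property (Ideal.span {a}).mkQ
    ({ β' with
      map_smul' := fun o w => by
        change β' (o • w) = o • β' w
        induction w with
        | zero => simp
        | tmul m ξ => rw [TensorProduct.smul_tmul', hβ, hβ, map_smul, LinearMap.smul_apply]
        | add v w hv hw => rw [smul_add, map_add, map_add, hv, hw, smul_add] } :
      M ⊗[R] Dual R M →ₗ[O] _) (Submodule.mkQ_surjective _)
  let b := Module.Free.chooseBasis O M
  choose ξ hξ using fun i => dual_onto h (b.coord i)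
  let φ0 : End O M := b.equivFun.symm.toLinearMap ∘ₗ LinearMap.pi fun i =>
    τ ∘ₗ ((TensorProduct.mk R M _).flip (ξ i)).restrictScalars O
  have k2 : ∀ m i, b.repr (φ0 m) i = τ (m ⊗ₜ ξ i) := fun m i =>
    congrFun (b.equivFun.apply_symm_apply _) i
  have k3 : ∀ ζ : Dual R M, ζ = ∑ i, l (ζ (b i)) • ξ i := fun ζ => LinearMap.ext fun m =>
    h.1 (LinearMap.ext fun r => by
      have : ∀ i, l (ξ i m * r) = b.repr (r • m) i := fun i => by
        rw [mul_comm, ← smul_eq_mul, ← map_smul, hξ]; rfl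
      simp only [LinearMap.compr₂_apply, LinearMap.mul_apply', LinearMap.sum_apply,
        LinearMap.smul_apply, map_sum, map_smul, this]
      rw [mul_comm, ← smul_eq_mul, ← map_smul]
      conv_lhs => rw [← b.sum_repr (r • m), map_sum, map_sum]
      simp only [LinearMap.map_smul_of_tower, smul_eq_mul, mul_comm])
  have k4 : ∀ m (ζ : Dual R M), l (ζ (φ0 m)) = τ (m ⊗ₜ ζ) := fun m ζ => by
    nth_rw 2 [k3 ζ]
    rw [← b.sum_repr (φ0 m)]
    simp [TensorProduct.tmul_sum, k2, mul_comm]
  have k5 : ∀ p, ad O (ψ p) (ψ p) φ0 = 0 := fun p => LinearMap.ext fun m =>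
    b.ext_elem fun i => by
      have := k4 m (π p • ξ i)
      rw [← TensorProduct.smul_tmul, ← k2, LinearMap.smul_apply, ← map_smul, hξ] at this
      simpa [hψa, sub_eq_zero] using this
  have k6 : ∀ j i, ∃ c, a * c = b.repr (φ (b j)) i - b.repr (φ0 (b j)) i := fun j i => by
    have := LinearMap.congr_fun hτ (b j ⊗ₜ ξ i)
    rw [LinearMap.comp_apply, ← k2] at this
    obtain ⟨c, hc⟩ := Ideal.mem_span_singleton.1 ((Submodule.Quotient.eq _).1 this.symm)
    exact ⟨c, by rw [← hc, hξ]; rfl⟩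
  choose c hc using k6
  have k7 : φ = φ0 + a • b.constr O fun j => b.equivFun.symm (c j) := b.ext fun j =>
    b.ext_elem fun i => by
      rw [LinearMap.add_apply, LinearMap.smul_apply, Basis.constr_basis, map_add, map_smul,
        Finsupp.add_apply, Finsupp.smul_apply, ← b.equivFun_apply (b.equivFun.symm _),
        LinearEquiv.apply_symm_apply, smul_eq_mul, hc, add_sub_cancel]
  rw [k7, map_add, k5, zero_add, map_smul] at h1 h2
  exact ⟨_, smul_right_injective _ ha h1, smul_right_injective _ ha h2⟩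

end Pool.Agent.Lib.MP_9e3d42_al.CT
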