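import Pool.Agent.Lib.MP_9e3d42_al.CT.C
import Pool.Agent.Lib.MP_9e3d42_al.CT.A
import Pool.Agent.Lib.MP_9e3d42_al.RankOne

/-! Power series in two variables over a complete discrete valuation ring. -/

open Module IsLocalRing MvPowerSeries
open scoped TensorProduct Pointwise

namespace Pool.Agent.Lib.MP_9e3d42_al.CT

variable {O : Type*} [CommRing O] {x : O}

lemma mem_pow_smul {M : Type*} [AddCommGroup M] [Module O M] {n : ℕ} {m : M} :
    m ∈ (Ideal.span {x} ^ n • ⊤ : Submodule O M) ↔ ∃ a, x ^ n • a = m := by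
  rw [Ideal.span_singleton_pow, Submodule.ideal_span_singleton_smul,
    Submodule.mem_smul_pointwise_iff_exists]
  simp

lemma pre_pi (ι : Type*) [h : IsPrecomplete (Ideal.span {x}) O] :
    IsPrecomplete (Ideal.span {x}) (ι → O) := ⟨fun f hf => by
  simp only [SModEq.sub_mem, mem_pow_smul] at hf ⊢
  choose L hL using fun i => h.prec (f := fun n => f n i) fun {m n} e => by
    obtain ⟨a, ha⟩ := hf e
    exact SModEq.sub_mem.2 (mem_pow_smul.2 ⟨a i, congrFun ha i⟩)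
  simp only [SModEq.sub_mem, mem_pow_smul] at hL
  choose a ha using hL
  exact ⟨L, fun n => ⟨fun i => a i n, funext fun i => ha i n⟩⟩⟩

lemma pre_surj {M N : Type*} [AddCommGroup M] [Module O M] [AddCommGroup N] [Module O N]
    {I : Ideal O} [IsPrecomplete I M] (f : M →ₗ[O] N) (hf : Function.Surjective f) :
    IsPrecomplete I N := AdicCompletion.of_surjective_iff.1 fun y => by
  obtain ⟨y, rfl⟩ := AdicCompletion.map_surjective I hf y
  obtain ⟨y, rfl⟩ := AdicCompletion.of_surjective I M y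
  exact ⟨f y, (AdicCompletion.map_of I f y).symm⟩

/-- Polynomials as power series. -/
noncomputable abbrev inc (O : Type*) [CommRing O] :
    MvPolynomial (Fin 2) O →ₐ[O] MvPowerSeries (Fin 2) O := MvPolynomial.coeToMvPowerSeries.algHom O

lemma inc_X (i : Fin 2) : inc O (.X i) = X i := by simp

lemma ps_box (e : ℕ) (q : MvPowerSeries (Fin 2) O) :
    ∃ p ∈ MvPolynomial.restrictDegree (Fin 2) O e, ∃ a b,
      q = inc O p + X 0 ^ (e + 1) * a + X 1 ^ (e + 1) * b := by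
  classical
  let n : Fin 2 →₀ ℕ := Finsupp.equivFunOnFinite.symm fun _ => e
  let r : MvPowerSeries (Fin 2) O := fun m => if m 0 ≤ e then 0 else coeff m q
  have hr : ∀ m, coeff m r = if m 0 ≤ e then 0 else coeff m q := fun _ => rfl
  obtain ⟨a, ha⟩ : X 0 ^ (e + 1) ∣ r := X_pow_dvd_iff.2 fun m hm => by
    rw [hr, if_pos (Nat.le_of_lt_succ hm)]
  obtain ⟨b, hb⟩ : X 1 ^ (e + 1) ∣ q - inc O (trunc' O n q) - r := X_pow_dvd_iff.2 fun m hm => by
    have : m ≤ n ↔ m 0 ≤ e := ⟨fun h => h 0, fun h i => by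
      fin_cases i
      exacts [h, Nat.le_of_lt_succ hm]⟩
    by_cases h : m 0 ≤ e <;> simp [hr, coeff_trunc', this, h]
  refine ⟨trunc' O n q, (MvPolynomial.mem_restrictDegree _ _ _).2 fun s hs i => ?_, a, b, by
    linear_combination ha + hb⟩
  by_contra h
  rw [MvPolynomial.mem_support_iff, coeff_trunc', if_neg fun e => h (e i)] at hs
  exact hs rfl

lemma exists_w [IsNoetherianRing O] {J : Ideal (MvPolynomial (Fin 2) O)}
    {f g : MvPolynomial (Fin 2) O} (hf : f ∈ J) (hg : g ∈ J)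
    (h : ∀ a ∈ J, inc O a ∈ Ideal.span {inc O f, inc O g}) :
    ∃ w, w - 1 ∈ MvPolynomial.idealOfVars (Fin 2) O ∧ ∀ a ∈ J, w * a ∈ Ideal.span {f, g} := by
  obtain ⟨k, hk⟩ := (MvPolynomial.idealOfVars (Fin 2) O).exists_pow_inf_eq_pow_smul J
  obtain ⟨w, h1, h2⟩ := Submodule.exists_sub_one_mem_and_smul_le_of_fg_of_le_sup
    (I := MvPolynomial.idealOfVars (Fin 2) O) (N := Ideal.span {f, g}) (N' := J) (P := J)
    (IsNoetherian.noetherian _) le_rfl fun a ha => by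
      obtain ⟨u, v, e⟩ := Ideal.mem_span_pair.1 (h a ha)
      let τ := truncTotalAlgHom (Fin 2) O (k + 1)
      have h3 : ∀ p, τ (inc O p) = Ideal.Quotient.mk _ p := τ.commutes
      have h4 := congrArg τ e
      obtain ⟨u', hu⟩ := Ideal.Quotient.mk_surjective (τ u)
      obtain ⟨v', hv⟩ := Ideal.Quotient.mk_surjective (τ v)
      rw [map_add, map_mul, map_mul, h3, h3, h3, ← hu, ← hv, ← map_mul, ← map_mul, ← map_add,
        eq_comm, Ideal.Quotient.eq] at h4
      rw [← add_sub_cancel (u' * f + v' * g) a]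
      refine Submodule.add_mem_sup (Ideal.mem_span_pair.2 ⟨_, _, rfl⟩) ?_
      have h5 := (hk (k + 1) (Nat.le_succ k)).le ⟨by simpa using h4,
        sub_mem ha (add_mem (J.mul_mem_left _ hf) (J.mul_mem_left _ hg))⟩
      rw [Nat.add_sub_cancel_left, pow_one] at h5
      exact Submodule.smul_mono le_rfl inf_le_right h5
  exact ⟨w, h1, fun a ha => h2 (Submodule.smul_mem_pointwise_smul a w J ha)⟩

variable [IsDomain O] [IsDiscreteValuationRing O]

lemma haus (hx : Irreducible x) (I : Ideal (MvPowerSeries (Fin 2) O)) :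
    IsHausdorff (Ideal.span {x}) (MvPowerSeries (Fin 2) O ⧸ I) := by
  rw [← IsHausdorff.map_algebraMap_iff (S := MvPowerSeries (Fin 2) O)]
  refine .of_isLocalRing _ _ ?_
  rw [Ideal.map_span, Set.image_singleton, Ne, Ideal.span_singleton_eq_top,
    isUnit_iff_constantCoeff]
  exact hx.not_isUnit

variable [IsPrecomplete (Ideal.span {x}) O]

lemma cn (hx : Irreducible x) (I : Ideal (MvPowerSeries (Fin 2) O)) {e : ℕ}
    (h : ∀ i, ∃ r, Ideal.Quotient.mk I (X i) ^ e = x • r) (t : MvPowerSeries (Fin 2) O ⧸ I) :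
    ∃ p ∈ MvPolynomial.restrictDegree (Fin 2) O e, Ideal.Quotient.mk I (inc O p) = t := by
  obtain ⟨m, φ, hφ⟩ := Module.Finite.exists_fin' O (MvPolynomial.restrictDegree (Fin 2) O e)
  have := pre_pi (x := x) (Fin m)
  have := pre_surj (I := Ideal.span {x}) φ hφ
  have := haus hx I
  obtain ⟨p, hp⟩ := surjective_of_mkQ_comp_surjective (I := Ideal.span {x})
    (f := ((Ideal.Quotient.mkₐ O I).comp (inc O)).toLinearMap ∘ₗ
      (MvPolynomial.restrictDegree (Fin 2) O e).subtype) (fun y => by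
      obtain ⟨y, rfl⟩ := Submodule.mkQ_surjective _ y
      obtain ⟨y, rfl⟩ := Ideal.Quotient.mk_surjective y
      obtain ⟨p, hp, a, b, rfl⟩ := ps_box e y
      obtain ⟨r, hr⟩ := h 0
      obtain ⟨s, hs⟩ := h 1
      refine ⟨⟨p, hp⟩, ((Submodule.Quotient.eq _).2 ?_).symm⟩
      rw [← pow_one (Ideal.span {x}), mem_pow_smul]
      refine ⟨r * Ideal.Quotient.mk I (X 0 * a) + s * Ideal.Quotient.mk I (X 1 * b), ?_⟩
      simp only [map_add, map_mul, map_pow, pow_succ, hr, hs, smul_add, smul_mul_assoc]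
      simp [mul_assoc, add_assoc]) t
  exact ⟨p, p.2, hp⟩

lemma exists_poly (hx : Irreducible x) {F G : MvPowerSeries (Fin 2) O} {e : ℕ}
    (h : ∀ i, ∃ r, Ideal.Quotient.mk (Ideal.span {F, G}) (X i) ^ e = x • r)
    (hK : ∀ u v, F * u = G * v → ∃ w, u = G * w ∧ v = F * w) :
    ∃ f g, Ideal.span {F, G} = Ideal.span {inc O f, inc O g} ∧
      ∀ u v, inc O f * u = inc O g * v → ∃ w, u = inc O g * w ∧ v = inc O f * w := by
  let J := (Ideal.span {F, G}).comap (inc O)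
  have h1 : ∀ a ∈ Ideal.span {F, G}, ∃ f ∈ J, ∃ α ∈ Ideal.span {X 0, X 1},
      ∃ β ∈ Ideal.span {X 0, X 1}, a - inc O f = α * F + β * G := fun a ha => by
    obtain ⟨p, -, hp⟩ := cn hx (J.map (inc O)) (e := e) (fun i => by
      obtain ⟨r, hr⟩ := h i
      obtain ⟨r, -, rfl⟩ := cn hx _ h r
      have k : inc O (.X i ^ e - x • r) = X i ^ e - x • inc O r := by
        rw [map_sub, map_pow, map_smul, inc_X]
      have k1 : .X i ^ e - x • r ∈ J := show inc O _ ∈ _ from k ▸ Ideal.Quotient.eq.1 hr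
      exact ⟨Ideal.Quotient.mk _ (inc O r), Ideal.Quotient.eq.2
        (show X i ^ e - x • inc O r ∈ _ from k ▸ Ideal.mem_map_of_mem _ k1)⟩) (Ideal.Quotient.mk _ a)
    have h2 := Ideal.Quotient.eq.1 hp
    have h3 : a ∈ J.map (inc O) := by
      simpa using sub_mem (Ideal.mem_map_of_mem (inc O) (show p ∈ J by
        simpa [J] using add_mem (Ideal.map_comap_le h2) ha)) h2
    clear hp h2 ha
    induction h3 using Submodule.span_induction with
    | mem a h => exact h.imp fun f hf => ⟨hf.1, 0, zero_mem _, 0, zero_mem _, by simp [hf.2]⟩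
    | zero => exact ⟨0, zero_mem _, 0, zero_mem _, 0, zero_mem _, by simp⟩
    | add a b _ _ ha hb =>
      obtain ⟨f, hf, α, hα, β, hβ, e1⟩ := ha
      obtain ⟨g, hg, γ, hγ, δ, hδ, e2⟩ := hb
      exact ⟨_, add_mem hf hg, _, add_mem hα hγ, _, add_mem hβ hδ, by
        rw [map_add]; linear_combination e1 + e2⟩
    | smul c a _ ha =>
      obtain ⟨f, hf, α, hα, β, hβ, e1⟩ := ha
      obtain ⟨q, -, s, t, rfl⟩ := ps_box 0 c
      obtain ⟨u, v, e2⟩ := Ideal.mem_span_pair.1 hf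
      have m := Ideal.mem_span_pair.2 ⟨s, t, (rfl : s * X 0 + t * X 1 = _)⟩
      refine ⟨_, J.mul_mem_left q hf, _, add_mem (Ideal.mul_mem_left _
        (inc O q + s * X 0 + t * X 1) hα) (Ideal.mul_mem_left _ u m), _, add_mem
        (Ideal.mul_mem_left _ (inc O q + s * X 0 + t * X 1) hβ) (Ideal.mul_mem_left _ v m), ?_⟩
      rw [map_mul, smul_eq_mul]
      linear_combination (inc O q + s * X 0 + t * X 1) * e1 - (s * X 0 + t * X 1) * e2
  obtain ⟨f, hf, α, hα, β, hβ, e1⟩ := h1 F (Ideal.subset_span (by simp))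
  obtain ⟨g, hg, γ, hγ, δ, hδ, e2⟩ := h1 G (Ideal.subset_span (by simp))
  have h2 : ∀ a ∈ Ideal.span {(X 0 : MvPowerSeries (Fin 2) O), X 1}, constantCoeff a = 0 :=
    fun a ha => by
      obtain ⟨s, t, rfl⟩ := Ideal.mem_span_pair.1 ha
      simp
  obtain ⟨d, hd⟩ := (isUnit_iff_constantCoeff (φ := (1 - α) * (1 - δ) - β * γ)).2 (by
    simp [h2 _ hα, h2 _ hβ, h2 _ hδ]) |>.exists_left_inv
  refine ⟨f, g, le_antisymm (Ideal.span_le.2 (Set.pair_subset
    (Ideal.mem_span_pair.2 ⟨d * (1 - δ), d * β, ?_⟩) (Ideal.mem_span_pair.2 ⟨d * γ, d * (1 - α), ?_⟩)))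
    (Ideal.span_le.2 (Set.pair_subset hf hg)), fun u v e => ?_⟩
  · linear_combination F * hd - d * (1 - δ) * e1 - d * β * e2
  · linear_combination G * hd - d * γ * e1 - d * (1 - α) * e2
  · obtain ⟨w, h3, h4⟩ := hK ((1 - α) * u + γ * v) ((1 - δ) * v + β * u) (by
      linear_combination e + u * e1 - v * e2)
    exact ⟨d * w, by linear_combination -u * hd + d * (1 - δ) * h3 - d * γ * h4 + d * w * e2,
      by linear_combination -v * hd - d * β * h3 + d * (1 - α) * h4 + d * w * e1⟩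

theorem half_ps (hx : Irreducible x) {I : Ideal (MvPowerSeries (Fin 2) O)} (hI0 : I ≠ ⊤)
    {f g : MvPolynomial (Fin 2) O} (hI : I = Ideal.span {inc O f, inc O g})
    (hK : ∀ u v, inc O f * u = inc O g * v → ∃ w, u = inc O g * w ∧ v = inc O f * w)
    [Module.Free O (MvPowerSeries (Fin 2) O ⧸ I)] {e : ℕ}
    (h : ∀ i, ∃ r, Ideal.Quotient.mk I (X i) ^ e = x • r) {M : Type*} [AddCommGroup M]
    [Module O M] [Module (MvPowerSeries (Fin 2) O ⧸ I) M]
    [IsScalarTower O (MvPowerSeries (Fin 2) O ⧸ I) M] [Module.Free O M] [Module.Finite O M]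
    {r c : ℕ} (ι : (Fin r → MvPowerSeries (Fin 2) O ⧸ I) →ₗ[MvPowerSeries (Fin 2) O ⧸ I] M)
    (ρ : M →ₗ[MvPowerSeries (Fin 2) O ⧸ I] Fin r → MvPowerSeries (Fin 2) O ⧸ I)
    (h1 : ∀ m, ι (ρ m) = x ^ c • m) (h2 : ∀ a, ρ (ι a) = x ^ c • a)
    {ψ : MvPolynomial (Fin 2) O →ₐ[O] End O M}
    (hψ : ψ = (Algebra.lsmul O O M).comp ((Ideal.Quotient.mkₐ O I).comp (inc O)))
    (hsat : ∀ a : O, a ≠ 0 → ∀ φ u1 u2, ad O (ψ (.X 0)) (ψ (.X 0)) φ = a • u1 →
      ad O (ψ (.X 1)) (ψ (.X 1)) φ = a • u2 →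
      ∃ φ', ad O (ψ (.X 0)) (ψ (.X 0)) φ' = u1 ∧ ad O (ψ (.X 1)) (ψ (.X 1)) φ' = u2) :
    ∃ v, IsDer ψ v ∧ v f = 0 ∧ v g = 1 := by
  have hf : inc O f ∈ I := hI ▸ Ideal.subset_span (by simp)
  have hg : inc O g ∈ I := hI ▸ Ideal.subset_span (by simp)
  obtain ⟨w, w1, w2⟩ := exists_w (J := I.comap (inc O)) hf hg fun a ha => hI ▸ ha
  have := pre_pi (x := x) (Fin 2 →₀ ℕ)
  have : IsPrecomplete (Ideal.span {x}) (MvPowerSeries (Fin 2) O) := this
  have : IsAdicComplete (Ideal.span {x}) (MvPowerSeries (Fin 2) O ⧸ Ideal.span {inc O f}) :=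
    { haus hx _, pre_surj (Ideal.Quotient.mkₐ O _).toLinearMap Ideal.Quotient.mk_surjective with }
  refine half hx (π := (Ideal.Quotient.mkₐ O I).comp (inc O))
    (fun t => (cn hx I h t).imp fun _ h => h.2)
    ((Ideal.Quotient.mkₐ O (Ideal.span {inc O f})).comp (inc O))
    (Ideal.Quotient.factorₐ O ((Ideal.span_singleton_le_iff_mem _).2 hf)) (fun _ => rfl) (w := w)
    (fun e => hI0 ?_) (Ideal.Quotient.eq_zero_iff_mem.2 (Ideal.mem_span_singleton_self _))
    (fun σ => ?_) (fun σ => ?_) (fun a ha => w2 a (Ideal.Quotient.eq_zero_iff_mem (I := I).1 ha))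
    (IsUnit.map (Ideal.Quotient.mk I) (isUnit_iff_constantCoeff.2 ?_))
    (fun i => ⟨e, by simpa using h i⟩) ι ρ h1 h2 hψ hsat
  · obtain ⟨f, rfl⟩ : MvPolynomial.C x ∣ f := (MvPolynomial.C_dvd_iff_dvd_coeff _ _).2 fun m => by
      rw [← Ideal.mem_span_singleton, ← hx.maximalIdeal_eq, ← residue_eq_zero_iff,
        ← MvPolynomial.coeff_map, e, MvPolynomial.coeff_zero]
    have h3 : inc O f ∈ I := Ideal.Quotient.eq_zero_iff_mem.1
      ((smul_eq_zero_iff_right hx.ne_zero).1 (Ideal.Quotient.eq_zero_iff_mem.2 (by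
        simpa [Algebra.smul_def, MvPowerSeries.algebraMap_apply] using hf)))
    obtain ⟨u, v, h4⟩ := Ideal.mem_span_pair.1 (hI ▸ h3)
    obtain ⟨d, hd⟩ := (isUnit_iff_constantCoeff (φ := 1 - u * C x)).2 (by
      simpa using isUnit_one_sub_self_of_mem_nonunits _ (mul_mem_nonunits_right hx.not_isUnit))
      |>.exists_left_inv
    have h5 : inc O (MvPolynomial.C x * f) = C x * inc O f := by simp
    obtain ⟨s, hs, -⟩ := hK 1 (C x * d * v) (by
      rw [h5] at h4 ⊢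
      linear_combination -C x * inc O f * hd - C x * d * h4)
    exact (Ideal.eq_top_iff_one _).2 (hs ▸ I.mul_mem_right _ hg)
  · obtain ⟨σ, rfl⟩ := Ideal.Quotient.mk_surjective σ
    refine Ideal.Quotient.eq_zero_iff_mem.trans ?_
    rw [hI, Ideal.mem_span_pair]
    refine ⟨fun ⟨a, b, e⟩ => ⟨Ideal.Quotient.mk _ b, Ideal.Quotient.eq.2
      (Ideal.mem_span_singleton'.2 ⟨a, show _ = σ - inc O g * b by linear_combination e⟩)⟩,
      fun ⟨b, e⟩ => ?_⟩
    obtain ⟨b, rfl⟩ := Ideal.Quotient.mk_surjective b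
    obtain ⟨a, e : _ = σ - inc O g * b⟩ := Ideal.mem_span_singleton'.1 (Ideal.Quotient.eq.1 e)
    exact ⟨a, b, by linear_combination e⟩
  · obtain ⟨σ, rfl⟩ := Ideal.Quotient.mk_surjective σ
    intro e
    obtain ⟨a, e⟩ := Ideal.mem_span_singleton.1 (Ideal.Quotient.eq_zero_iff_mem.1 e)
    obtain ⟨s, -, rfl⟩ := hK a σ e.symm
    exact Ideal.Quotient.eq_zero_iff_mem.2 (Ideal.mul_mem_right _ _
      (Ideal.mem_span_singleton_self _))
  · have := (MvPolynomial.mem_pow_idealOfVars_iff' 1 (w - 1)).1 (by rwa [pow_one]) 0 (by simp)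
    rw [MvPolynomial.coeff_sub, sub_eq_zero] at this
    rw [← coeff_zero_eq_constantCoeff_apply]
    simp [this]

omit [IsPrecomplete (Ideal.span {x}) O] in
lemma mod_data (hx : Irreducible x) {F G : MvPowerSeries (Fin 2) O}
    (h : RingTheory.Sequence.IsRegular (MvPowerSeries (Fin 2) O) [F, G, C x]) :
    (∃ e : ℕ, ∀ i, ∃ r, Ideal.Quotient.mk (Ideal.span {F, G}) (X i) ^ e = x • r) ∧
    ∃ τ : (MvPowerSeries (Fin 2) O ⧸ Ideal.span {F, G}) →ₗ[O] ResidueField O,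
      ∀ a, (∀ r, τ (a * r) = 0) → ∃ a', a = x • a' := by
  let μ := MvPowerSeries.map (σ := Fin 2) (residue O)
  have hμ : Function.Surjective μ := fun q => by
    choose a ha using fun m => residue_surjective (coeff m q)
    exact ⟨a, MvPowerSeries.ext ha⟩
  have hμ0 : ∀ q, μ q = 0 ↔ ∃ a, x • a = q := fun q => by
    refine ⟨fun e => ?_, ?_⟩
    · choose a ha using fun m => Ideal.mem_span_singleton'.1 (hx.maximalIdeal_eq ▸
        (residue_eq_zero_iff _).1 (congrArg (coeff m) e))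
      exact ⟨a, MvPowerSeries.ext fun m => (mul_comm _ _).trans (ha m)⟩
    · rintro ⟨a, rfl⟩
      ext m
      simp [μ, (residue_eq_zero_iff x).2 hx.not_isUnit]
  have h1 := ((RingTheory.Sequence.isRegular_cons_iff _ _ _).1
    (IsLocalRing.isRegular_of_perm h (rs' := [C x, F, G]) (List.perm_append_comm (l₁ := [F, G])))).2
  let E : QuotSMulTop (C x : MvPowerSeries (Fin 2) O) (MvPowerSeries (Fin 2) O) ≃+
      MvPowerSeries (Fin 2) (ResidueField O) := ((Submodule.quotEquivOfEq _ (RingHom.ker μ)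
    (Submodule.ext fun q => by
      simp [Submodule.mem_smul_pointwise_iff_exists, hμ0, smul_eq_C_mul])).toAddEquiv).trans
    (RingHom.quotientKerEquivOfSurjective hμ).toAddEquiv
  have hE : ∀ a q, E (a • q) = μ a • E q := fun a q => by
    obtain ⟨q, rfl⟩ := Submodule.Quotient.mk_surjective _ q
    exact map_mul μ a q
  have h2 := (E.isRegular_congr (bs := [μ F, μ G]) (.cons (hE F) (.cons (hE G) .nil))).1 h1
  have := ps_dim h2
  have : Nontrivial (MvPowerSeries (Fin 2) (ResidueField O) ⧸ Ideal.span {μ F, μ G}) :=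
    Ideal.Quotient.nontrivial_iff.2 fun e => h2.top_ne_smul (by
      rw [Ideal.ofList_cons, Ideal.ofList_singleton, ← Ideal.span_insert, e, Submodule.top_smul])
  have := IsLocalRing.of_surjective' (Ideal.Quotient.mk (Ideal.span {μ F, μ G}))
    Ideal.Quotient.mk_surjective
  obtain ⟨Δ, hΔ⟩ := gor_of_ps h2 (Ideal.Quotient.mkₐ _ _) Ideal.Quotient.mk_surjective
    fun q => Ideal.Quotient.eq_zero_iff_mem
  obtain ⟨τ, hτ⟩ := hΔ.frobenius
  let ν : (MvPowerSeries (Fin 2) O ⧸ Ideal.span {F, G}) →ₐ[O] _ ⧸ Ideal.span {μ F, μ G} :=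
    Ideal.quotientMapₐ _ ⟨μ, fun a => by simp [μ, MvPowerSeries.algebraMap_apply]⟩
      (Ideal.span_le.2 (Set.pair_subset (Ideal.subset_span (.inl rfl))
        (Ideal.subset_span (.inr rfl))))
  have hν : ∀ q, ν (Ideal.Quotient.mk _ q) = Ideal.Quotient.mk _ (μ q) := fun _ => rfl
  have hν0 : ∀ a, ν a = 0 → ∃ a', a = x • a' := fun a e => by
    obtain ⟨a, rfl⟩ := Ideal.Quotient.mk_surjective a
    obtain ⟨u, v, e⟩ := Ideal.mem_span_pair.1 (Ideal.Quotient.eq_zero_iff_mem.1 ((hν a).symm.trans e))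
    obtain ⟨u, rfl⟩ := hμ u
    obtain ⟨v, rfl⟩ := hμ v
    obtain ⟨b, hb⟩ := (hμ0 (a - (u * F + v * G))).1 (by
      rw [map_sub, ← e, map_add, map_mul, map_mul, sub_self])
    exact ⟨Ideal.Quotient.mk _ b, Ideal.Quotient.eq.2 (Ideal.mem_span_pair.2
      ⟨u, v, show _ = a - x • b by rw [hb, sub_sub_cancel]⟩)⟩
  obtain ⟨e0, h3⟩ := hΔ.hy
  obtain ⟨e1, h4⟩ := hΔ.hz
  refine ⟨⟨e0 + e1, fun i => hν0 _ ?_⟩, τ.restrictScalars O ∘ₗ ν.toLinearMap, fun a ha =>
    hν0 a (hτ _ fun b => ?_)⟩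
  · rw [map_pow, hν, MvPowerSeries.map_X, pow_add]
    fin_cases i
    exacts [mul_eq_zero_of_left h3 _, mul_eq_zero_of_right _ h4]
  · obtain ⟨b, rfl⟩ := Ideal.Quotient.mk_surjective b
    obtain ⟨b, rfl⟩ := hμ b
    rw [← hν, ← map_mul]
    exact ha _

omit [IsPrecomplete (Ideal.span {x}) O] in
lemma tf_quot (hx : Irreducible x) {F G : MvPowerSeries (Fin 2) O}
    (h : RingTheory.Sequence.IsRegular (MvPowerSeries (Fin 2) O) [F, G, C x]) :
    IsTorsionFree O (MvPowerSeries (Fin 2) O ⧸ Ideal.span {F, G}) := by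
  have h1 := (RingTheory.Sequence.isWeaklyRegular_singleton_iff _ _).1
    ((RingTheory.Sequence.isWeaklyRegular_append_iff _ [F, G] [C x]).1 h.1).2
  rw [Ideal.ofList_cons, Ideal.ofList_singleton, ← Ideal.span_insert, smul_eq_mul,
    Ideal.mul_top] at h1
  have h2 : IsSMulRegular (MvPowerSeries (Fin 2) O ⧸ Ideal.span {F, G}) x := fun a b e =>
    h1 (by simp only [← algebraMap_smul (MvPowerSeries (Fin 2) O) x] at e; exact e)
  refine ⟨fun a ha => ?_⟩
  obtain ⟨n, u, rfl⟩ := IsDiscreteValuationRing.eq_unit_mul_pow_irreducible ha.ne_zero hx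
  exact (u.isUnit.isSMulRegular _).mul (h2.pow n)

theorem core_ps (hx : Irreducible x) {F G : MvPowerSeries (Fin 2) O}
    (h : RingTheory.Sequence.IsRegular (MvPowerSeries (Fin 2) O) [F, G, C x])
    {I : Ideal (MvPowerSeries (Fin 2) O)} (hI : I = Ideal.span {F, G}) {M : Type*} [AddCommGroup M]
    [Module O M] [Module (MvPowerSeries (Fin 2) O ⧸ I) M]
    [IsScalarTower O (MvPowerSeries (Fin 2) O ⧸ I) M] [IsTorsionFree O M]
    [Module.Finite (MvPowerSeries (Fin 2) O ⧸ I) M]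
    [IsTorsionFree O (M ⊗[MvPowerSeries (Fin 2) O ⧸ I] Dual (MvPowerSeries (Fin 2) O ⧸ I) M)]
    {r : ℕ} (ι : (Fin r → MvPowerSeries (Fin 2) O ⧸ I) →ₗ[MvPowerSeries (Fin 2) O ⧸ I] M)
    (ρ : M →ₗ[MvPowerSeries (Fin 2) O ⧸ I] Fin r → MvPowerSeries (Fin 2) O ⧸ I)
    {a : MvPowerSeries (Fin 2) O ⧸ I} (ha : a ∈ nonZeroDivisors _)
    (h1 : ∀ m, ι (ρ m) = a • m) (h2 : ∀ m, ρ (ι m) = a • m) :
    Module.Projective (MvPowerSeries (Fin 2) O ⧸ I) M := by
  subst hI
  obtain ⟨⟨e, he⟩, τ, hτ⟩ := mod_data hx h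
  have := tf_quot hx h
  have hI0 : Ideal.span {F, G} ≠ ⊤ := fun e => h.top_ne_smul (by
    rw [Ideal.ofList_cons, Ideal.ofList_cons, ← sup_assoc, ← Ideal.span_insert, e, top_sup_eq,
      Submodule.top_smul])
  have := Ideal.Quotient.nontrivial_iff.2 hI0
  have : Module.Finite O (MvPowerSeries (Fin 2) O ⧸ Ideal.span {F, G}) := .of_surjective
    (((Ideal.Quotient.mkₐ O _).comp (inc O)).toLinearMap ∘ₗ
      (MvPolynomial.restrictDegree (Fin 2) O e).subtype) fun t =>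
    let ⟨p, h1, h2⟩ := cn hx _ he t; ⟨⟨p, h1⟩, h2⟩
  have : Module.Finite O M := .trans (MvPowerSeries (Fin 2) O ⧸ Ideal.span {F, G}) M
  obtain ⟨b, d, hd, hb⟩ := (Algebra.IsAlgebraic.isAlgebraic (R := O) a).exists_smul_eq_mul 1 ha
  obtain ⟨c, u, rfl⟩ := IsDiscreteValuationRing.eq_unit_mul_pow_irreducible hd hx
  have hc : (u⁻¹.1 • b) * a = x ^ c • 1 := by
    rw [smul_mul_assoc, mul_comm, ← hb, smul_smul, u.inv_mul_cancel_left]
  obtain ⟨l, hl⟩ := Module.projective_lifting_property (Algebra.linearMap O (ResidueField O)) τ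
    residue_surjective
  have hl' := frob_lift (x := x) hx.not_isUnit l fun a ha => hτ a fun r =>
    (LinearMap.congr_fun hl _).symm.trans ((residue_eq_zero_iff _).2 (ha r))
  obtain ⟨f, g, hI, hK⟩ := exists_poly hx he (koszul_of_regular
    ((RingTheory.Sequence.isWeaklyRegular_append_iff _ [F, G] [C x]).1 h.1).1)
  have hπ : Function.Surjective ((Ideal.Quotient.mkₐ O (Ideal.span {F, G})).comp (inc O)) :=
    fun t => (cn hx _ he t).imp fun _ h => h.2
  have : Module.Finite O (M ⊗[MvPowerSeries (Fin 2) O ⧸ Ideal.span {F, G}]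
    Dual (MvPowerSeries (Fin 2) O ⧸ Ideal.span {F, G}) M) :=
    .trans (MvPowerSeries (Fin 2) O ⧸ Ideal.span {F, G}) _
  have k1 : ∀ m, ι (((u⁻¹.1 • b) • ρ) m) = x ^ c • m := fun m => by
    rw [LinearMap.smul_apply, map_smul, h1, smul_smul, hc, smul_assoc, one_smul]
  have k2 : ∀ m, ((u⁻¹.1 • b) • ρ) (ι m) = x ^ c • m := fun m => by
    rw [LinearMap.smul_apply, h2, smul_smul, hc, smul_assoc, one_smul]
  obtain ⟨v, v1, v2, v3⟩ := half_ps hx hI0 hI hK he ι _ k1 k2 rfl (sat hl' hπ rfl)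
  obtain ⟨w, w1, w2, w3⟩ := half_ps hx hI0 (hI.trans (by rw [Set.pair_comm]))
    (fun u v e => (hK v u e.symm).imp fun _ h => h.symm) he ι _ k1 k2 rfl (sat hl' hπ rfl)
  exact higman _ hπ (f := f) (g := g)
    (Ideal.Quotient.eq_zero_iff_mem.2 (hI.ge (Ideal.subset_span (.inl rfl))))
    (Ideal.Quotient.eq_zero_iff_mem.2 (hI.ge (Ideal.subset_span (.inr rfl)))) w1 v1
    (by rw [v2, v3, w2, w3, mul_one, mul_zero, sub_zero])

end Pool.Agent.Lib.MP_9e3d42_al.CT
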