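import Pool.Agent.Lib.MP_9e3d42_al.CT.Jo

/-! Commuting pairs on a plane curve with a joint kernel vector form a small family. -/

open Polynomial Module Matrix

namespace Pool.Agent.Lib.MP_9e3d42_al.CT

variable {n : Type*} [Fintype n] [DecidableEq n]

/-- The set of entries. -/
def ents {A m n : Type*} (M : Matrix m n A) : Set A := Set.range fun p : m × n => M p.1 p.2

lemma ent_of_ents {R A m n : Type*} [CommRing R] [CommRing A] [IsDomain A] [Algebra R A]
    {M : Matrix m n A} {s : Set A} (h : ents M ⊆ s) : Ent (Cl R s) M :=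
  fun i j => subset_cl (h ⟨(i, j), rfl⟩)

lemma Ent.ents {R A m n : Type*} [CommRing R] [CommRing A] [Algebra R A] {C : Subalgebra R A}
    {M : Matrix m n A} (h : Ent C M) : ents M ⊆ C := by
  rintro _ ⟨p, rfl⟩
  exact h _ _

lemma cl_map {R A B : Type*} [CommRing R] [CommRing A] [IsDomain A] [Algebra R A] [CommRing B]
    [IsDomain B] [Algebra R B] (σ : A →ₐ[R] B) (h : Function.Injective σ) {s : Set A} {t : Set B}
    (hst : σ '' s ⊆ t) {a : A} (ha : a ∈ Cl R s) : σ a ∈ Cl R t := by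
  let φ : Algebra.adjoin R s →ₐ[R] Algebra.adjoin R t :=
    (σ.comp (Subalgebra.val _)).codRestrict _ fun x =>
      Algebra.adjoin_mono hst (by rw [← AlgHom.map_adjoin]; exact ⟨x, x.2, rfl⟩)
  exact IsAlgebraic.ringHom_of_comp_eq φ.toRingHom σ.toRingHom ha
    (fun x y e => Subtype.ext (h (congrArg Subtype.val e))) rfl

lemma aeval_mulVec {A : Type*} [CommRing A] {J : Matrix n n A} {w : n → A} {b : A}
    (h : J *ᵥ w = b • w) (p : A[X]) : aeval J p *ᵥ w = p.eval b • w := by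
  induction p using Polynomial.induction_on with
  | C a => simp [Algebra.algebraMap_eq_smul_one, smul_mulVec]
  | add p q hp hq => simp [add_mulVec, hp, hq, add_smul]
  | monomial m a ih =>
    rw [pow_succ, ← mul_assoc, map_mul, aeval_X, ← mulVec_mulVec, h, mulVec_smul, ih, smul_smul,
      eval_mul (q := X), eval_X, mul_comm]

lemma ev_mulVec {k A : Type*} [CommRing k] [CommRing A] [Algebra k A]
    (ψ : MvPolynomial (Fin 2) k →ₐ[k] Matrix n n A) {w : n → A} {a b : A}
    (h0 : ψ (.X 0) *ᵥ w = a • w) (h1 : ψ (.X 1) *ᵥ w = b • w) (p : MvPolynomial (Fin 2) k) :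
    ψ p *ᵥ w = MvPolynomial.aeval ![a, b] p • w := by
  induction p using MvPolynomial.induction_on with
  | C r => simp [Algebra.algebraMap_eq_smul_one, smul_mulVec]
  | add p q hp hq => simp [add_mulVec, hp, hq, add_smul]
  | mul_X p i hp =>
    rw [map_mul, ← mulVec_mulVec]
    fin_cases i
    · simp [h0, mulVec_smul, hp, smul_smul, mul_comm]
    · simp [h1, mulVec_smul, hp, smul_smul, mul_comm]

lemma exists_joint {K : Type*} [Field K] [IsAlgClosed K] {Y Z : Matrix n n K} (h : Commute Y Z)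
    {a : K} (ha : ∃ v ≠ 0, Y *ᵥ v = a • v) : ∃ ζ : K, ∃ v ≠ 0, Y *ᵥ v = a • v ∧ Z *ᵥ v = ζ • v := by
  obtain ⟨v, hv, h1⟩ := ha
  let U := Module.End.eigenspace (toLin' Y) a
  have hU : ∀ w, w ∈ U ↔ Y *ᵥ w = a • w := fun w => Module.End.mem_eigenspace_iff
  have : Nontrivial U := ⟨⟨⟨v, (hU v).2 h1⟩, 0, fun e => hv (congrArg Subtype.val e)⟩⟩
  obtain ⟨ζ, hζ⟩ := Module.End.exists_eigenvalue ((toLin' Z).restrict (p := U) (q := U)
    fun w hw => (hU _).2 (by
      rw [toLin'_apply, mulVec_mulVec, h.eq, ← mulVec_mulVec, (hU w).1 hw, mulVec_smul]))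
  obtain ⟨w, hw⟩ := hζ.exists_hasEigenvector
  exact ⟨ζ, w, fun e => hw.2 (Subtype.ext e), (hU _).1 w.2,
    congrArg Subtype.val hw.apply_eq_smul⟩

theorem e2 {k K : Type*} [Field k] [Field K] [IsAlgClosed K] [Algebra k K]
    (ψ : MvPolynomial (Fin 2) k →ₐ[k] Matrix n n K) {f : MvPolynomial (Fin 2) k} (hf : f ≠ 0)
    (hψ : ψ f = 0) {v0 : n → K} (hv0 : v0 ≠ 0) (hy : ψ (.X 0) *ᵥ v0 = 0)
    (hz : ψ (.X 1) *ᵥ v0 = 0) :
    rk k (ents (ψ (.X 0)) ∪ ents (ψ (.X 1))) + 1 ≤ Fintype.card (n × n) := by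
  classical
  set Y := ψ (.X 0)
  set Z := ψ (.X 1)
  have hYZ : Commute Y Z := (Commute.all _ _).map ψ
  let s := Y.charpoly.roots.toFinset
  have hs : ∀ a, a ∈ s ↔ ∃ v ≠ 0, Y *ᵥ v = a • v := fun a => by
    rw [Multiset.mem_toFinset, mem_roots Y.charpoly_monic.ne_zero, IsRoot, eval_charpoly,
      ← exists_mulVec_eq_zero_iff]
    refine exists_congr fun v => and_congr_right fun _ => ?_
    rw [sub_mulVec, sub_eq_zero, eq_comm, scalar_apply, ← smul_one_eq_diagonal, smul_mulVec,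
      one_mulVec]
  have h0s : 0 ∈ s := (hs 0).2 ⟨v0, hv0, by rw [hy, zero_smul]⟩
  have hj : ∀ a, ∃ ζ : K, a ∈ s → (a = 0 → ζ = 0) ∧
      ∃ v ≠ 0, Y *ᵥ v = a • v ∧ Z *ᵥ v = ζ • v := fun a => by
    by_cases h : a ∈ s
    · by_cases h0 : a = 0
      · exact ⟨0, fun _ => ⟨fun _ => rfl, v0, hv0, by rw [hy, h0, zero_smul],
          by rw [hz, zero_smul]⟩⟩
      · obtain ⟨ζ, h1⟩ := exists_joint hYZ ((hs a).1 h)
        exact ⟨ζ, fun _ => ⟨fun e => absurd e h0, h1⟩⟩
    · exact ⟨0, fun e => absurd e h⟩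
  choose ζ hζ using hj
  choose hζ0 v hv hYv hZv using hζ
  let S1 : Set K := ⋃ a ∈ s.erase 0, {a, ζ a}
  have hS1 : ∀ a ∈ s, a ∈ Cl k S1 ∧ ζ a ∈ Cl k S1 := fun a ha => by
    by_cases h : a = 0
    · rw [hζ0 a ha h, h]
      exact ⟨zero_mem _, zero_mem _⟩
    · have := Finset.mem_erase.2 ⟨h, ha⟩
      exact ⟨subset_cl (Set.mem_biUnion this (by simp)), subset_cl (Set.mem_biUnion this (by simp))⟩
  obtain ⟨J, γ0, hγ0, hJ, eJ⟩ := exists_form Y (Cl k S1) fun a ha => (hS1 a ((hs a).2 ha)).1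
  let L := (Cl k S1).toIntermediateField fun x hx => by
    by_cases h : x = 0
    · rw [h, _root_.inv_zero]; exact zero_mem _
    · exact cl_of_mul hx h (by rw [mul_inv_cancel₀ h]; exact one_mem _)
  let J1 : Matrix n n L := of fun i j => ⟨J i j, eJ i j⟩
  obtain ⟨c, B, Λ, hΛ, hc⟩ := exists_cent J1
  let Q := MvPolynomial (Fin c ⊕ s) K
  let Ω := FractionRing Q
  let σ : K →ₐ[k] Ω := IsScalarTower.toAlgHom k K Ω
  have hσ : Function.Injective σ := σ.toRingHom.injective
  let ρ : L →+* Ω := σ.toRingHom.comp (algebraMap L K)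
  let τ : Fin c ⊕ s → Ω := fun i => algebraMap Q Ω (.X i)
  have hτ : AlgebraicIndependent K τ :=
    (MvPolynomial.algebraicIndependent_X _ K).map' (f := IsScalarTower.toAlgHom K Q Ω)
      (IsFractionRing.injective Q Ω)
  let J' := J.map σ
  have hJ' : J1.map ρ = J' := rfl
  let cτ : Matrix n n Ω := of fun i j => (B.map ρ *ᵥ fun i => τ (.inl i)) (j, i)
  have hcv : cτ.vec = B.map ρ *ᵥ fun i => τ (.inl i) := rfl
  have hΛv : Λ.map ρ *ᵥ cτ.vec = fun i => τ (.inl i) := by
    rw [hcv, mulVec_mulVec, ← Matrix.map_mul, hΛ, Matrix.map_one _ (map_zero ρ) (map_one ρ),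
      one_mulVec]
  have hcJ : cτ * J' = J' * cτ := (hc Ω ρ cτ).2 (by rw [hΛv, hcv])
  have hcd : cτ.det ≠ 0 := by
    let cP : Matrix n n Q := of fun i j => ∑ l, MvPolynomial.C (B (j, i) l : K) * .X (.inl l)
    have e1 : cτ = (algebraMap Q Ω).mapMatrix cP := by
      ext i j
      simp only [cτ, cP, of_apply, mulVec, dotProduct, map_apply, RingHom.mapMatrix_apply,
        map_sum, map_mul]
      rfl
    have e2 : (MvPolynomial.eval (Sum.elim (Λ.map (algebraMap L K) *ᵥ (1 : Matrix n n K).vec)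
        0)).mapMatrix cP = 1 := by
      ext i j
      have := congrFun ((hc K (algebraMap L K) 1).1 (by simp)) (j, i)
      simp only [cP, RingHom.mapMatrix_apply, map_apply, of_apply, map_sum, map_mul,
        MvPolynomial.eval_C, MvPolynomial.eval_X, Sum.elim_inl]
      exact this
    rw [e1, ← RingHom.map_det, Ne, IsFractionRing.to_map_eq_zero_iff]
    intro h
    have := RingHom.map_det (MvPolynomial.eval (Sum.elim
      (Λ.map (algebraMap L K) *ᵥ (1 : Matrix n n K).vec) 0)) cP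
    rw [e2, h, map_zero, det_one] at this
    exact zero_ne_one this
  let γ0' := γ0.map σ
  have hγ0' : γ0'.det ≠ 0 := by
    rw [show γ0'.det = σ γ0.det from (AlgHom.map_det σ γ0).symm]
    exact (map_ne_zero_iff σ hσ).2 hγ0
  let γ := γ0' * cτ
  have hγ : γ.det ≠ 0 := by rw [det_mul]; exact mul_ne_zero hγ0' hcd
  let Y' := Y.map σ
  let Z' := Z.map σ
  have hγJ : γ * J' = Y' * γ := by
    rw [Matrix.mul_assoc, hcJ, ← Matrix.mul_assoc, ← Matrix.mul_assoc, ← Matrix.map_mul, hJ,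
      Matrix.map_mul]
  have hYZ' : Y' * Z' = Z' * Y' := by rw [← Matrix.map_mul, hYZ.eq, Matrix.map_mul]
  have i1 := mul_nonsing_inv γ (Ne.isUnit hγ)
  have i2 := nonsing_inv_mul γ (Ne.isUnit hγ)
  have hγe : γ0' * cτ = γ := rfl
  clear_value γ
  let Z1 := γ⁻¹ * (Z' * γ)
  have hZ1 : γ * Z1 = Z' * γ := by rw [← Matrix.mul_assoc, i1, Matrix.one_mul]
  have hJi : J' * γ⁻¹ = γ⁻¹ * Y' := by
    rw [← Matrix.one_mul (J' * γ⁻¹), ← i2, Matrix.mul_assoc, ← Matrix.mul_assoc γ, hγJ,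
      Matrix.mul_assoc, i1, Matrix.mul_one]
  have hZ1J : Commute J' Z1 := by
    rw [Commute, SemiconjBy, ← Matrix.mul_assoc, hJi]
    simp only [Z1, Matrix.mul_assoc, hγJ]
    rw [← Matrix.mul_assoc Y', hYZ', Matrix.mul_assoc]
  let P : s → Polynomial Ω := fun a => ∏ b ∈ Finset.univ.erase a, (X - C (σ b))
  let Z2 := Z1 + ∑ a : s, τ (.inr a) • aeval J' (P a)
  have hZ2J : Commute J' Z2 := hZ1J.add_right (Commute.sum_right _ _ _ fun a _ => by
    refine Commute.smul_right ?_ _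
    nth_rw 1 [← aeval_X (R := Ω) J']
    exact (Commute.all _ _).map _)
  have hZ2 := (hc Ω ρ Z2).1 hZ2J.eq.symm
  let F := (σ '' S1 ∪ ents γ) ∪ Set.range (Λ.map ρ *ᵥ Z2.vec)
  have cK : ∀ {t : Set Ω}, σ '' S1 ⊆ t → ∀ a ∈ Cl k S1, σ a ∈ Cl k t :=
    fun h a ha => cl_map σ hσ h ha
  have hF : σ '' S1 ⊆ F := Set.subset_union_left.trans Set.subset_union_left
  have f1 : Ent (Cl k F) γ := ent_of_ents (Set.subset_union_right.trans Set.subset_union_left)
  have f2 : Ent (Cl k F) J' := fun i j => cK hF _ (eJ i j)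
  have f3 : Ent (Cl k F) Z2 := fun i j => by
    have := Ent.mulVec (C := Cl k F) (M := B.map ρ) (fun p l => cK hF _ (B p l).2)
      (fun l => subset_cl (.inr ⟨l, rfl⟩)) (j, i)
    rwa [hZ2] at this
  have f4 : ∀ a, Ent (Cl k F) (aeval J' (P a)) := fun a =>
    Finset.prod_induction _ (fun p => Ent (Cl k F) (aeval J' p))
      (fun p q hp hq => by rw [map_mul]; exact hp.mul hq) (by rw [map_one]; exact ent_one)
      fun b _ => by
        rw [map_sub, aeval_X, aeval_C, Algebra.algebraMap_eq_smul_one]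
        exact f2.sub (ent_one.smul (cK hF _ (hS1 b b.2).1))
  have f5 : ∀ a : s, τ (.inr a) ∈ Cl k F := fun a => by
    have m1 : ∀ (M : Matrix n n K) (b : K), M *ᵥ v a a.2 = b • v a a.2 →
        M.map σ *ᵥ (σ ∘ v a a.2) = σ b • (σ ∘ v a a.2) := fun M b h => by
      ext i
      rw [← RingHom.coe_coe σ, ← RingHom.map_mulVec, h]
      simp
    let w := γ⁻¹ *ᵥ (σ ∘ v a a.2)
    have hw : γ *ᵥ w = σ ∘ v a a.2 := by rw [mulVec_mulVec, i1, one_mulVec]
    have hw0 : w ≠ 0 := fun e => hv a a.2 (funext fun i => hσ (by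
      have := congrFun hw i
      rw [e, mulVec_zero] at this
      exact this.symm.trans (map_zero σ).symm))
    have w1 : J' *ᵥ w = σ a • w := by
      rw [mulVec_mulVec, hJi, ← mulVec_mulVec, m1 Y a (hYv a a.2), mulVec_smul]
    have w2 : Z1 *ᵥ w = σ (ζ a) • w := by
      rw [← mulVec_mulVec, ← mulVec_mulVec, hw, m1 Z _ (hZv a a.2), mulVec_smul]
    have w3 : Z2 *ᵥ w = (σ (ζ a) + (P a).eval (σ a) * τ (.inr a)) • w := by
      rw [add_mulVec, w2, sum_mulVec, add_smul, Finset.sum_eq_single a]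
      · rw [smul_mulVec, aeval_mulVec w1, smul_smul, mul_comm]
      · intro b _ hb
        rw [smul_mulVec, aeval_mulVec w1, eval_prod, Finset.prod_eq_zero (i := a)
          (Finset.mem_erase.2 ⟨hb.symm, Finset.mem_univ _⟩) (by simp), zero_smul, smul_zero]
      · simp
    have w4 := sub_mem (f3.eigen hw0 w3) (cK hF _ (hS1 a a.2).2)
    rw [add_sub_cancel_left] at w4
    refine cl_of_mul ?_ ?_ w4
    · rw [eval_prod]
      refine prod_mem fun b _ => ?_
      simpa using sub_mem (cK hF _ (hS1 a a.2).1) (cK hF _ (hS1 b b.2).1)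
    · rw [eval_prod]
      refine Finset.prod_ne_zero_iff.2 fun b hb e => (Finset.mem_erase.1 hb).1 ?_
      simp only [eval_sub, eval_X, eval_C, sub_eq_zero] at e
      exact Subtype.ext (hσ e).symm
  have f6 : Ent (Cl k F) Z1 := by
    have := f3.sub (Ent.sum (s := Finset.univ) fun a _ => (f4 a).smul (f5 a))
    rwa [add_sub_cancel_right] at this
  have f7 : Ent (Cl k F) Y' := f1.solve' hγ (hγJ ▸ f1.mul f2)
  have f8 : Ent (Cl k F) Z' := f1.solve' hγ (hZ1 ▸ f1.mul f6)
  let E := ents Y' ∪ ents Z'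
  let U := ents γ ∪ Set.range fun a : s => τ (.inr a)
  let T := E ∪ (ents γ0' ∪ σ '' S1)
  have r1 : rk k (E ∪ U) ≤ rk k F := rk_le (Set.union_subset (Set.union_subset f7.ents f8.ents)
    (Set.union_subset f1.ents (Set.range_subset_iff.2 f5)))
  have r2 : rk k (σ '' S1) ≤ (s.erase 0).card := by
    have : ∀ t ⊆ s, rk k (σ '' ⋃ a ∈ t, {a, ζ a}) ≤ t.card := fun t ht => by
      induction t using Finset.induction_on with
      | empty => simp [rk]
      | insert a t ha ih =>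
        have has := ht (Finset.mem_insert_self a t)
        rw [Finset.set_biUnion_insert, Set.image_union, Finset.card_insert_of_notMem ha,
          Nat.cast_add, add_comm, Set.image_pair]
        refine (rk_union_le _ _).trans
          (add_le_add (rk_pair_le hf ?_) (ih ((Finset.subset_insert a t).trans ht)))
        have h1 := ev_mulVec ψ (hYv a has) (hZv a has) f
        rw [hψ, zero_mulVec, eq_comm, smul_eq_zero_iff_left (hv a has)] at h1
        have h2 := MvPolynomial.comp_aeval_apply ![a, ζ a] σ f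
        rw [h1, map_zero] at h2
        rw [h2]
        exact congrArg (fun w => MvPolynomial.aeval w f) (funext fun i => by fin_cases i <;> rfl)
    exact this _ (Finset.erase_subset _ _)
  have r3 : rk k F ≤ (s.erase 0).card + Fintype.card (n × n) + Fintype.card (Fin c) :=
    (rk_union_le _ _).trans (add_le_add ((rk_union_le _ _).trans
      (add_le_add r2 (rk_range_le _))) (rk_range_le _))
  have r4 : rk k E + rk k (T ∪ U) ≤ rk k (E ∪ U) + rk k T := rk_submod Set.subset_union_left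
  have r5 : rk k T + Fintype.card (Fin c ⊕ s) ≤ rk k (T ∪ Set.range τ) := rk_add_le hτ (by
    rintro _ ((⟨p, rfl⟩ | ⟨p, rfl⟩) | ⟨p, rfl⟩ | ⟨p, -, rfl⟩) <;> exact ⟨_, rfl⟩)
  have hT : σ '' S1 ⊆ T ∪ U := fun a ha => .inl (.inr (.inr ha))
  have r6 : rk k (T ∪ Set.range τ) ≤ rk k (T ∪ U) := rk_le (by
    rintro _ (h | ⟨i | i, rfl⟩)
    · exact subset_cl (.inl h)
    · rw [← congrFun hΛv i]
      refine Ent.mulVec (C := Cl k (T ∪ U)) (fun p l => cK hT _ (Λ p l).2) (fun p => ?_) i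
      exact Ent.solve (ent_of_ents fun a ha => .inl (.inr (.inl ha))) hγ0'
        (hγe ▸ ent_of_ents fun a ha => .inr (.inl ha)) _ _
    · exact subset_cl (.inr (.inr ⟨i, rfl⟩)))
  have r7 : rk k T ≠ ⊤ := rk_ne_top (((Set.finite_range _).union (Set.finite_range _)).union
    ((Set.finite_range _).union (Set.Finite.image _
      ((s.erase 0).finite_toSet.biUnion fun _ _ => Set.toFinite _))))
  have r8 : rk k (ents Y ∪ ents Z) ≤ rk k E := (rk_image σ hσ _).trans (rk_mono (by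
    rintro _ ⟨_, ⟨p, rfl⟩ | ⟨p, rfl⟩, rfl⟩
    exacts [.inl ⟨p, rfl⟩, .inr ⟨p, rfl⟩]))
  have r9 : rk k E + Fintype.card (Fin c ⊕ s) + rk k T ≤
      (s.erase 0).card + Fintype.card (n × n) + Fintype.card (Fin c) + rk k T := by
    rw [add_assoc, add_comm _ (rk k T)]
    exact (add_le_add le_rfl (r5.trans r6)).trans (r4.trans (add_le_add (r1.trans r3) le_rfl))
  rw [ENat.add_le_add_iff_right r7, Fintype.card_sum, Fintype.card_coe,
    ← Finset.card_erase_add_one h0s] at r9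
  refine (add_le_add r8 le_rfl).trans ?_
  rw [← ENat.add_le_add_iff_right (ENat.natCast_ne_top (Fintype.card (Fin c) + (s.erase 0).card))]
  convert r9 using 1 <;> push_cast <;> ring

end Pool.Agent.Lib.MP_9e3d42_al.CT
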