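import Pool.Agent.Lib.MP_9e3d42_al.CT.Div
import Pool.Agent.Lib.MP_9e3d42_al.CT.E2

/-! A generic arc through a cyclic representation. -/

open Matrix PowerSeries
open scoped TensorProduct

namespace Pool.Agent.Lib.MP_9e3d42_al.CT

lemma indep_X_mul {O L ι : Type*} [CommRing O] [CommRing L] [Algebra O L] {τ : ι → L}
    (h : AlgebraicIndependent O τ) : AlgebraicIndependent O fun i => (X * C (τ i) : L⟦X⟧) := by
  have h1 : AlgebraicIndependent O fun i => (Polynomial.X * Polynomial.C (τ i) : Polynomial L) :=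
    .of_comp ((Polynomial.aeval (1 : L)).restrictScalars O) (by convert h; ext; simp)
  convert h1.map' (f := (Polynomial.coeToPowerSeries.algHom L).restrictScalars O)
    (fun a b e => Polynomial.coe_injective L (by simpa using e))
  simp [mul_comm X]

variable {n : Type*} [Fintype n] [DecidableEq n]

lemma Dv.exists_mat {B S : Type*} [CommRing B] [CommRing S] [Algebra B S] {H : (n → B) →ₗ[B] S}
    {G : S} {c : S →ₗ[B] n → B} {κ : S →ₗ[B] S} (d : Dv H G c κ) :
    ∃ r : S →ₐ[B] Matrix n n B, ∀ σ β, r σ *ᵥ β = d.rep σ β :=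
  ⟨LinearMap.toMatrixAlgEquiv'.toAlgHom.comp d.rep, fun σ β =>
    LinearMap.toMatrix'_mulVec (d.rep σ) β⟩

lemma exists_base {O L S : Type*} [CommRing O] [Field L] [Algebra O L] [Module.Flat O L]
    [CommRing S] [Algebra O S] {G : S} (hG : ∀ q, G * q = 0 → q = 0) (c0 : S →ₗ[O] n → O)
    (hker : ∀ σ, c0 σ = 0 ↔ G ∣ σ) {h : n → L ⊗[O] S} {p : n → S} {ϱ : n → O}
    (hϱ : ∀ i, algebraMap O L (ϱ i) ≠ 0) (hp : ∀ i, c0 (p i) = Pi.single i (ϱ i))
    (hh : ∀ i, algebraMap O L (ϱ i) • h i = 1 ⊗ₜ p i) :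
    ∃ c κ, Dv (Fintype.linearCombination L h) (1 ⊗ₜ G) c κ ∧
      ∀ σ i, c (1 ⊗ₜ σ) i = algebraMap O L (c0 σ i) := by
  let c := (TensorProduct.piScalarRight O L L n).toLinearMap ∘ₗ c0.baseChange L
  have h1 : ∀ σ i, c (1 ⊗ₜ σ) i = algebraMap O L (c0 σ i) := fun σ i => by
    simp [c, Algebra.smul_def]
  have h2 : ∀ β, c (Fintype.linearCombination L h β) = β := fun β => by
    have : ∀ i, c (h i) = Pi.single i 1 := fun i => smul_right_injective _ (hϱ i) (by
      ext j
      simp only [← map_smul, hh, h1, hp]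
      by_cases e : j = i <;> simp [e])
    simp only [Fintype.linearCombination_apply, map_sum, map_smul, this]
    ext j
    simp [Pi.single_apply]
  have h3 : ∀ q, (LinearMap.mulLeft O G).lTensor L q = 1 ⊗ₜ G * q := fun q => by
    induction q with
    | zero => simp
    | tmul a b => simp
    | add a b ha hb => rw [map_add, ha, hb, mul_add]
  have h4 : ∀ σ, c σ = 0 ↔ ∃ q, 1 ⊗ₜ G * q = σ := fun σ => by
    have := Module.Flat.lTensor_exact L (f := LinearMap.mulLeft O G) (g := c0)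
      (fun σ => (hker σ).trans (exists_congr fun _ => eq_comm)) σ
    simp only [Set.mem_range, h3] at this
    rw [← this]
    exact map_eq_zero_iff _ (TensorProduct.piScalarRight O L L n).injective
  obtain ⟨c', κ, d⟩ := exists_dv (H := Fintype.linearCombination L h) (G := 1 ⊗ₜ G)
    (fun σ => by
      obtain ⟨q, hq⟩ := (h4 (σ - Fintype.linearCombination L h (c σ))).1 (by
        rw [map_sub, h2, sub_self])
      exact ⟨c σ, q, by rw [hq, add_sub_cancel]⟩) fun β q e => by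
    have e1 := congrArg c e
    rw [map_add, h2, (h4 _).2 ⟨q, rfl⟩, add_zero, map_zero] at e1
    rw [e1, map_zero, zero_add, ← h3] at e
    exact ⟨e1, Module.Flat.lTensor_preserves_injective_linearMap (M := L) _
      ((injective_iff_map_eq_zero (LinearMap.mulLeft O G)).2 hG) (e.trans (map_zero _).symm)⟩
  refine ⟨c', κ, d, fun σ i => ?_⟩
  rw [← h1]
  nth_rw 2 [← d.eq (1 ⊗ₜ σ)]
  rw [map_add, h2, (h4 _).2 ⟨_, rfl⟩, add_zero]

theorem arc0 {O L S : Type*} [CommRing O] [IsDomain O] [Field L]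
    [Algebra O L] [FaithfulSMul O L] [FaithfulSMul O L⟦X⟧] {τ : (n × n) ⊕ n → L}
    (hτ : AlgebraicIndependent O τ) [CommRing S] [Algebra O S] [Algebra L S] [IsScalarTower O L S]
    (t : MvPolynomial (Fin 2) O →ₐ[O] S) {f G : MvPolynomial (Fin 2) O} (hf : t f = 0)
    {h : n → S} {c : S →ₗ[L] n → L} {κ : S →ₗ[L] S}
    (d : Dv (Fintype.linearCombination L h) (t G) c κ)
    (ψ : MvPolynomial (Fin 2) O →ₐ[O] Matrix n n O) {p : n → MvPolynomial (Fin 2) O} {ϱ : n → O}
    (hϱ : ∀ i, ϱ i ≠ 0) (hh : ∀ i, algebraMap O L (ϱ i) • h i = t (p i))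
    (hψ : ∀ q i j, c (t (q * p j)) i = algebraMap O L (ϱ j * ψ q i j)) :
    ∃ θ : MvPolynomial (Fin 2) O →ₐ[O] Matrix n n L⟦X⟧, θ f = 0 ∧
      (∀ p, (θ p).map constantCoeff = (ψ p).map (algebraMap O L)) ∧
      Fintype.card (n × n) ≤ rk O (ents (θ (.X 0)) ∪ ents (θ (.X 1))) := by
  have hϱ' : ∀ i, algebraMap O L (ϱ i) ≠ 0 := fun i =>
    (map_ne_zero_iff _ (FaithfulSMul.algebraMap_injective O L)).2 (hϱ i)
  obtain ⟨c', κ', d', hc'⟩ := d.ps (Fintype.linearCombination L h fun i => τ (.inr i))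
  have hC : ∀ β : n → L, Fintype.linearCombination L⟦X⟧ (fun i => (C (h i) : S⟦X⟧))
      (fun i => C (β i)) = C (Fintype.linearCombination L h β) := fun β => by
    simp [Fintype.linearCombination_apply, Algebra.smul_def, RingHom.algebraMap_toAlgebra]
  let t' : MvPolynomial (Fin 2) O →+* S⟦X⟧ := C.comp t.toRingHom
  have ht : ∀ q, t' q = C (t q) := fun _ => rfl
  obtain ⟨r, hr⟩ := d'.exists_mat
  let θ0 : MvPolynomial (Fin 2) O →+* Matrix n n L⟦X⟧ := r.toRingHom.comp t'
  have hθ0 : ∀ q β, θ0 q *ᵥ β = d'.rep (t' q) β := fun q β => hr _ _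
  let γ : Matrix n n L⟦X⟧ := 1 + of fun i j => X * C (τ (.inl (i, j)))
  have g1 : γ.map constantCoeff = 1 := by
    ext i j
    simp [γ, one_apply, apply_ite]
  have g2 : IsUnit γ.det := by
    rw [isUnit_iff_constantCoeff, RingHom.map_det, RingHom.mapMatrix_apply, g1, det_one]
    exact isUnit_one
  have i1 := mul_nonsing_inv γ g2
  have i2 := nonsing_inv_mul γ g2
  have g3 : γ⁻¹.map constantCoeff = 1 := by
    have := congrArg (Matrix.map · constantCoeff) i1
    simpa only [Matrix.map_mul, g1, Matrix.one_mul, Matrix.map_one, map_zero, map_one] using this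
  let θ : MvPolynomial (Fin 2) O →ₐ[O] Matrix n n L⟦X⟧ :=
    { toFun := fun q => γ * θ0 q * γ⁻¹
      map_one' := by rw [map_one, Matrix.mul_one, i1]
      map_mul' := fun a b => by
        rw [map_mul]
        simp only [Matrix.mul_assoc]
        rw [← Matrix.mul_assoc γ⁻¹, i2, Matrix.one_mul]
      map_zero' := by simp
      map_add' := fun a b => by rw [map_add, Matrix.mul_add, Matrix.add_mul]
      commutes' := fun o => by
        have : t' (algebraMap O _ o) = algebraMap L⟦X⟧ _ (algebraMap O L⟦X⟧ o) := by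
          rw [ht, AlgHom.commutes, RingHom.algebraMap_toAlgebra, PowerSeries.algebraMap_apply,
            map_C, ← IsScalarTower.algebraMap_apply]
        have e : θ0 (algebraMap O _ o) = algebraMap O _ o := by
          change r (t' _) = _
          rw [this, AlgHom.commutes, ← IsScalarTower.algebraMap_apply]
        rw [e, ← Algebra.commutes, Matrix.mul_assoc, i1, Matrix.mul_one] }
  have hθ : ∀ q, θ q = γ * θ0 q * γ⁻¹ := fun _ => rfl
  refine ⟨θ, ?_, fun q => ?_, ?_⟩
  · rw [hθ, show θ0 f = 0 from ext_of_mulVec_single fun i => by rw [hθ0, ht, hf, zero_mulVec]; simp]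
    simp
  · rw [hθ, Matrix.map_mul, Matrix.map_mul, g1, g3, Matrix.one_mul, Matrix.mul_one]
    ext i j
    refine mul_left_cancel₀ (hϱ' j) ?_
    have e1 := congrFun (hθ0 q (Pi.single j 1)) i
    rw [mulVec_single_one, Dv.rep_apply, Fintype.linearCombination_apply_single, one_smul] at e1
    rw [map_apply, map_apply, show θ0 q i j = _ from e1, hc', ht, ← map_mul, constantCoeff_C,
      ← smul_eq_mul, ← Pi.smul_apply, ← map_smul, ← mul_smul_comm, hh, ← map_mul, hψ, map_mul]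
  · let w := γ *ᵥ c' 1
    let E := ents (θ (.X 0)) ∪ ents (θ (.X 1))
    have k1 : ∀ q i, (γ *ᵥ c' (t' q)) i ∈ Cl O (E ∪ Set.range w) := fun q i => by
      have := (ent_algHom θ (C := Cl O (E ∪ Set.range w)) (fun i => by
        fin_cases i
        exacts [ent_of_ents fun a ha => .inl (.inl ha), ent_of_ents fun a ha => .inl (.inr ha)])
        q).mulVec (v := w) (fun i => subset_cl (.inr ⟨i, rfl⟩)) i
      rwa [hθ, mulVec_mulVec, Matrix.mul_assoc, i2, Matrix.mul_one, ← mulVec_mulVec, hθ0,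
        Dv.rep_apply, d'.c_mul, mul_one] at this
    have k2 : Ent (Cl O (E ∪ Set.range w)) γ := fun i j => by
      have e1 := hC (Pi.single j (algebraMap O L (ϱ j)))
      rw [Fintype.linearCombination_apply_single, hh, ← ht] at e1
      have e2 := k1 (p j) i
      rw [← e1, d'.cH, show (fun i => C (Pi.single (M := fun _ => L) j (algebraMap O L (ϱ j)) i)) =
        Pi.single j (algebraMap O L⟦X⟧ (ϱ j)) from funext fun l => by
          by_cases e : l = j <;> simp [e, PowerSeries.algebraMap_apply], mulVec_single] at e2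
      exact cl_of_mul (algebraMap_mem _ (ϱ j)) ((map_ne_zero_iff _
        (FaithfulSMul.algebraMap_injective O _)).2 (hϱ j)) (by simpa [mul_comm] using e2)
    have k3 := (le_rk (indep_X_mul hτ)).trans ((rk_le (t := E ∪ Set.range w) (by
      rintro _ ⟨⟨i, j⟩ | i, rfl⟩
      · simpa [γ] using sub_mem (k2 i j) (ent_one i j)
      · have e1 := d'.cG 1
        rw [mul_one, map_sub, map_smul, ← hC, d'.cH, sub_eq_zero, ← ht] at e1
        exact k2.solveVec g2.ne_zero (fun i => e1 ▸ k1 G i) i)).trans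
      ((rk_union_le _ _).trans (add_le_add le_rfl (rk_range_le w))))
    rwa [Fintype.card_sum, Nat.cast_add, ENat.add_le_add_iff_right (ENat.natCast_ne_top _)] at k3

theorem arc {O L S : Type*} [CommRing O] [IsDomain O] [IsPrincipalIdealRing O] [Field L]
    [Algebra O L] [FaithfulSMul O L] [FaithfulSMul O L⟦X⟧] {τ : (n × n) ⊕ n → L}
    (hτ : AlgebraicIndependent O τ) [CommRing S] [Algebra O S]
    (t : MvPolynomial (Fin 2) O →ₐ[O] S) {f G : MvPolynomial (Fin 2) O} (hf : t f = 0)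
    (hG : ∀ q, t G * q = 0 → q = 0) (c0 : S →ₗ[O] n → O) (hker : ∀ σ, c0 σ = 0 ↔ t G ∣ σ)
    (ψ : MvPolynomial (Fin 2) O →ₐ[O] Matrix n n O)
    (hψ : ∀ p q, c0 (t (p * q)) = ψ p *ᵥ c0 (t q)) {p : n → MvPolynomial (Fin 2) O} {ϱ : n → O}
    (hϱ : ∀ i, ϱ i ≠ 0) (hp : ∀ i, c0 (t (p i)) = Pi.single i (ϱ i)) :
    ∃ θ : MvPolynomial (Fin 2) O →ₐ[O] Matrix n n L⟦X⟧, θ f = 0 ∧
      (∀ p, (θ p).map constantCoeff = (ψ p).map (algebraMap O L)) ∧
      Fintype.card (n × n) ≤ rk O (ents (θ (.X 0)) ∪ ents (θ (.X 1))) := by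
  have hϱ' : ∀ i, algebraMap O L (ϱ i) ≠ 0 := fun i =>
    (map_ne_zero_iff _ (FaithfulSMul.algebraMap_injective O L)).2 (hϱ i)
  let h : n → L ⊗[O] S := fun i => (algebraMap O L (ϱ i))⁻¹ • 1 ⊗ₜ t (p i)
  have hh : ∀ i, algebraMap O L (ϱ i) • h i = 1 ⊗ₜ t (p i) := fun i => smul_inv_smul₀ (hϱ' i) _
  obtain ⟨c, κ, d, hc⟩ := exists_base hG c0 hker hϱ' hp hh
  let t' : MvPolynomial (Fin 2) O →ₐ[O] L ⊗[O] S := Algebra.TensorProduct.includeRight.comp t
  refine arc0 hτ t' (G := G) (by simp [t', hf]) d ψ hϱ hh fun q i j => (hc (t (q * p j)) i).trans ?_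
  rw [hψ, hp, mulVec_single]
  simp [mul_comm]

end Pool.Agent.Lib.MP_9e3d42_al.CT
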