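import Pool.Agent.Lib.MP_9e3d42_al.CT.Ev

/-! From the determinant inequality to a first order lift. -/

open Module MvPolynomial
open scoped TensorProduct

namespace Pool.Agent.Lib.MP_9e3d42_al.CT

section unit

variable {O V : Type*} [CommRing O] [IsLocalRing O] [AddCommGroup V] [Module O V]
  [Module.Free O V] [Module.Finite O V]

lemma isUnit_det_one_add {n : Type*} [Fintype n] [DecidableEq n] {x : O} (hx : x ∈ nonunits O)
    (E : Matrix n n O) : IsUnit (1 + x • E).det := by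
  rw [Matrix.det_one_add_smul, add_assoc, ← sub_neg_eq_add]
  refine IsLocalRing.isUnit_one_sub_self_of_mem_nonunits _ ?_
  rw [← IsLocalRing.mem_maximalIdeal] at hx ⊢
  exact neg_mem (add_mem (Ideal.mul_mem_left _ _ hx)
    (Ideal.mul_mem_left _ _ (Ideal.pow_mem_of_mem _ hx _ two_pos)))

lemma isUnit_one_add {x : O} (hx : x ∈ nonunits O) (E : Module.End O V) :
    IsUnit (1 + x • E) := by
  classical
  let b := Module.Free.chooseBasis O V
  rw [LinearMap.isUnit_iff_isUnit_det, ← LinearMap.det_toMatrix b, map_add, map_smul,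
    LinearMap.toMatrix_one]
  exact isUnit_det_one_add hx _

end unit

section pid

variable {O V V2 : Type*} [CommRing O] [IsDomain O] [IsPrincipalIdealRing O]
  [AddCommGroup V] [Module O V] [AddCommGroup V2] [Module O V2]

lemma exists_retr [Module.Finite O V] (U : Submodule O V)
    (h : ∀ a : O, a ≠ 0 → ∀ v, a • v ∈ U → v ∈ U) : ∃ r : V →ₗ[O] U, ∀ u : U, r u = u := by
  have : IsTorsionFree O (V ⧸ U) := .of_smul_eq_zero fun a v hv => by
    obtain ⟨v, rfl⟩ := U.mkQ_surjective v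
    rw [← map_smul, Submodule.mkQ_apply, Submodule.Quotient.mk_eq_zero] at hv
    by_cases ha : a = 0
    · exact .inl ha
    · exact .inr ((Submodule.Quotient.mk_eq_zero _).2 (h a ha v hv))
  obtain ⟨s, hs⟩ := U.mkQ.exists_rightInverse_of_surjective U.range_mkQ
  refine ⟨(LinearMap.id - s ∘ₗ U.mkQ).codRestrict U fun v => ?_, fun u => Subtype.ext ?_⟩
  on_goal 1 => simp [(Submodule.Quotient.mk_eq_zero U).2 u.2]
  rw [← Submodule.Quotient.mk_eq_zero, ← Submodule.mkQ_apply]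
  have := LinearMap.congr_fun hs (U.mkQ v)
  simp only [LinearMap.comp_apply, LinearMap.id_apply] at this
  simp only [LinearMap.sub_apply, LinearMap.id_apply, LinearMap.comp_apply, map_sub, this,
    sub_self]

lemma det_proj [Module.Free O V] [Module.Finite O V] {p : Submodule O V} {e : Module.End O V}
    (h : LinearMap.IsProj p e) (t : O) :
    LinearMap.det (1 - e + t • e) = t ^ finrank O p := by
  let E := p.prodEquivOfIsCompl (LinearMap.ker e) h.isCompl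
  have h1 : 1 - e + t • e = E.toLinearMap ∘ₗ
      LinearMap.prodMap (t • LinearMap.id) LinearMap.id ∘ₗ E.symm.toLinearMap := by
    refine LinearMap.ext fun v => ?_
    obtain ⟨⟨a, b⟩, rfl⟩ := E.surjective v
    have ha := h.map_id a a.2
    have hb : e b = 0 := b.2
    simp only [LinearMap.comp_apply, LinearEquiv.coe_coe, LinearEquiv.symm_apply_apply]
    simp [E, ha, hb]
    abel
  rw [h1, LinearMap.det_conj, LinearMap.det_prodMap, LinearMap.det_smul]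
  simp

omit [IsDomain O] [IsPrincipalIdealRing O] in
lemma ring_step {E : Type*} [Ring E] [Algebra O E] {x : O} {a c k : ℕ} (hk : a = c + 1 + k)
    {e T B B1 A Hi ε : E} (he : e * e = e) (eB : e * B = B) (eB1 : e * B1 = B1)
    (eε : e * ε = ε) (Tε : T * ε = x ^ c • e) (Be : B * e = T + x ^ (c + 1) • (B1 * e))
    (hH : (1 + x ^ a • A) * Hi = 1) :
    (1 - x ^ a • (B * (1 - e))) * (1 - e + x ^ a • (B * Hi)) =
      (1 - e + x ^ a • T) * (1 + x • (ε * (B1 * e - x ^ k • (B * A * Hi)))) := by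
  have z : ∀ Z : E, e * Z = Z → (1 - e) * Z = 0 := fun Z h => by rw [sub_mul, one_mul, h, sub_self]
  have h1 : B * Hi = B * (1 - e) + T + x ^ (c + 1) • (B1 * e - x ^ k • (B * A * Hi)) := by
    have h2 : Hi = 1 - x ^ a • (A * Hi) := by
      rw [← hH, add_mul, one_mul, smul_mul_assoc, add_sub_cancel_right]
    rw [smul_sub, smul_smul, ← pow_add, ← hk, mul_sub, mul_one, Be]
    nth_rw 1 [h2]
    rw [mul_sub, mul_one, mul_smul_comm, mul_assoc]
    abel
  have eE : e * (B1 * e - x ^ k • (B * A * Hi)) = B1 * e - x ^ k • (B * A * Hi) := by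
    rw [mul_sub, mul_smul_comm, ← mul_assoc, ← mul_assoc, ← mul_assoc, eB, eB1]
  generalize B1 * e - x ^ k • (B * A * Hi) = E' at h1 eE
  have h3 : (1 - e) * (1 - e) = 1 - e := by rw [mul_sub, mul_one, z e he, sub_zero]
  have h4 : B * (1 - e) * (B * Hi) = 0 := by
    rw [mul_assoc, ← mul_assoc _ B, z B eB, zero_mul, mul_zero]
  have h5 : (1 - e) * (ε * E') = 0 := by rw [← mul_assoc, z ε eε, zero_mul]
  have h6 : T * (ε * E') = x ^ c • E' := by rw [← mul_assoc, Tε, smul_mul_assoc, eE]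
  rw [sub_mul, one_mul, smul_mul_assoc, mul_add, mul_smul_comm, h4, mul_assoc B, h3, mul_add,
    mul_one, mul_smul_comm, add_mul, h5, smul_mul_assoc, h6, h1]
  simp only [smul_add, smul_smul, pow_succ]
  module

theorem lin_step [IsLocalRing O] [Module.Free O V] [Module.Finite O V] [Module.Free O V2]
    [Module.Finite O V2] {x : O} (hx : x ∈ nonunits O) (hx0 : x ≠ 0) (d0 Δ0 Δ1 : V →ₗ[O] V2)
    (ε : V2 →ₗ[O] V) (hsat : ∀ a : O, a ≠ 0 → ∀ u φ, d0 φ = a • u → ∃ φ', d0 φ' = u)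
    (hε0 : ∀ φ, ε (d0 φ) = 0) {a c ρ : ℕ} (hε : ∀ φ, d0 φ = 0 → ε (Δ0 φ) = x ^ c • φ)
    (hρ : finrank O (LinearMap.ker d0) ≤ ρ) (hac : c + 1 ≤ a)
    (hKI : ∀ P : V2 →ₗ[O] V, x ^ ((a + c) * ρ) ∣
      LinearMap.det (P ∘ₗ (d0 + x ^ a • (Δ0 + x ^ (c + 1) • Δ1))))
    (φ0 : V) (h0 : d0 φ0 = 0) :
    ∃ v, ε v = φ0 ∧ ∃ s : O, s ≠ 0 ∧ ∃ φ β, d0 φ = 0 ∧ s • v = Δ0 φ + d0 β := by
  obtain ⟨r, hr⟩ := exists_retr (LinearMap.range d0) fun a ha v ⟨φ, h⟩ => hsat a ha v φ h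
  obtain ⟨s, hs⟩ := d0.rangeRestrict.exists_rightInverse_of_surjective d0.range_rangeRestrict
  let α : V2 →ₗ[O] V := s ∘ₗ r
  have hα : ∀ φ, d0 (α (d0 φ)) = d0 φ := fun φ => by
    have h1 := congrArg Subtype.val (LinearMap.congr_fun hs (r (d0 φ)))
    have h2 := congrArg Subtype.val (hr ⟨d0 φ, φ, rfl⟩)
    exact h1.trans h2
  clear_value α
  let e : Module.End O V := 1 - α ∘ₗ d0
  have he : LinearMap.IsProj (LinearMap.ker d0) e :=
    ⟨fun φ => by simp [e, hα], fun φ h => by simp [e, LinearMap.mem_ker.1 h]⟩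
  let q : Module.End O V2 := 1 - d0 ∘ₗ α
  have hq : ∀ φ, q (d0 φ) = 0 := fun φ => by simp [q, hα]
  have hεq : ∀ φ, d0 φ = 0 → ε (q (Δ0 φ)) = x ^ c • φ := fun φ h => by simp [q, hε0, hε φ h]
  let U : Submodule O V2 :=
    { carrier := {v | ∃ s : O, s ≠ 0 ∧ ∃ φ, d0 φ = 0 ∧ s • v = q (Δ0 φ)}
      zero_mem' := ⟨1, one_ne_zero, 0, by simp⟩
      add_mem' := fun {v w} ⟨s, hs, φ, h1, h2⟩ ⟨t, ht, ψ, h3, h4⟩ =>
        ⟨s * t, mul_ne_zero hs ht, t • φ + s • ψ, by simp [h1, h3], by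
          simp only [map_add, map_smul, ← h2, ← h4]; module⟩
      smul_mem' := fun t v ⟨s, hs, φ, h1, h2⟩ => ⟨s, hs, t • φ, by simp [h1], by
        simp only [map_smul, ← h2]; module⟩ }
  have hU1 : ∀ φ, d0 φ = 0 → q (Δ0 φ) ∈ U := fun φ h => ⟨1, one_ne_zero, φ, h, one_smul _ _⟩
  have hU2 : ∀ v ∈ U, d0 (ε v) = 0 := by
    rintro v ⟨s, hs, φ, h1, h2⟩
    refine (smul_eq_zero_iff_right hs).1 ?_
    rw [← map_smul, ← map_smul, h2, hεq φ h1, map_smul, h1, smul_zero]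
  have hU3 : ∀ v ∈ U, ε v = 0 → v = 0 := by
    rintro v ⟨s, hs, φ, h1, h2⟩ h
    have h3 := congrArg ε h2
    rw [map_smul, h, smul_zero, hεq φ h1, eq_comm, smul_eq_zero_iff_right (pow_ne_zero _ hx0)] at h3
    rwa [h3, map_zero, map_zero, smul_eq_zero_iff_right hs] at h2
  obtain ⟨r', hr'⟩ := exists_retr U (by
    rintro t ht v ⟨s, hs, φ, h1, h2⟩
    exact ⟨s * t, mul_ne_zero hs ht, φ, h1, by rw [← h2, mul_smul]⟩)
  have hrk : finrank O U = finrank O (LinearMap.ker d0) := by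
    refine le_antisymm (LinearMap.finrank_le_finrank_of_injective
      (f := (ε ∘ₗ U.subtype).codRestrict _ fun v => hU2 v v.2) ?_)
      (LinearMap.finrank_le_finrank_of_injective
        (f := (q ∘ₗ Δ0 ∘ₗ (LinearMap.ker d0).subtype).codRestrict U fun φ => hU1 φ φ.2) ?_)
    · rw [injective_iff_map_eq_zero]
      exact fun v h => Subtype.ext (hU3 v v.2 (congrArg Subtype.val h))
    · rw [injective_iff_map_eq_zero]
      intro φ h
      have h1 : q (Δ0 φ) = 0 := congrArg Subtype.val h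
      have h2 := hεq φ φ.2
      rw [h1, map_zero, eq_comm, smul_eq_zero_iff_right (pow_ne_zero _ hx0)] at h2
      exact Subtype.ext h2
  let β := LinearEquiv.ofFinrankEq U (LinearMap.ker d0) hrk
  let β' : V2 →ₗ[O] V := (LinearMap.ker d0).subtype ∘ₗ β.toLinearMap ∘ₗ r'
  have hβ : ∀ v, e (β' v) = β' v := fun v => he.map_id _ (β (r' v)).2
  let γ : V →ₗ[O] V2 := U.subtype ∘ₗ β.symm.toLinearMap ∘ₗ he.codRestrict
  have hγ : ∀ φ, γ φ ∈ U := fun φ => (β.symm _).2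
  have hβγ : ∀ φ, β' (γ φ) = e φ := fun φ => by simp [β', γ, hr']
  have hee : ∀ φ, e (e φ) = e φ := fun φ => he.map_id _ (he.map_mem φ)
  have hγe : ∀ φ, γ (e φ) = γ φ := fun φ => by
    have : he.codRestrict (e φ) = he.codRestrict φ := Subtype.ext (hee φ)
    simp only [γ, LinearMap.comp_apply, this]
  let T : Module.End O V := β' ∘ₗ q ∘ₗ Δ0 ∘ₗ e
  let ε' : Module.End O V := ε ∘ₗ γ
  have eε : e * ε' = ε' := LinearMap.ext fun φ => he.map_id _ (hU2 _ (hγ φ))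
  have Tε : T * ε' = x ^ c • e := LinearMap.ext fun φ => by
    have h1 := hU2 _ (hγ φ)
    have h2 : q (Δ0 (ε (γ φ))) = x ^ c • γ φ := sub_eq_zero.1 (hU3 _
      (sub_mem (hU1 _ h1) (U.smul_mem _ (hγ φ))) (by rw [map_sub, hεq _ h1, map_smul, sub_self]))
    change β' (q (Δ0 (e (ε (γ φ))))) = x ^ c • e φ
    rw [he.map_id _ h1, h2, map_smul, hβγ]
  obtain ⟨k, hk⟩ := Nat.exists_eq_add_of_le hac
  have hxa : x ^ a ∈ nonunits O := by
    rw [hk, add_right_comm, pow_succ]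
    exact mul_mem_nonunits_right hx
  let Δ := Δ0 + x ^ (c + 1) • Δ1
  have hH := isUnit_one_add hxa (α ∘ₗ Δ)
  obtain ⟨Hi, H1, H2⟩ := isUnit_iff_exists.1 hH
  have key := ring_step (B := β' ∘ₗ q ∘ₗ Δ) (B1 := β' ∘ₗ q ∘ₗ Δ1) (T := T) hk
    he.isIdempotentElem (LinearMap.ext fun φ => hβ _)
    (LinearMap.ext fun φ => hβ _) eε Tε (LinearMap.ext fun φ => by simp [Δ, T]) H1
  have h1 := hKI ((1 - e) ∘ₗ α + β' ∘ₗ q)
  have h2 : ((1 - e) ∘ₗ α + β' ∘ₗ q) ∘ₗ (d0 + x ^ a • Δ) =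
      (1 - e + x ^ a • ((β' ∘ₗ q ∘ₗ Δ) * Hi)) * (1 + x ^ a • (α ∘ₗ Δ)) := by
    rw [add_mul, smul_mul_assoc, mul_assoc, H2, mul_one]
    refine LinearMap.ext fun φ => ?_
    simp [hq, e, hα]
  rw [h2, map_mul, ((LinearMap.isUnit_iff_isUnit_det _).1 hH).dvd_mul_right] at h1
  have h3 := h1.mul_left (LinearMap.det (1 - x ^ a • ((β' ∘ₗ q ∘ₗ Δ) * (1 - e))))
  rw [← map_mul, key, map_mul,
    ((LinearMap.isUnit_iff_isUnit_det _).1 (isUnit_one_add hx _)).dvd_mul_right] at h3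
  have h4 : (1 - e + x ^ a • T) * (1 - e + ε') = 1 - e + x ^ (a + c) • e := by
    have h5 : T * (1 - e) = 0 := LinearMap.ext fun φ => by simp [T, hee]
    have h6 : (1 - e) * (1 - e) = 1 - e := he.isIdempotentElem.one_sub
    have h7 : (1 - e) * ε' = 0 := by rw [sub_mul, one_mul, eε, sub_self]
    rw [add_mul, mul_add, smul_mul_assoc, mul_add, h5, h6, h7, Tε, zero_add, add_zero, smul_smul,
      pow_add]
  have h5 := congrArg LinearMap.det h4
  obtain ⟨m, hm⟩ := h3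
  obtain ⟨j, rfl⟩ := Nat.exists_eq_add_of_le hρ
  rw [map_mul, det_proj he, hm, ← pow_mul, mul_add, pow_add, mul_assoc, mul_assoc] at h5
  have h6 := mul_left_cancel₀ (pow_ne_zero _ hx0) (h5.trans (mul_one _).symm)
  have h7 : IsUnit (1 - e + ε') := (LinearMap.isUnit_iff_isUnit_det _).2
    (isUnit_of_mul_isUnit_right (isUnit_of_mul_isUnit_right (h6 ▸ isUnit_one)))
  obtain ⟨w, hw⟩ := ((Module.End.isUnit_iff _).1 h7).2 φ0
  have h8 := congrArg e hw
  rw [he.map_id φ0 h0, LinearMap.add_apply, map_add, ← Module.End.mul_apply e ε', eε] at h8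
  simp only [LinearMap.sub_apply, Module.End.one_apply, map_sub, hee, sub_self, zero_add] at h8
  obtain ⟨s, hs, φ, h9, h10⟩ := hγ w
  exact ⟨γ w, h8, s, hs, φ, -α (Δ0 φ), h9, by rw [h10]; simp [q, sub_eq_add_neg]⟩

end pid

section ring

variable {O W : Type*} [CommRing O] [Ring W] [Algebra O W]

/-- The twisted commutator. -/
def ad (O : Type*) [CommRing O] [Algebra O W] (Y y : W) : W →ₗ[O] W :=
  LinearMap.mulLeft O Y - LinearMap.mulRight O y

@[simp] lemma ad_apply (Y y φ : W) : ad O Y y φ = Y * φ - φ * y := rfl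

theorem stepD [IsDomain O] [IsPrincipalIdealRing O] [IsLocalRing O] [Module.Free O W]
    [Module.Finite O W] {x : O} (hx : x ∈ nonunits O) (hx0 : x ≠ 0)
    (ψ : MvPolynomial (Fin 2) O →ₐ[O] W) {f g : MvPolynomial (Fin 2) O} (hf : ψ f = 0)
    (hg : ψ g = 0)
    (hsat : ∀ a : O, a ≠ 0 → ∀ φ u1 u2 : W, ad O (ψ (X 0)) (ψ (X 0)) φ = a • u1 →
      ad O (ψ (X 1)) (ψ (X 1)) φ = a • u2 →
      ∃ φ', ad O (ψ (X 0)) (ψ (X 0)) φ' = u1 ∧ ad O (ψ (X 1)) (ψ (X 1)) φ' = u2)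
    {D : MvPolynomial (Fin 2) O →ₗ[O] W} (hD : IsDer ψ D) (hDf : D f = 0) {a c ρ : ℕ}
    (hDg : D g = x ^ c • 1) (hac : c + 1 ≤ a)
    (hρ : finrank O (LinearMap.ker
      ((ad O (ψ (X 0)) (ψ (X 0))).prod (ad O (ψ (X 1)) (ψ (X 1))))) ≤ ρ) (η1 η2 : W)
    (hKI : ∀ P1 P2 : W →ₗ[O] W, x ^ ((a + c) * ρ) ∣ LinearMap.det
      (P1 ∘ₗ ad O (ψ (X 0) + x ^ a • (D (X 0) + x ^ (c + 1) • η1)) (ψ (X 0)) +
        P2 ∘ₗ ad O (ψ (X 1) + x ^ a • (D (X 1) + x ^ (c + 1) • η2)) (ψ (X 1)))) :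
    ∃ v, IsDer ψ v ∧ v f = 0 ∧ v g = 1 := by
  obtain ⟨a1, a2, ha⟩ := exists_bezout f
  obtain ⟨b1, b2, hb⟩ := exists_bezout g
  let d0 := (ad O (ψ (X 0)) (ψ (X 0))).prod (ad O (ψ (X 1)) (ψ (X 1)))
  let Δ0 := (LinearMap.mulLeft O (D (X 0))).prod (LinearMap.mulLeft O (D (X 1)))
  have hc : ∀ φ, d0 φ = 0 → ∀ p, Commute (ψ p) φ := fun φ h =>
    commute_of_X ψ (sub_eq_zero.1 (congrArg Prod.fst h)) (sub_eq_zero.1 (congrArg Prod.snd h))
  have k0 : ∀ p a b, dif O p = a * dif O (X 0) + b * dif O (X 1) → ψ p = 0 → ∀ φ,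
      (act ψ a).coprod (act ψ b) (d0 φ) = 0 := fun p a b h h0 φ => by
    have := (isDer_inner (ψ := ψ) φ).eq_act h
    refine this.symm.trans ?_
    simp [h0]
  have k1 : ∀ p a b, dif O p = a * dif O (X 0) + b * dif O (X 1) → ∀ φ, d0 φ = 0 →
      (act ψ a).coprod (act ψ b) (Δ0 φ) = D p * φ := fun p a b h φ h0 =>
    ((hD.mul_right (hc φ h0)).eq_act h).symm
  obtain ⟨⟨v1, v2⟩, h1, s, hs, φ, β, h2, h3⟩ := lin_step hx hx0 d0 Δ0
    ((LinearMap.mulLeft O η1).prod (LinearMap.mulLeft O η2)) ((act ψ b1).coprod (act ψ b2))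
    (fun a ha u φ h => by
      obtain ⟨φ', h1, h2⟩ := hsat a ha φ u.1 u.2 (congrArg Prod.fst h) (congrArg Prod.snd h)
      exact ⟨φ', Prod.ext h1 h2⟩) (k0 g _ _ hb hg)
    (fun φ h => by rw [k1 g _ _ hb φ h, hDg, smul_one_mul]) hρ hac (fun P => by
      convert hKI (P ∘ₗ LinearMap.inl O W W) (P ∘ₗ LinearMap.inr O W W) using 2
      refine LinearMap.ext fun φ => ?_
      simp only [LinearMap.comp_apply]
      simp only [LinearMap.add_apply, LinearMap.comp_apply, ← map_add]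
      congr 1
      ext <;> simp [d0, Δ0, add_mul] <;> abel) 1 (by simp [d0])
  have h4 : s • v1 = D (X 0) * φ + (ψ (X 0) * β - β * ψ (X 0)) := congrArg Prod.fst h3
  have h5 : s • v2 = D (X 1) * φ + (ψ (X 1) * β - β * ψ (X 1)) := congrArg Prod.snd h3
  obtain ⟨v, hv, e0, e1⟩ := exists_der ψ v1 v2 (by
    refine smul_right_injective W hs ?_
    have c1 := (hD.mul_right (hc φ h2)).cocycle (X 0) (X 1)
    have c2 := (isDer_inner (ψ := ψ) β).cocycle (X 0) (X 1)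
    simp only [smul_sub]
    rw [← mul_smul_comm, ← smul_mul_assoc, ← mul_smul_comm, ← smul_mul_assoc, h4, h5]
    simp only [mul_add, add_mul]
    simp only [LinearMap.comp_apply, LinearMap.mulRight_apply, LinearMap.sub_apply,
      LinearMap.mulLeft_apply, AlgHom.toLinearMap_apply] at c1 c2
    linear_combination (norm := abel) c1 + c2)
  refine ⟨v, hv, ?_, by rw [hv.eq_act hb, e0, e1]; exact h1⟩
  refine (smul_eq_zero_iff_right hs).1 ?_
  rw [hv.eq_act ha, e0, e1]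
  change s • (act ψ a1).coprod (act ψ a2) (v1, v2) = 0
  rw [← map_smul, h3, map_add, k0 f _ _ ha hf, k1 f _ _ ha φ h2, hDf, zero_mul, add_zero]

end ring

end Pool.Agent.Lib.MP_9e3d42_al.CT
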