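import Mathlib

/-! The determinant divisibility away from the closed point. -/

open Matrix

namespace Pool.Agent.Lib.MP_9e3d42_al.CT

variable {S S' A : Type*} [CommRing S] [CommRing S'] [CommRing A] {L J K n : Type*} [Fintype L]
  [Fintype J] [DecidableEq J]

/-- Admissible multipliers. -/
def Adm (I : Ideal S) (dy dz : Matrix L L S) (mt : Matrix J L S) : Ideal S where
  carrier := {μ | ∃ π : Matrix L J S, (∀ i j, (dy * π) i j ∈ I) ∧ (∀ i j, (dz * π) i j ∈ I) ∧
    ∀ i j, (mt * π - μ • (1 : Matrix J J S)) i j ∈ I}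
  zero_mem' := ⟨0, by simp, by simp, by simp⟩
  add_mem' := fun {a b} ⟨π, h1, h2, h3⟩ ⟨π', k1, k2, k3⟩ => ⟨π + π',
    fun i j => by rw [Matrix.mul_add]; exact add_mem (h1 i j) (k1 i j),
    fun i j => by rw [Matrix.mul_add]; exact add_mem (h2 i j) (k2 i j),
    fun i j => by
      rw [Matrix.mul_add, add_smul, add_sub_add_comm]; exact add_mem (h3 i j) (k3 i j)⟩
  smul_mem' := fun c a ⟨π, h1, h2, h3⟩ => ⟨c • π,
    fun i j => by rw [Matrix.mul_smul]; exact I.mul_mem_left c (h1 i j),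
    fun i j => by rw [Matrix.mul_smul]; exact I.mul_mem_left c (h2 i j),
    fun i j => by
      rw [Matrix.mul_smul, smul_assoc, ← smul_sub]; exact I.mul_mem_left c (h3 i j)⟩

variable {I I' : Ideal S} {dy dz : Matrix L L S} {mt : Matrix J L S} {μ w f g : S}

omit [Fintype J] in
lemma le_adm : I ≤ Adm I dy dz mt := fun μ h => ⟨0, by simp, by simp, fun i j => by
  simpa using I.mul_mem_right _ h⟩

omit [Fintype J] in
lemma adm_mul (hw : ∀ a ∈ I, w * a ∈ I') (h : μ ∈ Adm I dy dz mt) : w * μ ∈ Adm I' dy dz mt := by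
  obtain ⟨π, h1, h2, h3⟩ := h
  refine ⟨w • π, fun i j => ?_, fun i j => ?_, fun i j => ?_⟩
  · rw [Matrix.mul_smul]; exact hw _ (h1 i j)
  · rw [Matrix.mul_smul]; exact hw _ (h2 i j)
  · rw [Matrix.mul_smul, mul_smul, ← smul_sub]; exact hw _ (h3 i j)

omit [Fintype J] in
lemma adm_map (θ : S →+* S') (h : μ ∈ Adm I dy dz mt) :
    θ μ ∈ Adm (I.map θ) (dy.map θ) (dz.map θ) (mt.map θ) := by
  obtain ⟨π, h1, h2, h3⟩ := h
  refine ⟨π.map θ, fun i j => ?_, fun i j => ?_, fun i j => ?_⟩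
  · rw [← Matrix.map_mul]; exact Ideal.mem_map_of_mem θ (h1 i j)
  · rw [← Matrix.map_mul]; exact Ideal.mem_map_of_mem θ (h2 i j)
  · rw [← Matrix.map_mul]
    convert Ideal.mem_map_of_mem θ (h3 i j)
    simp [Matrix.one_apply, apply_ite θ, -Matrix.map_mul]

variable [Fintype n] [DecidableEq n]

/-- A matrix of ring elements as a block matrix. -/
def flat (ψ : S →+* Matrix n n A) (M : Matrix L K S) : Matrix (L × n) (K × n) A :=
  (M.map ψ).comp L K n n A

variable (ψ : S →+* Matrix n n A)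

omit [Fintype L] in
lemma flat_apply (M : Matrix L K S) (p : L × n) (q : K × n) :
    flat ψ M p q = ψ (M p.1 q.1) p.2 q.2 := rfl

omit [Fintype L] [DecidableEq J] in
lemma flat_mul (M : Matrix L J S) (N : Matrix J K S) : flat ψ (M * N) = flat ψ M * flat ψ N := by
  ext p q
  simp only [flat_apply, Matrix.mul_apply, map_sum, map_mul, Fintype.sum_prod_type,
    Matrix.sum_apply]

omit [Fintype L] in
lemma flat_sub (M N : Matrix L K S) : flat ψ (M - N) = flat ψ M - flat ψ N := by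
  ext p q
  simp [flat_apply]

lemma det_flat_scalar (g : S) :
    (flat ψ (g • (1 : Matrix J J S))).det = (ψ g).det ^ Fintype.card J := by
  rw [flat, ← Matrix.det_det, det_smul, det_one, mul_one, map_pow, det_pow]

omit [Fintype L] in
lemma exists_flat (hf : ψ f = 0) {N : Matrix L J S} (h : ∀ i j, N i j ∈ Ideal.span {f, g}) :
    ∃ B : Matrix (L × n) (J × n) A, flat ψ N = B * flat ψ (g • (1 : Matrix J J S)) := by
  choose α β e using fun i j => Ideal.mem_span_pair.1 (h i j)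
  refine ⟨flat ψ (of β), ?_⟩
  rw [← flat_mul]
  ext p q
  simp [flat_apply, ← e, hf, mul_comm g]

theorem e1 [DecidableEq L] (hf : ψ f = 0) (h : μ ∈ Adm (Ideal.span {f, g}) dy dz mt)
    (P1 P2 : Matrix (L × n) (L × n) A) :
    (ψ g).det ^ Fintype.card J ∣
      (P1 * flat ψ dy + P2 * flat ψ dz).det * (ψ μ).det ^ Fintype.card J := by
  obtain ⟨π, h1, h2, h3⟩ := h
  obtain ⟨B1, e1⟩ := exists_flat ψ hf h1
  obtain ⟨B2, e2⟩ := exists_flat ψ hf h2
  obtain ⟨B3, e3⟩ := exists_flat ψ hf h3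
  rw [flat_mul] at e1 e2
  rw [flat_sub, flat_mul] at e3
  have key : fromBlocks (P1 * flat ψ dy + P2 * flat ψ dz) 0 (-flat ψ mt)
      (flat ψ (μ • (1 : Matrix J J S))) * fromBlocks 1 (flat ψ π) 0 1 =
      fromBlocks (P1 * flat ψ dy + P2 * flat ψ dz) (P1 * B1 + P2 * B2) (-flat ψ mt) (-B3) *
        fromBlocks 1 0 0 (flat ψ (g • (1 : Matrix J J S))) := by
    simp only [fromBlocks_multiply, Matrix.mul_one, Matrix.mul_zero, add_zero,
      zero_add, Matrix.add_mul, Matrix.mul_assoc, e1, e2, Matrix.neg_mul, ← e3]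
    congr 1
    abel
  have h4 := congrArg det key
  simp only [det_mul, det_fromBlocks_zero₁₂, det_fromBlocks_zero₂₁, det_one, one_mul, mul_one,
    det_flat_scalar] at h4
  exact ⟨_, h4.trans (mul_comm _ _)⟩

end Pool.Agent.Lib.MP_9e3d42_al.CT
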