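import Mathlib

/-! Commuting pairs, twisted derivations, Bezout operators and the Higman criterion. -/

open scoped TensorProduct
open MvPolynomial

namespace Pool.Agent.Lib.MP_9e3d42_al.CT

section ev

variable {O : Type*} [CommRing O]

open scoped IsMulCommutative in
lemma exists_ev {A : Type*} [Ring A] [Algebra O A] (Y Z : A) (h : Commute Y Z) :
    ∃ ψ : MvPolynomial (Fin 2) O →ₐ[O] A, ψ (X 0) = Y ∧ ψ (X 1) = Z := by
  have : IsMulCommutative (Algebra.adjoin O ({Y, Z} : Set A)) :=
    Algebra.isMulCommutative_adjoin O (by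
      rintro a (rfl | rfl) b (rfl | rfl)
      exacts [rfl, h.eq, h.eq.symm, rfl])
  let v : Fin 2 → Algebra.adjoin O ({Y, Z} : Set A) :=
    ![⟨Y, Algebra.subset_adjoin (by simp)⟩, ⟨Z, Algebra.subset_adjoin (by simp)⟩]
  exact ⟨(Subalgebra.val _).comp (aeval v), by simp [v], by simp [v]⟩

end ev

section der

variable {O P W : Type*} [CommRing O] [CommRing P] [Algebra O P] [Ring W] [Algebra O W]

/-- A derivation along `ψ`. -/
def IsDer (ψ : P →ₐ[O] W) (D : P →ₗ[O] W) : Prop := ∀ p q, D (p * q) = ψ p * D q + D p * ψ q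

/-- The two-sided action. -/
noncomputable def act (ψ : P →ₐ[O] W) : P ⊗[O] P →ₐ[O] Module.End O W :=
  (AlgHom.mulLeftRight O W).comp (Algebra.TensorProduct.map ψ
    (ψ.toOpposite fun a b => (Commute.all a b).map ψ))

@[simp] lemma act_tmul (ψ : P →ₐ[O] W) (a b : P) (w : W) :
    act ψ (a ⊗ₜ b) w = ψ a * w * ψ b := by
  simp [act, AlgHom.mulLeftRight_apply]

/-- The universal difference. -/
noncomputable def dif (O : Type*) [CommRing O] [Algebra O P] (p : P) : P ⊗[O] P := p ⊗ₜ 1 - 1 ⊗ₜ p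

variable {ψ : P →ₐ[O] W} {u v D : P →ₗ[O] W}

lemma act_dif (p : P) (w : W) : act ψ (dif O p) w = ψ p * w - w * ψ p := by
  simp [dif]

lemma act_mul_right (τ : P ⊗[O] P) (w φ : W) (h : ∀ p, Commute (ψ p) φ) :
    act ψ τ (w * φ) = act ψ τ w * φ := by
  induction τ with
  | zero => simp
  | tmul a b => simp only [act_tmul, mul_assoc, (h b).eq]
  | add a b ha hb => simp [ha, hb, add_mul]

lemma IsDer.one (h : IsDer ψ D) : D 1 = 0 := by
  have := h 1 1
  simpa using this

/-- The right linear extension of a derivation. -/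
noncomputable def ext2 (ψ : P →ₐ[O] W) (D : P →ₗ[O] W) : P ⊗[O] P →ₗ[O] W :=
  LinearMap.mul' O W ∘ₗ TensorProduct.map D ψ.toLinearMap

@[simp] lemma ext2_tmul (a b : P) : ext2 ψ D (a ⊗ₜ b) = D a * ψ b := by simp [ext2]

lemma IsDer.ext2_mul (h : IsDer ψ D) (τ : P ⊗[O] P) (p : P) :
    ext2 ψ D (τ * dif O p) = act ψ τ (D p) := by
  induction τ with
  | zero => simp
  | tmul a b =>
    simp only [dif, mul_sub, Algebra.TensorProduct.tmul_mul_tmul, map_sub, ext2_tmul, h a p,
      mul_one, act_tmul, mul_comm b p, map_mul]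
    noncomm_ring
  | add a b ha hb => simp [ha, hb, add_mul]

lemma IsDer.eq_act (h : IsDer ψ D) {p y z : P} {a b : P ⊗[O] P}
    (hp : dif O p = a * dif O y + b * dif O z) : D p = act ψ a (D y) + act ψ b (D z) := by
  rw [← h.ext2_mul, ← h.ext2_mul, ← map_add, ← hp]
  simp [dif, h.one]

lemma isDer_inner (φ : W) : IsDer ψ (LinearMap.mulRight O φ ∘ₗ ψ.toLinearMap -
    LinearMap.mulLeft O φ ∘ₗ ψ.toLinearMap) := fun p q => by
  simp only [LinearMap.sub_apply, LinearMap.comp_apply, AlgHom.toLinearMap_apply, map_mul,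
    LinearMap.mulRight_apply, LinearMap.mulLeft_apply]
  noncomm_ring

lemma IsDer.mul_right (h : IsDer ψ D) {φ : W} (hφ : ∀ p, Commute (ψ p) φ) :
    IsDer ψ (LinearMap.mulRight O φ ∘ₗ D) := fun p q => by
  simp only [LinearMap.comp_apply, LinearMap.mulRight_apply, h p q, add_mul, mul_assoc,
    (hφ q).eq]

lemma IsDer.cocycle (h : IsDer ψ D) (p q : P) :
    ψ p * D q - D q * ψ p = ψ q * D p - D p * ψ q := by
  have h1 := h p q
  rw [mul_comm p q, h q p] at h1
  linear_combination (norm := abel) -h1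

theorem higman_id (hu : IsDer ψ u) (hv : IsDer ψ v) {f g y z : P} {a1 a2 b1 b2 : P ⊗[O] P}
    (hf : dif O f = a1 * dif O y + a2 * dif O z) (hg : dif O g = b1 * dif O y + b2 * dif O z)
    (hf0 : ψ f = 0) (hg0 : ψ g = 0) :
    act ψ (a1 * b2 - a2 * b1) (u y * v z - u z * v y) = u f * v g - u g * v f := by
  let j : P ⊗[O] P →ₐ[O] P ⊗[O] (P ⊗[O] P) :=
    Algebra.TensorProduct.map (AlgHom.id O P) Algebra.TensorProduct.includeRight
  let m01 : P ⊗[O] (P ⊗[O] P) →ₐ[O] P ⊗[O] P :=
    Algebra.TensorProduct.lift Algebra.TensorProduct.includeLeft (AlgHom.id O _)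
      fun _ _ => .all _ _
  let m12 : P ⊗[O] (P ⊗[O] P) →ₐ[O] P ⊗[O] P :=
    Algebra.TensorProduct.map (AlgHom.id O P) (Algebra.TensorProduct.lmul' O)
  let c : P ⊗[O] (P ⊗[O] P) →ₗ[O] W := LinearMap.mul' O W ∘ₗ TensorProduct.map u (ext2 ψ v)
  let c' : P ⊗[O] (P ⊗[O] P) →ₗ[O] W :=
    LinearMap.mul' O W ∘ₗ TensorProduct.map ψ.toLinearMap (ext2 ψ v)
  have k1 : ∀ ξ, c' ξ = ext2 ψ v (m01 ξ) - ext2 ψ v (m12 ξ) := fun ξ => by
    induction ξ with
    | zero => simp
    | add a b ha hb => simp only [map_add, ha, hb]; abel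
    | tmul p τ =>
      induction τ with
      | zero => simp
      | add a b ha hb => simp only [TensorProduct.tmul_add, map_add, ha, hb]; abel
      | tmul s q =>
        simp only [c', m01, m12, LinearMap.comp_apply, TensorProduct.map_tmul,
          AlgHom.toLinearMap_apply, ext2_tmul, LinearMap.mul'_apply,
          Algebra.TensorProduct.lift_tmul, Algebra.TensorProduct.includeLeft_apply,
          AlgHom.id_apply, Algebra.TensorProduct.tmul_mul_tmul, one_mul,
          Algebra.TensorProduct.map_tmul, Algebra.TensorProduct.lmul'_apply_tmul, hv p s, map_mul]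
        noncomm_ring
  have k2 : ∀ a b ξ, c (j (a ⊗ₜ b) * ξ) = ψ a * c ξ * ψ b + u a * c' ξ * ψ b := fun a b ξ => by
    induction ξ with
    | zero => simp
    | add a b ha hb => simp only [mul_add, add_mul, map_add, ha, hb]; abel
    | tmul p τ =>
      induction τ with
      | zero => simp
      | add a b ha hb =>
        simp only [TensorProduct.tmul_add, mul_add, add_mul, map_add, ha, hb]; abel
      | tmul s q =>
        simp only [c, c', j, LinearMap.comp_apply, TensorProduct.map_tmul,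
          AlgHom.toLinearMap_apply, ext2_tmul, LinearMap.mul'_apply,
          Algebra.TensorProduct.includeRight_apply,
          AlgHom.id_apply, Algebra.TensorProduct.tmul_mul_tmul, one_mul,
          Algebra.TensorProduct.map_tmul, hu a p, mul_comm b q, map_mul]
        noncomm_ring
  have k3 : ∀ ξ, m01 ξ = 0 → m12 ξ = 0 → ∀ τ, c (j τ * ξ) = act ψ τ (c ξ) := fun ξ h1 h2 τ => by
    induction τ with
    | zero => simp
    | add a b ha hb => simp only [map_add, add_mul, ha, hb, LinearMap.add_apply]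
    | tmul a b => rw [k2, k1, h1, h2]; simp
  let i0 : P → P ⊗[O] (P ⊗[O] P) := fun p => p ⊗ₜ (1 ⊗ₜ 1)
  let i1 : P → P ⊗[O] (P ⊗[O] P) := fun p => 1 ⊗ₜ (p ⊗ₜ 1)
  let i2 : P → P ⊗[O] (P ⊗[O] P) := fun p => 1 ⊗ₜ (1 ⊗ₜ p)
  let A : P → P → P ⊗[O] (P ⊗[O] P) := fun p q =>
    (i0 p - i1 p) * (i1 q - i2 q) - (i0 q - i1 q) * (i1 p - i2 p)
  have hA : ∀ p q, c (A p q) = u p * v q - u q * v p := fun p q => by
    simp [A, i0, i1, i2, c, mul_sub, sub_mul, hu.one, hv.one]
  have e01 : ∀ p, m01 (i0 p - i1 p) = 0 := fun p => by simp [m01, i0, i1]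
  have e12 : ∀ p, m12 (i1 p - i2 p) = 0 := fun p => by simp [m12, i1, i2]
  have e01' : ∀ p, m01 (i1 p - i2 p) = dif O p := fun p => by simp [m01, i1, i2, dif]
  have ej : ∀ τ, m01 (j τ) = τ := fun τ => by
    induction τ with
    | zero => simp
    | add a b ha hb => simp only [map_add, ha, hb]
    | tmul a b => simp [m01, j]
  have ejd : ∀ p, j (dif O p) = i0 p - i2 p := fun p => by
    simp [j, dif, i0, i2]
  let ξ : P → P ⊗[O] P → P ⊗[O] P → P ⊗[O] (P ⊗[O] P) := fun p a b =>
    (i1 p - i2 p) - (j a * (i1 y - i2 y) + j b * (i1 z - i2 z))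
  have x1 : ∀ p a b, dif O p = a * dif O y + b * dif O z → ∀ τ,
      c (j τ * ξ p a b) = act ψ τ (c (ξ p a b)) := fun p a b h =>
    k3 _ (by simp only [ξ, map_sub m01 (i1 p - i2 p), map_add, map_mul, e01', ej, h, sub_self])
      (by simp only [ξ, map_sub m12 (i1 p - i2 p), map_add, map_mul, e12]; simp)
  have hf' := congrArg j hf
  have hg' := congrArg j hg
  have key : A f g = j (dif O f) * ξ g b1 b2 - j (dif O g) * ξ f a1 a2 +
      j (a1 * b2 - a2 * b1) * A y z := by
    simp only [map_add, map_mul, map_sub j (a1 * b2), ejd] at hf' hg' ⊢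
    simp only [A, ξ]
    linear_combination (j b1 * (i1 y - i2 y) + j b2 * (i1 z - i2 z)) * hf' -
      (j a1 * (i1 y - i2 y) + j a2 * (i1 z - i2 z)) * hg'
  rw [← hA, ← hA, key, map_add, map_sub c (j _ * _), x1 _ _ _ hg, x1 _ _ _ hf, act_dif, act_dif, hf0, hg0,
    k3 _ (by simp only [A, map_sub m01 (_ * _), map_mul, e01]; simp)
      (by simp only [A, map_sub m12 (_ * _), map_mul, e12]; simp)]
  simp

end der

section poly

variable {O W : Type*} [CommRing O] [Ring W] [Algebra O W]

lemma exists_bezout (p : MvPolynomial (Fin 2) O) :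
    ∃ a b, dif O p = a * dif O (X 0 : MvPolynomial (Fin 2) O) + b * dif O (X 1) := by
  rw [← exists_congr fun a => exists_congr fun b => eq_comm, ← Ideal.mem_span_pair]
  induction p using MvPolynomial.induction_on with
  | C r =>
    have : dif O (C r : MvPolynomial (Fin 2) O) = 0 := by
      rw [dif, ← algebraMap_eq, Algebra.algebraMap_eq_smul_one, TensorProduct.smul_tmul, sub_self]
    rw [this]
    exact zero_mem _
  | add p q hp hq =>
    have : dif O (p + q) = dif O p + dif O q := by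
      simp only [dif, TensorProduct.add_tmul, TensorProduct.tmul_add]; ring
    exact this ▸ add_mem hp hq
  | mul_X p i hp =>
    have : dif O (p * X i) = dif O p * (X i ⊗ₜ 1) + (1 ⊗ₜ p) * dif O (X i) := by
      simp only [dif, sub_mul, mul_sub, Algebra.TensorProduct.tmul_mul_tmul, one_mul, mul_one]
      ring
    rw [this]
    refine add_mem (Ideal.mul_mem_right _ _ hp) (Ideal.mul_mem_left _ _ (Ideal.subset_span ?_))
    fin_cases i <;> simp

lemma exists_der (ψ : MvPolynomial (Fin 2) O →ₐ[O] W) (v1 v2 : W)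
    (h : ψ (X 0) * v2 - v2 * ψ (X 0) = ψ (X 1) * v1 - v1 * ψ (X 1)) :
    ∃ D, IsDer ψ D ∧ D (X 0) = v1 ∧ D (X 1) = v2 := by
  obtain ⟨θ, h0, h1⟩ := exists_ev (O := O) (A := TrivSqZeroExt W W) (ψ (X 0), v1) (ψ (X 1), v2) (by
    refine TrivSqZeroExt.ext ?_ ?_
    · simpa using ((Commute.all (X 0) (X 1)).map ψ).eq
    · simp only [TrivSqZeroExt.snd_mul, TrivSqZeroExt.fst_mk, TrivSqZeroExt.snd_mk, smul_eq_mul,
        op_smul_eq_mul]
      linear_combination (norm := abel) h)
  have h2 : (TrivSqZeroExt.fstHom O W W).comp θ = ψ := by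
    ext i
    fin_cases i
    · simp [h0]
    · simp [h1]
  have h3 : ∀ p, (θ p).fst = ψ p := fun p => AlgHom.congr_fun h2 p
  refine ⟨(TrivSqZeroExt.sndHom W W).restrictScalars O ∘ₗ θ.toLinearMap, fun p q => ?_, ?_, ?_⟩
  · simp [h3]
  · simp [h0]
  · simp [h1]

lemma commute_of_X (ψ : MvPolynomial (Fin 2) O →ₐ[O] W) {φ : W} (h0 : Commute (ψ (X 0)) φ)
    (h1 : Commute (ψ (X 1)) φ) (p : MvPolynomial (Fin 2) O) : Commute (ψ p) φ := by
  induction p using MvPolynomial.induction_on with
  | C r => rw [algHom_C]; exact Algebra.commutes _ _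
  | add p q hp hq => rw [map_add]; exact hp.add_left hq
  | mul_X p i hp =>
    rw [map_mul]
    refine hp.mul_left ?_
    fin_cases i
    exacts [h0, h1]

end poly

section higman

variable {O R M : Type*} [CommRing O] [CommRing R] [Algebra O R] [AddCommGroup M] [Module O M]
  [Module R M] [IsScalarTower O R M]

theorem higman [Module.Free O M] (π : MvPolynomial (Fin 2) O →ₐ[O] R) (hπ : Function.Surjective π)
    {f g : MvPolynomial (Fin 2) O} (hf0 : π f = 0) (hg0 : π g = 0)
    {u v : MvPolynomial (Fin 2) O →ₗ[O] Module.End O M}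
    (hu : IsDer ((Algebra.lsmul O O M).comp π) u) (hv : IsDer ((Algebra.lsmul O O M).comp π) v)
    (h : u f * v g - u g * v f = 1) : Module.Projective R M := by
  obtain ⟨a1, a2, hf⟩ := exists_bezout f
  obtain ⟨b1, b2, hg⟩ := exists_bezout g
  have key := higman_id hu hv hf hg (by simp [hf0]) (by simp [hg0])
  rw [h] at key
  set t := u (X 0) * v (X 1) - u (X 1) * v (X 0)
  let S : MvPolynomial (Fin 2) O ⊗[O] MvPolynomial (Fin 2) O →ₗ[O] M →ₗ[O] R ⊗[O] M :=
    TensorProduct.lift (LinearMap.mk₂ O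
      (fun p q => TensorProduct.mk O R M (π p) ∘ₗ t ∘ₗ Algebra.lsmul O O M (π q))
      (fun _ _ _ => by ext; simp)
      (fun _ _ _ => by ext; simp [TensorProduct.smul_tmul'])
      (fun _ _ _ => by ext; simp [TensorProduct.tmul_add])
      (fun _ _ _ => by ext; simp))
  have hS : ∀ p q m, S (p ⊗ₜ q) m = π p ⊗ₜ t (π q • m) := fun p q m => by simp [S]
  have l1 : ∀ p τ m, S ((p ⊗ₜ 1) * τ) m = π p • S τ m := fun p τ m => by
    induction τ with
    | zero => simp
    | add a b ha hb => simp only [mul_add, map_add, LinearMap.add_apply, ha, hb, smul_add]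
    | tmul a b => simp [hS, TensorProduct.smul_tmul']
  have l2 : ∀ p τ m, S ((1 ⊗ₜ p) * τ) m = S τ (π p • m) := fun p τ m => by
    induction τ with
    | zero => simp
    | add a b ha hb => simp only [mul_add, map_add, LinearMap.add_apply, ha, hb]
    | tmul a b => simp [hS, smul_smul, mul_comm]
  have l3 : ∀ p τ m, S (dif O p * τ) m = π p • S τ m - S τ (π p • m) := fun p τ m => by
    rw [dif, sub_mul, map_sub, LinearMap.sub_apply, l1, l2]
  have l4 : ∀ i m, π (X i) • S (a1 * b2 - a2 * b1) m = S (a1 * b2 - a2 * b1) (π (X i) • m) := by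
    intro i m
    have : ∃ α β, dif O (X i) * (a1 * b2 - a2 * b1) = dif O f * α + dif O g * β := by
      fin_cases i
      · exact ⟨b2, -a2, by rw [hf, hg]; simp only [Fin.zero_eta]; ring⟩
      · exact ⟨-b1, a1, by rw [hf, hg]; simp only [Fin.mk_one]; ring⟩
    obtain ⟨α, β, e⟩ := this
    rw [← sub_eq_zero, ← l3, e, map_add, LinearMap.add_apply, l3, l3, hf0, hg0]
    simp
  have l5 : ∀ p m, S (a1 * b2 - a2 * b1) (π p • m) = π p • S (a1 * b2 - a2 * b1) m := by
    intro p
    induction p using MvPolynomial.induction_on with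
    | C r => intro m; simp
    | add p q hp hq => intro m; simp only [map_add, add_smul, hp, hq]
    | mul_X p i hp => intro m; rw [map_mul, mul_smul, hp, ← l4, mul_smul]
  let σ : M →ₗ[R] R ⊗[O] M :=
    { toFun := S (a1 * b2 - a2 * b1)
      map_add' := map_add _
      map_smul' := fun a m => by
        obtain ⟨p, rfl⟩ := hπ a
        exact l5 p m }
  let μ : R ⊗[O] M →ₗ[R] M := (LinearMap.id : M →ₗ[O] M).liftBaseChange R
  have l6 : ∀ τ m, μ (S τ m) = act ((Algebra.lsmul O O M).comp π) τ t m := fun τ m => by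
    induction τ with
    | zero => simp
    | add a b ha hb => simp only [map_add, LinearMap.add_apply, ha, hb]
    | tmul a b => simp [hS, μ]
  refine Module.Projective.of_split σ μ (LinearMap.ext fun m => ?_)
  exact (l6 _ m).trans (by rw [key]; rfl)

end higman

end Pool.Agent.Lib.MP_9e3d42_al.CT
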