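import Pool.Agent.Lib.MP_9e3d42_al.CT.ZM
import Pool.Agent.Lib.MP_9e3d42_al.CT.E1
import Pool.Agent.Lib.MP_9e3d42_al.CT.Ev

/-! The determinant inequality on the surface. -/

open Matrix MvPolynomial IsLocalRing

namespace Pool.Agent.Lib.MP_9e3d42_al.CT

variable {n m J : Type*} [Fintype n] [DecidableEq n] [Fintype m] [DecidableEq m] [Fintype J]
  [DecidableEq J]

lemma exists_lift {O A : Type*} [CommRing O] [CommRing A] [Algebra O A] (C : Subalgebra O A)
    (ψ : MvPolynomial (Fin 2) O →ₐ[O] Matrix n n A) (h0 : Ent C (ψ (X 0)))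
    (h1 : Ent C (ψ (X 1))) : ∃ θ : MvPolynomial (Fin 2) O →ₐ[O] Matrix n n C,
      ∀ p, (θ p).map C.val = ψ p := by
  obtain ⟨Y, hY⟩ := h0.lift
  obtain ⟨Z, hZ⟩ := h1.lift
  obtain ⟨θ, e0, e1⟩ := exists_ev (O := O) Y Z (map_injective Subtype.val_injective (by
    change (Y * Z).map C.val = (Z * Y).map C.val
    rw [Matrix.map_mul, Matrix.map_mul, hY, hZ, ← map_mul, mul_comm, map_mul]))
  refine ⟨θ, fun p => AlgHom.congr_fun (φ₁ := C.val.mapMatrix.comp θ) (algHom_ext fun i => ?_) p⟩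
  fin_cases i
  · exact (congrArg (Matrix.map · C.val) e0).trans hY
  · exact (congrArg (Matrix.map · C.val) e1).trans hZ

lemma det_flat_map {O A B S : Type*} [CommRing O] [CommRing A] [CommRing B] [CommRing S]
    [Algebra O A] [Algebra O B] (σ : A →ₐ[O] B) {ψ : S →+* Matrix n n A} {θ : S →+* Matrix n n B}
    (h : ∀ p, (ψ p).map σ = θ p) (P1 P2 : Matrix (m × n) (m × n) O) (dy dz : Matrix m m S) :
    σ (P1.map (algebraMap O A) * flat ψ dy + P2.map (algebraMap O A) * flat ψ dz).det =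
      (P1.map (algebraMap O B) * flat θ dy + P2.map (algebraMap O B) * flat θ dz).det := by
  rw [AlgHom.map_det]
  congr 1
  ext p q
  simp [Matrix.mul_apply, flat_apply, ← h]

theorem ki {O L : Type*} [CommRing O] [IsDomain O] [IsDiscreteValuationRing O] [Field L]
    [Algebra O L] [FaithfulSMul O L] [FaithfulSMul O (PowerSeries L)] {x : O} (hx : Irreducible x)
    {f g w : MvPolynomial (Fin 2) O} (hf : MvPolynomial.map (residue O) f ≠ 0)
    {dy dz : Matrix m m (MvPolynomial (Fin 2) O)} {mt : Matrix J m (MvPolynomial (Fin 2) O)}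
    {c : ℕ} (h1 : w * C x ^ c ∈ Adm (Ideal.span {f, g}) dy dz mt)
    (h2 : ∀ p ∈ Ideal.span {X 0, X 1}, ∃ e : ℕ, w * p ^ e ∈ Adm (Ideal.span {f, g}) dy dz mt)
    (ψ : MvPolynomial (Fin 2) O →ₐ[O] Matrix n n O) (hg : (ψ g).det ≠ 0)
    (hw : IsUnit (ψ w).det) (θ : MvPolynomial (Fin 2) O →ₐ[O] Matrix n n (PowerSeries L))
    (hf0 : θ f = 0)
    (hc : ∀ p, (θ p).map PowerSeries.constantCoeff = (ψ p).map (algebraMap O L))
    (hrk : Fintype.card (n × n) ≤ rk O (ents (θ (X 0)) ∪ ents (θ (X 1))))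
    (P1 P2 : Matrix (m × n) (m × n) O) :
    (ψ g).det ^ Fintype.card J ∣ (P1 * flat ψ.toRingHom dy + P2 * flat ψ.toRingHom dz).det := by
  by_contra hn
  obtain ⟨u0, hu0⟩ := (ValuationRing.dvd_total _ _).resolve_left hn
  have hinj := FaithfulSMul.algebraMap_injective O L
  let κ : PowerSeries L →ₐ[O] L := ⟨PowerSeries.constantCoeff, fun o => by
    simp [PowerSeries.algebraMap_apply]⟩
  have k1 := (det_flat_map κ (ψ := θ.toRingHom)
    (θ := (Algebra.ofId O L).mapMatrix.toRingHom.comp ψ.toRingHom) hc P1 P2 dy dz).trans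
    (det_flat_map (Algebra.ofId O L) (ψ := ψ.toRingHom) (fun _ => rfl) P1 P2 dy dz).symm
  simp only [Algebra.algebraMap_self, RingHom.coe_id, Matrix.map_id, Algebra.ofId_apply] at k1
  generalize (P1 * flat ψ.toRingHom dy + P2 * flat ψ.toRingHom dz).det = D0 at hn hu0 k1
  have k2 : ∀ p, κ (θ p).det = algebraMap O L (ψ p).det := fun p => by
    rw [AlgHom.map_det, RingHom.map_det]; exact congrArg det (hc p)
  have hD0 : algebraMap O L D0 ≠ 0 := (map_ne_zero_iff _ hinj).2 (by
    rintro rfl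
    exact hg (eq_zero_of_pow_eq_zero (hu0.trans (zero_mul _))))
  obtain ⟨u, hu⟩ := (PowerSeries.isUnit_iff_constantCoeff.2 (k1 ▸ Ne.isUnit hD0 : IsUnit (κ _))).dvd
    (a := (θ g).det ^ Fintype.card J)
  have k3 : κ u = algebraMap O L u0 := mul_left_cancel₀ hD0 (by
    rw [← map_mul, ← hu0, map_pow, ← k2, ← map_pow, hu, map_mul, k1])
  let E := ents (θ (X 0)) ∪ ents (θ (X 1))
  let A := Algebra.adjoin O (insert u E)
  have hE : E ⊆ A := (Set.subset_insert _ _).trans Algebra.subset_adjoin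
  have : Algebra.FiniteType O A := Algebra.FiniteType.adjoin_of_finite
    (((Set.finite_range _).union (Set.finite_range _)).insert _)
  have : IsNoetherianRing A := Algebra.FiniteType.isNoetherianRing O A
  obtain ⟨ψA, hA⟩ := exists_lift A θ (fun i j => hE (.inl ⟨(i, j), rfl⟩))
    fun i j => hE (.inr ⟨(i, j), rfl⟩)
  have k4 : A ≤ (⊥ : Subalgebra O L).comap κ := Algebra.adjoin_le (by
    rintro _ (rfl | ⟨p, rfl⟩ | ⟨p, rfl⟩)
    · exact ⟨u0, k3.symm⟩
    · exact ⟨_, (congrFun₂ (hc _) p.1 p.2).symm⟩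
    · exact ⟨_, (congrFun₂ (hc _) p.1 p.2).symm⟩)
  let φ : A →ₐ[O] O := (Algebra.botEquivOfInjective hinj).toAlgHom.comp
    ((κ.comp A.val).codRestrict ⊥ fun a => k4 a.2)
  have hφ : ∀ a, algebraMap O L (φ a) = κ a := fun a =>
    congrArg Subtype.val ((Algebra.botEquivOfInjective hinj).symm_apply_apply _)
  let uA : A := ⟨u, Algebra.subset_adjoin (Set.mem_insert _ _)⟩
  have k5 : ∀ p, A.val (ψA p).det = (θ p).det := fun p => by
    rw [AlgHom.map_det]; exact congrArg det (hA p)
  have k6 := det_flat_map A.val (ψ := ψA.toRingHom) (θ := θ.toRingHom) hA P1 P2 dy dz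
  have k7 : ∀ μ ∈ Adm (Ideal.span {f, g}) dy dz mt, uA ∣ (ψA μ).det ^ Fintype.card J :=
    fun μ hμ => by
      have h3 := e1 ψA.toRingHom (map_injective Subtype.val_injective
        ((hA f).trans (hf0.trans (Matrix.map_zero _ rfl).symm))) hμ
        (P1.map (algebraMap O A)) (P2.map (algebraMap O A))
      generalize (P1.map (algebraMap O A) * flat ψA.toRingHom dy +
        P2.map (algebraMap O A) * flat ψA.toRingHom dz).det = DA at h3 k6
      have h4 : (ψA g).det ^ Fintype.card J = DA * uA := by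
        apply (show Function.Injective A.val from Subtype.val_injective)
        rw [map_pow, k5, hu, map_mul, k6]
        rfl
      refine (mul_dvd_mul_iff_left (a := DA) ?_).1 (h4 ▸ h3)
      rintro rfl
      rw [← k6, map_zero, map_zero] at k1
      exact hD0 k1.symm
  obtain ⟨q, hq, hqp⟩ := Ideal.exists_minimalPrimes_le (I := Ideal.span {uA})
    (J := (maximalIdeal O).comap φ) ((Ideal.span_singleton_le_iff_mem _).2 (by
      change φ uA ∈ nonunits O
      rw [hinj ((hφ uA).trans k3)]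
      exact fun h => hn (hu0 ▸ h.mul_right_dvd.2 dvd_rfl)))
  have := hq.1.1
  let K := AlgebraicClosure q.ResidueField
  let σ : A →ₐ[O] K := IsScalarTower.toAlgHom O A K
  have hσ : RingHom.ker σ.toRingHom = q := by
    ext a
    rw [← Ideal.algebraMap_residueField_eq_zero (I := q),
      ← map_eq_zero_iff _ (algebraMap q.ResidueField K).injective]
    rfl
  let ψK := σ.mapMatrix.comp ψA
  have huq : σ uA = 0 := hσ.ge (hq.1.2 (Ideal.mem_span_singleton_self _))
  have k8 : ∀ p (e : ℕ), w * p ^ e ∈ Adm (Ideal.span {f, g}) dy dz mt → (ψK p).det = 0 :=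
    fun p e h => by
      have h3 := map_dvd σ (k7 _ h)
      rw [huq, zero_dvd_iff, map_pow] at h3
      have h4 := eq_zero_of_pow_eq_zero h3
      rw [map_mul, map_pow, det_mul, det_pow, map_mul, map_pow, mul_eq_zero] at h4
      rcases h4 with h4 | h4
      · refine absurd hw (show (ψ w).det ∈ maximalIdeal O from ?_)
        rw [← hinj ((hφ _).trans ((congrArg κ (k5 w)).trans (k2 w)))]
        exact hqp (hσ.le h4)
      · exact (AlgHom.map_det σ _).symm.trans (eq_zero_of_pow_eq_zero h4)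
  have k9 : algebraMap O K x = 0 := by
    have := k8 _ _ h1
    rw [algHom_C, algebraMap_eq_diagonal, det_diagonal, Finset.prod_eq_zero_iff] at this
    exact this.choose_spec.2
  let ρ : ResidueField O →+* K := Ideal.Quotient.lift _ (algebraMap O K) fun a ha => by
    rw [hx.maximalIdeal_eq, Ideal.mem_span_singleton] at ha
    exact zero_dvd_iff.1 (k9 ▸ map_dvd (algebraMap O K) ha)
  let _ := ρ.toAlgebra
  obtain ⟨v, hv, hy, hz⟩ := joint_ker ψK fun p hp => (h2 p hp).elim (k8 p)
  obtain ⟨ψk, e0, e1⟩ := exists_ev (O := ResidueField O) (ψK (X 0)) (ψK (X 1))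
    ((Commute.all _ _).map ψK)
  have k10 : ψk (MvPolynomial.map (residue O) f) = ψK f :=
    RingHom.congr_fun (f := ψk.toRingHom.comp (MvPolynomial.map (residue O))) (g := ψK.toRingHom)
      (ringHom_ext (fun a => by
        simp only [RingHom.comp_apply, map_C, AlgHom.toRingHom_eq_coe, RingHom.coe_coe, algHom_C]
        rfl) fun i => by fin_cases i <;> simp [e0, e1]) f
  have k11 := e2 ψk hf (k10.trans (by
    change σ.mapMatrix (ψA f) = 0
    rw [show ψA f = 0 from map_injective Subtype.val_injective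
      ((hA f).trans (hf0.trans (Matrix.map_zero _ rfl).symm)), map_zero])) hv (e0 ▸ hy) (e1 ▸ hz)
  rw [e0, e1] at k11
  obtain ⟨I', i1, i2, i3⟩ := exists_basis (R := ResidueField O)
    (ents (ψK (X 0)) ∪ ents (ψK (X 1)))
  obtain ⟨I, rfl, i4⟩ := Set.exists_image_eq_injOn_of_subset_range (f := σ) (i1.trans (by
    rintro _ (⟨p, rfl⟩ | ⟨p, rfl⟩) <;> exact ⟨_, rfl⟩))
  have k12 := lemZ (residue O) residue_surjective σ.toRingHom (fun o => σ.commutes o)
    (hσ ▸ hq) (x := x) (fun e => hx.ne_zero (hinj (by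
      rw [← κ.commutes, ← A.val.commutes, e, map_zero, map_zero, map_zero])))
    ((residue_eq_zero_iff x).2 hx.not_isUnit) I fun ⟨a, ha⟩ => by
      induction ha using Algebra.adjoin_induction with
      | mem a ha =>
        rcases ha with rfl | ⟨p, rfl⟩ | ⟨p, rfl⟩
        · exact huq ▸ zero_mem _
        · exact i3 (.inl ⟨p, congrArg σ (Subtype.ext (congrFun₂ (hA _) p.1 p.2))⟩)
        · exact i3 (.inr ⟨p, congrArg σ (Subtype.ext (congrFun₂ (hA _) p.1 p.2))⟩)
      | algebraMap o => exact (σ.commutes o).symm ▸ algebraMap_mem _ (residue O o)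
      | add a b ha hb h3 h4 => exact (map_add σ ⟨a, ha⟩ ⟨b, hb⟩).symm ▸ add_mem h3 h4
      | mul a b ha hb h3 h4 => exact (map_mul σ ⟨a, ha⟩ ⟨b, hb⟩).symm ▸ mul_mem h3 h4
  have k13 : rk O E ≤ (A.val '' I).encard := (rk_le fun a ha =>
    cl_map A.val Subtype.val_injective subset_rfl (k12 ⟨a, hE ha⟩)).trans
      (Matroid.eRk_le_encard _ _)
  rw [← i2, i4.encard_image] at k11
  have k14 := (add_le_add (hrk.trans (k13.trans (Set.encard_image_le _ _))) le_rfl).trans k11
  exact absurd (by exact_mod_cast k14) (Nat.not_succ_le_self (Fintype.card (n × n)))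

end Pool.Agent.Lib.MP_9e3d42_al.CT
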