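import Pool.Agent.Lib.MP_9e3d42_al.CT.Arc
import Pool.Agent.Lib.MP_9e3d42_al.CT.KI
import Pool.Agent.Lib.MP_9e3d42_al.CT.D

/-! The deformation of the module along the surface and the first order lift. -/

open Matrix MvPolynomial Module IsLocalRing

namespace Pool.Agent.Lib.MP_9e3d42_al.CT

lemma exists_div_algHom {O S W : Type*} [CommRing O] [IsDomain O] [CommRing S] [Ring W]
    [Algebra O S] [Algebra O W] [IsTorsionFree O W] {y : O} (hy : y ≠ 0) (T : S →ₗ[O] W)
    (h1 : T 1 = y • 1) (h2 : ∀ σ τ, T σ * T τ = y • T (σ * τ)) (h3 : ∀ σ, ∃ φ, y • φ = T σ) :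
    ∃ ψ : S →ₐ[O] W, ∀ σ, y • ψ σ = T σ := by
  choose ψ h using h3
  have i := smul_right_injective W hy
  exact ⟨.ofLinearMap ⟨⟨ψ, fun a b => i (by simp only [smul_add, h, map_add])⟩,
    fun a b => i (by simp only [smul_comm y, h, map_smul, RingHom.id_apply])⟩ (i ((h 1).trans h1))
    fun a b => i (i (by
      change y • y • ψ (a * b) = y • y • (ψ a * ψ b)
      rw [h, ← h2, ← h, ← h, smul_mul_assoc, mul_smul_comm])), h⟩

section fam

variable {O S R J : Type*} [CommRing O] [CommRing S] [Algebra O S] [AddCommGroup R] [Module O R]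
  {H : R →ₗ[O] S} {G : S} {s : J → O} {c : J → S →ₗ[O] R} {κ : J → S →ₗ[O] S}

lemma fam_prod (d : ∀ j, Dv H (G - s j • 1) (c j) (κ j)) (T : Finset J) (j : J) (σ : S) :
    c j ((∏ l ∈ T, (G - s l • 1)) * σ) = (∏ l ∈ T, (s j - s l)) • c j σ := by
  classical
  induction T using Finset.induction_on with
  | empty => simp
  | insert l T hl ih =>
    rw [Finset.prod_insert hl, Finset.prod_insert hl, mul_smul, ← ih, mul_assoc,
      show G - s l • 1 = G - s j • 1 + (s j - s l) • 1 by module, add_mul, map_add, (d j).cG,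
      zero_add, smul_one_mul, map_smul]

lemma fam_ker [IsDomain O] [IsTorsionFree O R] (d : ∀ j, Dv H (G - s j • 1) (c j) (κ j))
    (hs : Function.Injective s) (T : Finset J) {σ : S} (h : ∀ j ∈ T, c j σ = 0) :
    ∏ l ∈ T, (G - s l • 1) ∣ σ := by
  classical
  induction T using Finset.induction_on with
  | empty => simp
  | insert l T hl ih =>
    obtain ⟨τ, rfl⟩ := ih fun j hj => h j (Finset.mem_insert_of_mem hj)
    have h1 := h l (Finset.mem_insert_self l T)
    rw [fam_prod d, smul_eq_zero_iff_right (Finset.prod_ne_zero_iff.2 fun j hj e =>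
      hl ((show l = j from hs (sub_eq_zero.1 e)) ▸ hj))] at h1
    have h2 := (d l).eq τ
    rw [h1, map_zero, zero_add] at h2
    rw [Finset.prod_insert hl, mul_comm]
    exact mul_dvd_mul_left _ ⟨_, h2.symm⟩

lemma fam_onto [Fintype J] [DecidableEq J] (d : ∀ j, Dv H (G - s j • 1) (c j) (κ j)) (a : J → R)
    (i : J) : c i (∑ j, (∏ l ∈ Finset.univ.erase j, ∏ m ∈ Finset.univ.erase l, (s l - s m)) •
      ((∏ l ∈ Finset.univ.erase j, (G - s l • 1)) * H (a j))) =
      (∏ l, ∏ m ∈ Finset.univ.erase l, (s l - s m)) • a i := by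
  rw [map_sum, Finset.sum_eq_single i _ (by simp), map_smul, fam_prod d, (d i).cH, smul_smul,
    Finset.prod_erase_mul _ _ (Finset.mem_univ i)]
  intro j _ hj
  rw [map_smul, fam_prod d, Finset.prod_eq_zero (i := i) (f := fun l => s i - s l)
    (Finset.mem_erase.2 ⟨hj.symm, Finset.mem_univ i⟩) (sub_self _), zero_smul, smul_zero]

end fam

variable {O M n : Type*} [CommRing O] [AddCommGroup M] [Module O M] [Fintype n] [DecidableEq n]

/-- The presentation matrix of the dual. -/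
noncomputable def pres (b : Basis n O M) (i : Fin 2) (y : End O M) :
    Matrix n n (MvPolynomial (Fin 2) O) :=
  (X i : MvPolynomial (Fin 2) O) • 1 - (LinearMap.toMatrix b b y)ᵀ.map C

lemma det_conv (b : Basis n O M) (ψ : MvPolynomial (Fin 2) O →ₐ[O] End O M) (y z : End O M)
    (P1 P2 : End O M →ₗ[O] End O M) : ∃ Q1 Q2 : Matrix (n × n) (n × n) O,
      LinearMap.det (P1 ∘ₗ ad O (ψ (X 0)) y + P2 ∘ₗ ad O (ψ (X 1)) z) =
      (Q1 * flat ((LinearMap.toMatrixAlgEquiv b).toAlgHom.comp ψ).toRingHom (pres b 0 y) +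
        Q2 * flat ((LinearMap.toMatrixAlgEquiv b).toAlgHom.comp ψ).toRingHom (pres b 1 z)).det := by
  let β := Basis.ofEquivFun (LinearMap.toMatrix b b ≪≫ₗ transposeLinearEquiv n n O O ≪≫ₗ
    (ofLinearEquiv O).symm ≪≫ₗ (LinearEquiv.curry O O n n).symm)
  have h : ∀ i y, LinearMap.toMatrix β β (ad O (ψ (X i)) y) =
      flat ((LinearMap.toMatrixAlgEquiv b).toAlgHom.comp ψ).toRingHom (pres b i y) := by
    intro i y
    have e : ∀ φ p, β.repr φ p = LinearMap.toMatrix b b φ p.2 p.1 := fun φ p => rfl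
    refine ext_iff_mulVec.2 fun v => ?_
    obtain ⟨φ, rfl⟩ := β.equivFun.surjective v
    rw [β.equivFun_apply, LinearMap.toMatrix_mulVec_repr]
    ext ⟨l, k⟩
    have e1 : ∀ (p : Prop) [Decidable p] (A : Matrix n n O) i j,
        (if p then A else 0) i j = if p then A i j else 0 := fun p _ A i j => by
      split_ifs <;> rfl
    simp [e, mulVec, dotProduct, flat_apply, pres, Matrix.one_apply, Fintype.sum_prod_type,
      LinearMap.toMatrix_mul, Matrix.mul_apply, mul_sub, apply_ite ψ, e1,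
      apply_ite (LinearMap.toMatrixAlgEquiv b), Matrix.algebraMap_matrix_apply, mul_comm]
    exact Finset.sum_congr rfl fun _ _ => mul_comm _ _
  exact ⟨_, _, by rw [← LinearMap.det_toMatrix β, map_add, LinearMap.toMatrix_comp β β β,
    LinearMap.toMatrix_comp β β β, h, h]⟩

section half

variable {R J : Type*} [CommRing R] [Algebra O R] [Module R M] [IsScalarTower O R M]

/-- Transport of endomorphisms along an isogeny. -/
def tr (ι : (J → R) →ₗ[R] M) (ρ : M →ₗ[R] J → R) : (J → End O R) →ₗ[O] End O M where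
  toFun e := ι.restrictScalars O ∘ₗ LinearMap.piMap e ∘ₗ ρ.restrictScalars O
  map_add' a b := LinearMap.ext fun m => by
    rw [LinearMap.add_apply]
    exact (congrArg ι (by ext; simp)).trans (map_add ι _ _)
  map_smul' a b := LinearMap.ext fun m => by
    rw [LinearMap.smul_apply]
    exact (congrArg ι (by ext; simp)).trans (ι.map_smul_of_tower _ _)

lemma tr_apply (ι : (J → R) →ₗ[R] M) (ρ : M →ₗ[R] J → R) (e : J → End O R) (m : M) :
    tr ι ρ e m = ι fun j => e j (ρ m j) := rfl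

lemma adm_pres [Fintype J] [DecidableEq J] (b : Basis n O M) {π : MvPolynomial (Fin 2) O →ₐ[O] R}
    (hπ : Function.Surjective π) (ι : (J → R) →ₗ[R] M) (ρ : M →ₗ[R] J → R) {y : O}
    (h2 : ∀ a, ρ (ι a) = y • a) :
    C y ∈ Adm (RingHom.ker π) (pres b 0 (Algebra.lsmul O O M (π (X 0))))
      (pres b 1 (Algebra.lsmul O O M (π (X 1)))) (of fun j l => C (b.repr (ι (Pi.single j 1)) l)) := by
  choose H hH using hπ
  have k : ∀ (m : M) j, π (∑ l, C (b.repr m l) * H (ρ (b l) j)) = ρ m j := fun m j => by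
    conv_rhs => rw [← b.sum_repr m, map_sum, Finset.sum_apply]
    simp [hH, Algebra.smul_def]
  have k1 : ∀ i l j, (pres b i (Algebra.lsmul O O M (π (X i))) * of fun l j => H (ρ (b l) j)) l j ∈
      RingHom.ker π := fun i l j => by
    rw [pres, Matrix.sub_mul, Matrix.smul_mul, Matrix.one_mul, RingHom.mem_ker, Matrix.sub_apply,
      map_sub, Matrix.mul_apply]
    simp only [map_apply, transpose_apply, LinearMap.toMatrix_apply, of_apply, k]
    simp [hH]
  refine ⟨_, k1 0, k1 1, fun i j => ?_⟩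
  rw [RingHom.mem_ker, Matrix.sub_apply, map_sub, Matrix.mul_apply]
  simp only [of_apply, k, h2]
  by_cases h : i = j <;> simp [h, Algebra.smul_def, eq_comm]

lemma finrank_comm [IsDomain O] [Fintype J] [Module.Free O M] [Module.Finite O M]
    {π : MvPolynomial (Fin 2) O →ₐ[O] R} (hπ : Function.Surjective π) (ι : (J → R) →ₗ[R] M)
    (ρ : M →ₗ[R] J → R) {y : O} (hy : y ≠ 0) (h1 : ∀ m, ι (ρ m) = y • m) :
    finrank O (LinearMap.ker ((ad O (Algebra.lsmul O O M (π (X 0))) (Algebra.lsmul O O M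
      (π (X 0)))).prod (ad O (Algebra.lsmul O O M (π (X 1))) (Algebra.lsmul O O M (π (X 1)))))) ≤
      finrank O M * Fintype.card J := by
  classical
  refine (LinearMap.finrank_le_finrank_of_injective (f := (LinearMap.pi fun j : J =>
    LinearMap.applyₗ (ι (Pi.single j 1))) ∘ₗ Submodule.subtype _)
    ((injective_iff_map_eq_zero _).2 fun ⟨φ, h⟩ h0 => Subtype.ext (LinearMap.ext fun m => ?_))).trans_eq
    (by simp [finrank_pi_fintype, mul_comm])
  have hc := commute_of_X ((Algebra.lsmul O O M).comp π) (φ := φ)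
    (sub_eq_zero.1 (congrArg Prod.fst h)) (sub_eq_zero.1 (congrArg Prod.snd h))
  have h3 : ∀ (a : R) m, φ (a • m) = a • φ m := fun a m => by
    obtain ⟨p, rfl⟩ := hπ a
    exact (LinearMap.congr_fun (hc p) m).symm
  have h4 : ∀ j, φ (ι (Pi.single j 1)) = 0 := congrFun h0
  refine (smul_eq_zero_iff_right hy).1 ?_
  change y • φ m = 0
  rw [← map_smul, ← h1, pi_eq_sum_univ' (ρ m)]
  simp [h3, h4]

theorem half [IsDomain O] [IsDiscreteValuationRing O] {x : O} (hx : Irreducible x)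
    [Module.Free O R] {S : Type*} [CommRing S] [Algebra O S] [IsAdicComplete (Ideal.span {x}) S]
    [Module.Free O M] [Module.Finite O M] {π : MvPolynomial (Fin 2) O →ₐ[O] R}
    (hπ : Function.Surjective π) (t : MvPolynomial (Fin 2) O →ₐ[O] S) (q : S →ₐ[O] R)
    (hq : ∀ p, q (t p) = π p) {f g w : MvPolynomial (Fin 2) O}
    (hf : MvPolynomial.map (residue O) f ≠ 0) (tf : t f = 0) (hker : ∀ σ, q σ = 0 ↔ t g ∣ σ)
    (hreg : ∀ σ, t g * σ = 0 → σ = 0) (hw : ∀ a ∈ RingHom.ker π, w * a ∈ Ideal.span {f, g})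
    (hwu : IsUnit (π w)) (hnil : ∀ i, ∃ (e : ℕ) (r : R), π (X i) ^ e = x • r) {r c : ℕ}
    (ι : (Fin r → R) →ₗ[R] M) (ρ : M →ₗ[R] Fin r → R) (h1 : ∀ m, ι (ρ m) = x ^ c • m)
    (h2 : ∀ a, ρ (ι a) = x ^ c • a) {ψ : MvPolynomial (Fin 2) O →ₐ[O] End O M}
    (hψ : ψ = (Algebra.lsmul O O M).comp π)
    (hsat : ∀ a : O, a ≠ 0 → ∀ φ u1 u2, ad O (ψ (X 0)) (ψ (X 0)) φ = a • u1 →
      ad O (ψ (X 1)) (ψ (X 1)) φ = a • u2 →
      ∃ φ', ad O (ψ (X 0)) (ψ (X 0)) φ' = u1 ∧ ad O (ψ (X 1)) (ψ (X 1)) φ' = u2) :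
    ∃ v, IsDer ψ v ∧ v f = 0 ∧ v g = 1 := by
  have hψa : ∀ p m, ψ p m = π p • m := fun p m => by rw [hψ]; rfl
  have hxc := pow_ne_zero c hx.ne_zero
  obtain ⟨H0, hH0⟩ := π.toLinearMap.exists_rightInverse_of_surjective
    (LinearMap.range_eq_top.2 hπ)
  let H := t.toLinearMap ∘ₗ H0
  have hH : ∀ a, q (H a) = a := fun a => (hq _).trans (LinearMap.congr_fun hH0 a)
  have hg := (hker _).2 dvd_rfl
  obtain ⟨c0, κ0, d0⟩ := exists_dv (H := H) (G := t g) (fun σ => by
    obtain ⟨τ, h⟩ := (hker (σ - H (q σ))).1 (by rw [map_sub, hH, sub_self])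
    exact ⟨q σ, τ, by rw [← h, add_sub_cancel]⟩) fun β σ e => by
    have := congrArg q e
    rw [map_add, hH, map_mul, hg, zero_mul, add_zero, map_zero] at this
    rw [this, map_zero, zero_add] at e
    exact ⟨this, hreg σ e⟩
  have hc0 : ∀ σ, c0 σ = q σ := fun σ => by
    nth_rw 2 [← d0.eq σ]
    rw [map_add, hH, map_mul, hg, zero_mul, add_zero]
  let s : Fin r → O := fun j => x ^ c * x ^ (c + 1) * (1 + x ^ (c + 1) * x ^ j.1)
  have hs : Function.Injective s := fun i j e => Fin.ext (pow_injective_of_not_isUnit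
    hx.not_isUnit hx.ne_zero (mul_left_cancel₀ (pow_ne_zero _ hx.ne_zero) (add_left_cancel
      (mul_left_cancel₀ (mul_ne_zero hxc (pow_ne_zero _ hx.ne_zero)) e))))
  choose cc κ d using fun j => d0.pert (I := Ideal.span {x}) (s := s j)
    (Ideal.mem_span_singleton.2 ⟨x ^ c * x ^ c * (1 + x ^ (c + 1) * x ^ j.1), by
      simp only [s]; ring⟩) 1
  let L : ∀ _ : S →ₗ[O] R, S →ₗ[O] End O R := fun e =>
    LinearMap.lcomp O R H ∘ₗ LinearMap.llcomp O S S R e ∘ₗ LinearMap.mul O S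
  have hL : ∀ e σ a, L e σ a = e (σ * H a) := fun _ _ _ => rfl
  let D := tr ι ρ ∘ₗ LinearMap.pi (fun _ => L (q.toLinearMap ∘ₗ κ0)) ∘ₗ t.toLinearMap
  have hD : ∀ p m, D p m = ι fun j => q (κ0 (t p * H (ρ m j))) := fun _ _ => rfl
  let η := fun p => tr ι ρ fun j => L (x ^ j.1 • (q.toLinearMap ∘ₗ κ0) +
    (x ^ c * (1 + x ^ (c + 1) * x ^ j.1) ^ 2) • (cc j ∘ₗ κ0 ∘ₗ κ0)) (t p)
  let T := tr ι ρ ∘ₗ LinearMap.pi (fun j => (d j).rep.toLinearMap) ∘ₗ t.toLinearMap
  have hT : ∀ p m, T p m = ι fun j => cc j (t p * H (ρ m j)) := fun _ _ => rfl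
  have hTe : ∀ p, x ^ c • (ψ p + x ^ (c + 1) • (D p + x ^ (c + 1) • η p)) = T p := fun p =>
    LinearMap.ext fun m => by
      simp only [LinearMap.smul_apply, LinearMap.add_apply, hT, hD, hψa, η, tr_apply, smul_add]
      rw [← h1]
      simp only [← ι.map_smul_of_tower, ← map_add]
      congr 1
      ext j
      rw [d0.c_pert (d j), one_mul, d0.c_pert (d j), one_mul, hc0, hc0, map_mul, hH, hq]
      simp only [Pi.add_apply, Pi.smul_apply, map_smul, hL, LinearMap.add_apply,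
        LinearMap.smul_apply, LinearMap.comp_apply, AlgHom.toLinearMap_apply, smul_eq_mul, s]
      module
  obtain ⟨θ, hθ⟩ := exists_div_algHom hxc T
    (LinearMap.ext fun m => by simp [hT, (d _).cH, h1])
    (fun σ τ => LinearMap.ext fun m => by
      simp only [End.mul_apply, hT, h2, LinearMap.smul_apply, ← ι.map_smul_of_tower]
      congr 1
      ext j
      simp [(d j).c_mul, mul_assoc]) fun p => ⟨_, hTe p⟩
  have hθe : ∀ p, θ p = ψ p + x ^ (c + 1) • (D p + x ^ (c + 1) • η p) := fun p =>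
    smul_right_injective _ hxc ((hθ p).trans (hTe p).symm)
  have hDg : D g = x ^ c • 1 := LinearMap.ext fun m => by simp [hD, d0.κG, hH, h1]
  have hψg : ψ g = 0 := LinearMap.ext fun m => by rw [hψa, ← hq, hg, zero_smul]; rfl
  refine stepD (x := x) hx.not_isUnit hx.ne_zero ψ
    (LinearMap.ext fun m => by rw [hψa, ← hq, tf, map_zero, zero_smul]; rfl) hψg hsat (D := D)
    (fun p p' => LinearMap.ext fun m => ?_) (LinearMap.ext fun m => by simp [hD, tf, ← Pi.zero_def]) hDg le_rfl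
    (ρ := finrank O M * Fintype.card (Fin r)) (by rw [hψ]; exact finrank_comm hπ ι ρ hxc h1) (η (X 0)) (η (X 1)) fun P1 P2 => ?_
  · simp only [LinearMap.add_apply, End.mul_apply, hD, hψa, ← map_smul, ← map_add]
    congr 1
    ext j
    have := d0.eq (t p' * H (ρ m j))
    rw [map_mul t, mul_assoc, ← this, mul_add, map_add, mul_left_comm, d0.κG, hc0]
    simp [hH, hq, add_comm]
  let b := Module.Free.chooseBasis O M
  rw [← hθe, ← hθe]
  obtain ⟨Q1, Q2, e⟩ := det_conv b θ (ψ (X 0)) (ψ (X 1)) P1 P2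
  let θm := (LinearMap.toMatrixAlgEquiv b).toAlgHom.comp θ
  have hdet : ∀ p, (θm p).det = LinearMap.det (θ p) := fun p => LinearMap.det_toMatrix b _
  have hθg : θ g = x ^ (c + 1 + c) • (1 + x • η g) := by
    rw [hθe, hψg, hDg]
    simp only [pow_add, pow_one]
    module
  have hu := (LinearMap.isUnit_iff_isUnit_det _).1 (isUnit_one_add hx.not_isUnit (η g))
  have hι : ∀ a, ι a = 0 → a = 0 := fun a h =>
    (smul_eq_zero_iff_right hxc).1 (by rw [← h2, h, map_zero])
  let G : MvPolynomial (Fin 2) O := ∏ j, (g - s j • 1)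
  have hG : t G = ∏ j, (t g - s j • 1) := by simp [G]
  let Δ := ∏ l, ∏ m ∈ Finset.univ.erase l, (s l - s m)
  let p0 : M → MvPolynomial (Fin 2) O := fun m => ∑ j,
    (∏ l ∈ Finset.univ.erase j, ∏ m ∈ Finset.univ.erase l, (s l - s m)) •
      ((∏ l ∈ Finset.univ.erase j, (g - s l • 1)) * H0 (ρ m j))
  let K := FractionRing (MvPolynomial ((Free.ChooseBasisIndex O M × Free.ChooseBasisIndex O M) ⊕
    Free.ChooseBasisIndex O M) O)
  have : FaithfulSMul O (PowerSeries K) := (faithfulSMul_iff_algebraMap_injective _ _).2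
    fun a b e => FaithfulSMul.algebraMap_injective O K (PowerSeries.C_injective (by
      rwa [PowerSeries.algebraMap_apply, PowerSeries.algebraMap_apply] at e))
  obtain ⟨θg, a1, a2, a3⟩ := arc (L := K) ((algebraicIndependent_X _ O).map'
    (f := IsScalarTower.toAlgHom O _ K) (IsFractionRing.injective _ K)) t tf (G := G)
    (hG ▸ (prod_mem (S := nonZeroDivisors S) fun j _ => mem_nonZeroDivisors_iff_left.2
      fun σ h => ((d j).uniq 0 σ (by rw [map_zero, zero_add, h])).2).1)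
    (b.equivFun.toLinearMap ∘ₗ ι.restrictScalars O ∘ₗ LinearMap.pi cc) (fun σ => by
      rw [hG]
      refine ⟨fun h => fam_ker d hs _ fun j _ => congrFun (hι _
        (b.equivFun.map_eq_zero_iff.1 h)) j, ?_⟩
      rintro ⟨τ, rfl⟩
      change b.equivFun (ι fun j => cc j _) = 0
      rw [show (fun j => cc j _) = 0 from funext fun j => by
        rw [fam_prod d, Finset.prod_eq_zero (Finset.mem_univ j) (sub_self _), zero_smul]; rfl]
      simp) θm (fun p p' => by
      refine Eq.trans ?_ (LinearMap.toMatrix_mulVec_repr b b (θ p) _).symm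
      change _ = b.equivFun (θ p (ι fun j => cc j (t p')))
      refine congrArg b.equivFun (smul_right_injective M hxc ?_)
      beta_reduce
      rw [← LinearMap.smul_apply _ (θ p), hθ, hT, h2]
      simp [(d _).c_mul, ← ι.map_smul_of_tower, Pi.smul_def]) (p := fun i => p0 (b i))
    (ϱ := fun _ => Δ * x ^ c) (fun _ => mul_ne_zero (Finset.prod_ne_zero_iff.2 fun l _ =>
      Finset.prod_ne_zero_iff.2 fun m hm e =>
        (Finset.mem_erase.1 hm).1 (hs (sub_eq_zero.1 e)).symm) hxc) fun i => by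
      change b.equivFun (ι fun j => cc j _) = _
      rw [show (fun j => cc j _) = Δ • ρ (b i) from funext fun j => by
        simpa [p0, H] using fam_onto d (ρ (b i)) j, ι.map_smul_of_tower, h1]
      ext j
      simp [Finsupp.single_apply, Pi.single_apply, eq_comm]
  have hA := adm_pres b hπ ι ρ h2
  rw [e]
  refine .trans ?_ (ki hx hf (w := w) (c := c) (by rw [← C_pow, hψ]; exact adm_mul hw hA)
    (fun p hp => ?_) θm ?_ ?_ θg a1 a2 a3 Q1 Q2)
  · rw [hdet, hθg, LinearMap.det_smul, mul_pow, ← pow_mul, ← pow_mul]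
    exact dvd_mul_right _ _
  · have : ∀ I : Ideal (MvPolynomial (Fin 2) O), RingHom.ker π ≤ I → C (x ^ c) ∈ I →
        p ∈ I.radical := fun I k1 k2 => by
      refine Ideal.span_le.2 (fun a ha => ?_) hp
      obtain ⟨i, rfl⟩ : ∃ i, X i = a := ha.elim (fun h => ⟨_, h.symm⟩) fun h => ⟨_, h.symm⟩
      obtain ⟨e, a, he⟩ := hnil i
      obtain ⟨a, rfl⟩ := hπ a
      refine Ideal.radical_isRadical _ ⟨e, ?_⟩
      rw [← sub_add_cancel (X i ^ e) (C x * a)]
      refine add_mem (Ideal.le_radical (k1 ?_)) (Ideal.mul_mem_right _ _ ⟨c, by rwa [← C_pow]⟩)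
      simp [RingHom.mem_ker, he, Algebra.smul_def]
    obtain ⟨e, he⟩ := this _ le_adm hA
    exact ⟨e, by rw [hψ]; exact adm_mul hw he⟩
  · rw [hdet, hθg, LinearMap.det_smul]
    exact mul_ne_zero (pow_ne_zero _ (pow_ne_zero _ hx.ne_zero)) hu.ne_zero
  · obtain ⟨u, hu⟩ := (hwu.map (Algebra.lsmul O O M)).exists_right_inv
    rw [hdet, ← LinearMap.isUnit_iff_isUnit_det, show θ w = ψ w *
      (1 + x • (x ^ c • (u * (D w + x ^ (c + 1) • η w)))) by
        rw [mul_add, mul_one, smul_smul, mul_smul_comm, ← mul_assoc, hθe, ← pow_succ', hψ]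
        exact congrArg _ (congrArg _ ((one_mul _).symm.trans (congrArg (· * _) hu.symm)))]
    exact .mul (by rw [hψ]; exact hwu.map (Algebra.lsmul O O M)) (isUnit_one_add hx.not_isUnit _)

end half

end Pool.Agent.Lib.MP_9e3d42_al.CT
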