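import Mathlib

/-! Division with remainder by a regular element, and its perturbations. -/

open scoped TensorProduct

namespace Pool.Agent.Lib.MP_9e3d42_al.CT

variable {B X V : Type*} [CommRing B] [CommRing X] [Algebra B X] [AddCommGroup V] [Module B V]

/-- Division by `G` with remainders `H β`. -/
structure Dv (H : V →ₗ[B] X) (G : X) (c : X →ₗ[B] V) (κ : X →ₗ[B] X) : Prop where
  eq : ∀ σ, H (c σ) + G * κ σ = σ
  uniq : ∀ β q, H β + G * q = 0 → β = 0 ∧ q = 0

variable {H : V →ₗ[B] X} {G : X} {c c' : X →ₗ[B] V} {κ κ' : X →ₗ[B] X}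

theorem exists_dv (h1 : ∀ σ, ∃ β q, H β + G * q = σ)
    (h2 : ∀ β q, H β + G * q = 0 → β = 0 ∧ q = 0) : ∃ c κ, Dv H G c κ := by
  let e := LinearEquiv.ofBijective (H.coprod (LinearMap.mulLeft B G))
    ⟨(injective_iff_map_eq_zero _).2 fun p h => Prod.ext (h2 _ _ h).1 (h2 _ _ h).2,
      fun σ => let ⟨β, q, h⟩ := h1 σ; ⟨(β, q), h⟩⟩
  exact ⟨LinearMap.fst B V X ∘ₗ e.symm.toLinearMap, LinearMap.snd B V X ∘ₗ e.symm.toLinearMap,
    e.apply_symm_apply, h2⟩

lemma Dv.ext (h : Dv H G c κ) {β : V} {q σ : X} (e : H β + G * q = σ) : c σ = β ∧ κ σ = q := by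
  have := h.uniq (c σ - β) (κ σ - q) (by
    rw [map_sub, mul_sub, ← add_sub_add_comm, h.eq, e, sub_self])
  exact ⟨sub_eq_zero.1 this.1, sub_eq_zero.1 this.2⟩

lemma Dv.cH (h : Dv H G c κ) (β : V) : c (H β) = β := (h.ext (q := 0) (by simp)).1

lemma Dv.cG (h : Dv H G c κ) (q : X) : c (G * q) = 0 := (h.ext (β := 0) (q := q) (by simp)).1

lemma Dv.κG (h : Dv H G c κ) (q : X) : κ (G * q) = q := (h.ext (β := 0) (by simp)).2

lemma Dv.c_mul (h : Dv H G c κ) (σ τ : X) : c (σ * H (c τ)) = c (σ * τ) := by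
  nth_rw 2 [← h.eq τ]
  rw [mul_add, map_add, mul_left_comm, h.cG, add_zero]

/-- The representation on remainders. -/
def Dv.rep (h : Dv H G c κ) : X →ₐ[B] Module.End B V :=
  .ofLinearMap (LinearMap.lcomp B V H ∘ₗ LinearMap.llcomp B X X V c ∘ₗ LinearMap.mul B X)
    (LinearMap.ext fun β => by simp [h.cH]) fun σ τ => LinearMap.ext fun β => by
      simp [h.c_mul, mul_assoc]

@[simp] lemma Dv.rep_apply (h : Dv H G c κ) (σ : X) (β : V) : h.rep σ β = c (σ * H β) := rfl

lemma Dv.c_pert (h : Dv H G c κ) {s : B} {τ : X} (h' : Dv H (G - s • τ) c' κ') (σ : X) :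
    c' σ = c σ + s • c' (τ * κ σ) := by
  have : σ = H (c σ) + (G - s • τ) * κ σ + s • (τ * κ σ) := by
    rw [sub_mul, smul_mul_assoc, add_assoc, sub_add_cancel, h.eq]
  nth_rw 1 [this]
  rw [map_add, map_add, h'.cH, h'.cG, add_zero, map_smul]

theorem Dv.pert (h : Dv H G c κ) {I : Ideal B} [IsAdicComplete I X] {s : B} (hs : s ∈ I)
    (τ : X) : ∃ c' κ', Dv H (G - s • τ) c' κ' := by
  refine exists_dv (fun σ => ?_) fun β q e => ?_
  · obtain ⟨p, rfl⟩ := surjective_of_mkQ_comp_surjective (I := I)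
      (f := LinearMap.id - s • (LinearMap.mulLeft B τ ∘ₗ κ)) (fun y => by
        obtain ⟨y, rfl⟩ := Submodule.mkQ_surjective _ y
        refine ⟨y, (Submodule.Quotient.eq _).2 ?_⟩
        simpa using Submodule.smul_mem_smul hs (Submodule.mem_top (x := τ * κ y))) σ
    refine ⟨c p, κ p, ?_⟩
    rw [sub_mul, ← add_sub_assoc, h.eq]
    simp
  · rw [sub_mul, ← add_sub_assoc, sub_eq_zero, smul_mul_assoc] at e
    have h1 := h.ext e
    have h2 : q = 0 := IsHausdorff.haus (I := I) inferInstance q fun m => by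
      rw [SModEq.zero]
      induction m with
      | zero => rw [pow_zero, Ideal.one_eq_top, Submodule.top_smul]; trivial
      | succ m ih =>
        rw [← h1.2, map_smul, pow_succ', mul_smul]
        refine Submodule.smul_mem_smul hs (Submodule.smul_top_le_comap_smul_top _
          (κ ∘ₗ LinearMap.mulLeft B τ) ih)
    exact ⟨by rw [← h1.1, h2]; simp, h2⟩

open PowerSeries in
theorem Dv.ps {n : Type*} [Fintype n] {h : n → X} {c : X →ₗ[B] n → B}
    (d : Dv (Fintype.linearCombination B h) G c κ) (τ : X) :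
    ∃ c' κ', Dv (Fintype.linearCombination B⟦X⟧ fun i => (C (h i) : PowerSeries X))
      (C G - (PowerSeries.X : B⟦X⟧) • C τ) c' κ' ∧
      ∀ σ i, constantCoeff (c' σ i) = c (constantCoeff σ) i := by
  have k : ∀ (β : n → B⟦X⟧) (q : PowerSeries X) m,
      coeff m (Fintype.linearCombination B⟦X⟧ (fun i => (C (h i) : PowerSeries X)) β + C G * q) =
        Fintype.linearCombination B h (fun i => coeff m (β i)) + G * coeff m q := fun β q m => by
    simp [Fintype.linearCombination_apply, Algebra.smul_def, RingHom.algebraMap_toAlgebra]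
  obtain ⟨c1, κ1, d1⟩ := exists_dv (H := Fintype.linearCombination B⟦X⟧
    fun i => (C (h i) : PowerSeries X)) (G := C G) (fun σ =>
      ⟨fun i => .mk fun m => c (coeff m σ) i, .mk fun m => κ (coeff m σ), PowerSeries.ext fun m => by
        rw [k]
        simpa using d.eq _⟩) fun β q e => by
    have := fun m => d.uniq _ _ ((k β q m).symm.trans (by rw [e, map_zero]))
    exact ⟨funext fun i => PowerSeries.ext fun m => congrFun (this m).1 i,
      PowerSeries.ext fun m => (this m).2⟩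
  have : IsAdicComplete (Ideal.span {(PowerSeries.X : B⟦X⟧)}) (PowerSeries X) := by
    rw [← IsAdicComplete.map_algebraMap_iff (S := PowerSeries X), Ideal.map_span,
      Set.image_singleton, RingHom.algebraMap_toAlgebra, map_X]
    infer_instance
  obtain ⟨c', κ', d'⟩ := d1.pert (Ideal.mem_span_singleton_self PowerSeries.X) (C τ)
  refine ⟨c', κ', d', fun σ i => ?_⟩
  have h1 := (k _ _ 0).symm.trans (congrArg (coeff 0) (d1.eq σ))
  rw [d1.c_pert d', ← coeff_zero_eq_constantCoeff_apply σ, (d.ext h1).1]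
  simp

end Pool.Agent.Lib.MP_9e3d42_al.CT
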