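import Pool.Agent.Lib.MP_9e3d42_al.CT.Td

/-! Jordan forms and centralisers defined over small fields. -/

open Polynomial Module Matrix

namespace Pool.Agent.Lib.MP_9e3d42_al.CT

universe u

theorem exists_jbasis {K : Type u} {V : Type*} [Field K] [IsAlgClosed K] [AddCommGroup V]
    [Module K V] [FiniteDimensional K V] (f : Module.End K V) :
    ∃ (ι : Type u) (_ : Fintype ι) (β : Basis ι K V), ∀ x, ∃ a : K, (∃ v ≠ 0, f v = a • v) ∧
      (f (β x) = a • β x ∨ ∃ y, f (β x) = a • β x + β y) := by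
  classical
  obtain ⟨d, _, p, hp, κ, ⟨φ⟩⟩ := Module.equiv_directSum_of_isTorsion (R := K[X])
    (M := AEval' f) (Module.AEval.isTorsion_of_finiteDimensional K V f)
  have ha : ∀ j, ∃ a, Associated (X - C a) (p j) := fun j => by
    obtain ⟨a, ha⟩ := IsAlgClosed.exists_root (p j)
      (by rw [IsAlgClosed.degree_eq_one_of_irreducible K (hp j)]; simp)
    exact ⟨a, (irreducible_X_sub_C a).associated_of_dvd (hp j) (dvd_iff_isRoot.2 ha)⟩
  choose a ha using ha
  let ψ := (φ.symm.restrictScalars K).trans (AEval'.of f).symm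
  have hψ : ∀ (p : K[X]) v, ψ (p • v) = aeval f p (ψ v) := fun p v => by
    simp only [ψ, LinearEquiv.trans_apply, LinearEquiv.restrictScalars_apply, map_smul]
    rfl
  let u := fun j => DirectSum.lof K[X] _ (fun i => K[X] ⧸ K[X] ∙ p i ^ κ i) j
    (Submodule.Quotient.mk 1)
  let g : d → Module.End K V := fun j => aeval f (X - C (a j))
  have hg : ∀ j w, f w = a j • w + g j w := fun j w => by simp [g]
  have h0 : ∀ j, (g j ^ κ j) (ψ (u j)) = 0 := fun j => by
    rw [← map_pow, ← hψ, ← map_smul, ← Submodule.Quotient.mk_smul,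
      (Submodule.Quotient.mk_eq_zero _).2, map_zero, map_zero]
    rw [smul_eq_mul, mul_one]
    exact Ideal.mem_span_singleton.2 ((ha j).pow_pow).symm.dvd
  let v : (Σ j : d, Fin (κ j)) → V := fun x => (g x.1 ^ (x.2 : ℕ)) (ψ (u x.1))
  have h1 : ∀ j (i : ℕ), (g j ^ i) (ψ (u j)) ∈ Submodule.span K (Set.range v) := fun j i => by
    rcases lt_or_ge i (κ j) with h | h
    · exact Submodule.subset_span ⟨⟨j, i, h⟩, rfl⟩
    · obtain ⟨c, rfl⟩ := Nat.exists_eq_add_of_le' h
      rw [pow_add, Module.End.mul_apply, h0, map_zero]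
      exact zero_mem _
  have h2 : ⊤ ≤ Submodule.span K (Set.range v) := by
    rintro w -
    obtain ⟨w, rfl⟩ := ψ.surjective w
    induction w using DirectSum.induction_on with
    | zero => simp
    | add x y hx hy => rw [map_add]; exact add_mem hx hy
    | of j x =>
      obtain ⟨q, rfl⟩ := Submodule.Quotient.mk_surjective _ x
      have : DirectSum.of (fun i => K[X] ⧸ K[X] ∙ p i ^ κ i) j
          (Submodule.Quotient.mk q) = q • u j := by
        rw [← map_smul, ← Submodule.Quotient.mk_smul, smul_eq_mul, mul_one]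
        rfl
      have e : aeval f q = aeval (g j) (q.comp (X + C (a j))) := by
        rw [aeval_comp]
        simp [g]
      rw [this, hψ, e, aeval_eq_sum_range, LinearMap.sum_apply]
      exact sum_mem fun i _ => Submodule.smul_mem _ _ (h1 j i)
  have h3 : Fintype.card (Σ j : d, Fin (κ j)) = finrank K V := by
    have : ∀ i, Module.Finite K (K[X] ⧸ K[X] ∙ p i ^ κ i) := fun i =>
      (AdjoinRoot.powerBasis (pow_ne_zero (κ i) (hp i).ne_zero)).finite
    rw [← ψ.finrank_eq, Module.finrank_directSum, Fintype.card_sigma]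
    refine Finset.sum_congr rfl fun j _ => ?_
    rw [Fintype.card_fin]
    refine ((finrank_quotient_span_eq_natDegree (f := p j ^ κ j)).trans ?_).symm
    rw [natDegree_pow, natDegree_eq_of_degree_eq_some
      (IsAlgClosed.degree_eq_one_of_irreducible K (hp j))]
    exact mul_one _
  let β := basisOfTopLeSpanOfCardEqFinrank v h2 h3
  have hβ : ∀ x, β x = v x := fun x => by rw [coe_basisOfTopLeSpanOfCardEqFinrank]
  have h4 : ∀ j i (h : i < κ j), g j (β ⟨j, i, h⟩) = (g j ^ (i + 1)) (ψ (u j)) := fun j i h => by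
    rw [hβ, pow_succ']; rfl
  refine ⟨_, inferInstance, β, fun ⟨j, i, h⟩ => ⟨a j, ⟨β ⟨j, κ j - 1, by omega⟩, β.ne_zero _, ?_⟩, ?_⟩⟩
  · rw [hg j, h4, Nat.sub_add_cancel (by omega), h0, add_zero]
  · rcases (Nat.succ_le_of_lt h).eq_or_lt with e | e
    · left
      rw [hg j, h4, ← Nat.succ_eq_add_one, e, h0, add_zero]
    · exact .inr ⟨⟨j, i + 1, e⟩, by rw [hg j, h4, hβ ⟨j, i + 1, e⟩]⟩

variable {n : Type*} [Fintype n] [DecidableEq n]

theorem exists_form {k K : Type*} [CommRing k] [Field K] [IsAlgClosed K] [Algebra k K]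
    (Y : Matrix n n K) (C : Subalgebra k K) (hC : ∀ a, (∃ v ≠ 0, Y *ᵥ v = a • v) → a ∈ C) :
    ∃ J γ : Matrix n n K, γ.det ≠ 0 ∧ γ * J = Y * γ ∧ Ent C J := by
  classical
  obtain ⟨ι, _, β, h⟩ := exists_jbasis (Matrix.toLin' Y)
  let b := β.reindex (β.indexEquiv (Pi.basisFun K n))
  refine ⟨LinearMap.toMatrix b b (toLin' Y), (Pi.basisFun K n).toMatrix b, ?_, ?_, fun i j => ?_⟩
  · exact ((Pi.basisFun K n).isUnit_det b).ne_zero
  · rw [basis_toMatrix_mul_linearMap_toMatrix]
    nth_rw 2 [← LinearMap.toMatrix'_toLin' Y]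
    rw [← LinearMap.toMatrix_eq_toMatrix', linearMap_toMatrix_mul_basis_toMatrix]
  · obtain ⟨a, ha, h1⟩ := h ((β.indexEquiv (Pi.basisFun K n)).symm j)
    have h2 : ∀ x y, β.repr (β x) y ∈ C := fun x y => by
      rw [β.repr_self, Finsupp.single_apply]
      split_ifs
      exacts [one_mem _, zero_mem _]
    rw [LinearMap.toMatrix_apply, Basis.reindex_apply, Basis.repr_reindex_apply]
    rcases h1 with h1 | ⟨y, h1⟩
    · rw [h1, map_smul]
      exact mul_mem (hC a ha) (h2 _ _)
    · rw [h1, map_add, map_smul]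
      exact add_mem (mul_mem (hC a ha) (h2 _ _)) (h2 _ _)

theorem exists_ker {L m : Type*} [Field L] [Fintype m] [DecidableEq m] (A : Matrix m m L) :
    ∃ (c : ℕ) (B : Matrix m (Fin c) L) (Λ : Matrix (Fin c) m L) (D : Matrix m m L),
      A * B = 0 ∧ Λ * B = 1 ∧ B * Λ + D * A = 1 := by
  let ad := toLin' A
  let β := (Module.finBasis L (LinearMap.ker ad)).equivFun
  obtain ⟨r, hr⟩ := (LinearMap.ker ad).subtype.exists_leftInverse_of_injective
    (Submodule.ker_subtype _)
  have hr' : ∀ v : LinearMap.ker ad, r v = v := LinearMap.congr_fun hr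
  obtain ⟨D, hD⟩ := LinearMap.exists_extend
    (((LinearMap.ker ad).liftQ (LinearMap.id - (LinearMap.ker ad).subtype ∘ₗ r) fun v hv => by
      simp [hr' ⟨v, hv⟩]) ∘ₗ ad.quotKerEquivRange.symm.toLinearMap)
  refine ⟨_, LinearMap.toMatrix' ((LinearMap.ker ad).subtype ∘ₗ β.symm.toLinearMap),
    LinearMap.toMatrix' (β.toLinearMap ∘ₗ r), LinearMap.toMatrix' D, ?_, ?_, ?_⟩ <;>
  refine toLin'.injective (LinearMap.ext fun v => ?_)
  · simp [-Basis.equivFun_symm_apply]
  · simp [hr']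
  · have : D (ad v) = v - r v := by simpa using LinearMap.congr_fun hD ⟨ad v, v, rfl⟩
    have h : D (A *ᵥ v) = v - r v := this
    simp [h]

open Kronecker in
/-- A basis of the centraliser and coordinates on it that persist in every extension. -/
theorem exists_cent {L : Type*} [Field L] (J : Matrix n n L) :
    ∃ (c : ℕ) (B : Matrix (n × n) (Fin c) L) (Λ : Matrix (Fin c) (n × n) L), Λ * B = 1 ∧
      ∀ (A : Type*) [CommRing A] (σ : L →+* A) (X : Matrix n n A),
        X * J.map σ = J.map σ * X ↔ B.map σ *ᵥ (Λ.map σ *ᵥ X.vec) = X.vec := by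
  obtain ⟨c, B, Λ, D, h1, h2, h3⟩ := exists_ker (Jᵀ ⊗ₖ (1 : Matrix n n L) - (1 : Matrix n n L) ⊗ₖ J)
  refine ⟨c, B, Λ, h2, fun A _ σ X => ?_⟩
  have h4 : (Jᵀ ⊗ₖ (1 : Matrix n n L) - (1 : Matrix n n L) ⊗ₖ J).map σ *ᵥ X.vec =
      (X * J.map σ - J.map σ * X).vec := by
    have : (Jᵀ ⊗ₖ (1 : Matrix n n L) - (1 : Matrix n n L) ⊗ₖ J).map σ =
        (J.map σ)ᵀ ⊗ₖ (1 : Matrix n n A) - (1 : Matrix n n A) ⊗ₖ J.map σ := by
      ext p q
      simp [one_apply, apply_ite σ]
    rw [this, sub_mulVec, kronecker_mulVec_vec, kronecker_mulVec_vec]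
    simp
  constructor
  · intro h
    have h5 := congrArg (fun M => M.map σ *ᵥ X.vec) h3
    simp only [Matrix.map_add σ (map_add σ), Matrix.map_mul, add_mulVec, ← mulVec_mulVec, h4, h,
      sub_self, vec_zero, mulVec_zero, add_zero, Matrix.map_one σ (map_zero σ) (map_one σ),
      one_mulVec] at h5
    exact h5
  · intro h
    rw [← sub_eq_zero, ← vec_eq_zero_iff, ← h4, ← h, mulVec_mulVec, ← Matrix.map_mul, h1,
      Matrix.map_zero _ (map_zero σ), zero_mulVec]

end Pool.Agent.Lib.MP_9e3d42_al.CT
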