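import Pool.Agent.Lib.MP_9e3d42_al.CT.PS

/-! Descent from a faithfully flat extension. -/

open Module TensorProduct

namespace Pool.Agent.Lib.MP_9e3d42_al.CT

variable {R A : Type*} [CommRing R] [IsDomain R] [CommRing A] [Algebra R A]

lemma exists_emb [Module.Flat R A] (T : Type*) [AddCommGroup T] [Module R T] [Module.Finite R T]
    [IsTorsionFree R T] : ∃ (s : ℕ) (j : A ⊗[R] T →ₗ[A] Fin s → A), Function.Injective j := by
  obtain ⟨f, g, c, hc, h1, -⟩ := exists_isog (R := R) T
  have hg : Function.Injective g := (injective_iff_map_eq_zero g).2 fun t e =>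
    (smul_eq_zero_iff_right hc).1 ((LinearMap.congr_fun h1 t).symm.trans (by simp [e]))
  exact ⟨_, (piScalarRight R A A _).toLinearMap ∘ₗ g.baseChange A,
    (piScalarRight R A A _).injective.comp
      (Module.Flat.lTensor_preserves_injective_linearMap (M := A) g hg)⟩

omit [IsDomain R] in
lemma bc_comp {X Y : Type*} [AddCommGroup X] [Module R X] [AddCommGroup Y] [Module R Y]
    (f : X →ₗ[R] Y) (g : Y →ₗ[R] X) {c : R} (e : f ∘ₗ g = c • LinearMap.id) (m : A ⊗[R] Y) :
    f.baseChange A (g.baseChange A m) = algebraMap R A c • m := by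
  rw [← LinearMap.comp_apply, ← LinearMap.baseChange_comp, e, LinearMap.baseChange_smul,
    LinearMap.baseChange_id, algebraMap_smul]
  rfl

theorem free_of_ff [IsLocalRing R] [IsNoetherianRing R] {O : Type*} [CommRing O] [IsDomain O]
    [IsDiscreteValuationRing O] {x : O} [IsPrecomplete (Ideal.span {x}) O] (hx : Irreducible x)
    {F G : MvPowerSeries (Fin 2) O}
    (h : RingTheory.Sequence.IsRegular (MvPowerSeries (Fin 2) O) [F, G, MvPowerSeries.C x])
    [Algebra R (MvPowerSeries (Fin 2) O ⧸ Ideal.span {F, G})]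
    [Module.FaithfullyFlat R (MvPowerSeries (Fin 2) O ⧸ Ideal.span {F, G})]
    (M : Type*) [AddCommGroup M] [Module R M] [Module.Finite R M] [IsTorsionFree R M]
    [IsTorsionFree R (M ⊗[R] Dual R M)] : Module.Free R M := by
  have := tf_quot hx h
  generalize hI : Ideal.span {F, G} = I at *
  let A := MvPowerSeries (Fin 2) O ⧸ I
  have : Module.FinitePresentation R M := Module.finitePresentation_of_finite R M
  obtain ⟨s, j, hj⟩ := exists_emb (R := R) (A := A) M
  have := hj.moduleIsTorsionFree (R := O) j j.map_smul_of_tower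
  obtain ⟨s', j', hj'⟩ := exists_emb (R := R) (A := A) (M ⊗[R] Dual R M)
  let e := AlgebraTensorModule.distribBaseChange R A M (Dual R M) ≪≫ₗ
    TensorProduct.congr (.refl A _) ((Module.FinitePresentation.isBaseChange_map R M R A).equiv ≪≫ₗ
      LinearEquiv.congrRight (AlgebraTensorModule.rid R A A))
  have := (hj'.comp e.symm.injective).moduleIsTorsionFree (R := O) _
    (j' ∘ₗ e.symm.toLinearMap).map_smul_of_tower
  obtain ⟨f, g, c, hc, h1, h2⟩ := exists_isog (R := R) M
  let p := piScalarRight R A A (Fin (finrank R M))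
  have := core_ps hx h hI.symm (f.baseChange A ∘ₗ p.symm.toLinearMap)
    (p.toLinearMap ∘ₗ g.baseChange A) (a := algebraMap R A c)
    (mem_nonZeroDivisors_iff_left.2 fun a e => (smul_eq_zero_iff_right hc).1
      ((Algebra.smul_def c a).trans e)) (fun m => (congrArg _ (p.symm_apply_apply _)).trans
        (bc_comp f g h1 m)) fun m => (congrArg p (bc_comp g f h2 _)).trans (by
      rw [map_smul]; exact congrArg _ (p.apply_symm_apply m))
  have := Module.Flat.of_flat_tensorProduct R M A
  exact Module.free_of_flat_of_isLocalRing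

theorem free_of_compl [IsLocalRing R] [IsNoetherianRing R] {O : Type*} [CommRing O] [IsDomain O]
    [IsDiscreteValuationRing O] [IsAdicComplete (IsLocalRing.maximalIdeal O) O] {x : O}
    (hx : Irreducible x) {F G : MvPowerSeries (Fin 2) O}
    (h : RingTheory.Sequence.IsRegular (MvPowerSeries (Fin 2) O) [F, G, MvPowerSeries.C x])
    (e : AdicCompletion (IsLocalRing.maximalIdeal R) R ≃+*
      MvPowerSeries (Fin 2) O ⧸ Ideal.span {F, G})
    (M : Type*) [AddCommGroup M] [Module R M] [Module.Finite R M] [IsTorsionFree R M]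
    [IsTorsionFree R (M ⊗[R] Dual R M)] : Module.Free R M := by
  have : IsPrecomplete (Ideal.span {x}) O := hx.maximalIdeal_eq ▸ inferInstance
  let _ := (e.toRingHom.comp (algebraMap R _)).toAlgebra
  have := Module.FaithfullyFlat.of_flat_of_isLocalHom (A := R)
    (B := AdicCompletion (IsLocalRing.maximalIdeal R) R)
  have := Module.FaithfullyFlat.of_linearEquiv R (AdicCompletion (IsLocalRing.maximalIdeal R) R)
    (AlgEquiv.ofRingEquiv (R := R) (f := e) fun _ => rfl).symm.toLinearEquiv
  exact free_of_ff hx h M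

end Pool.Agent.Lib.MP_9e3d42_al.CT
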