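import Mathlib

/-! Algebraic closures of sets, ranks, and matrices with entries in a subalgebra. -/

open Matrix

namespace Pool.Agent.Lib.MP_9e3d42_al.CT

section ent

variable {R A : Type*} [CommRing R] [CommRing A] [Algebra R A] {C : Subalgebra R A}
  {l m n : Type*}

/-- All entries lie in the subalgebra. -/
def Ent (C : Subalgebra R A) (M : Matrix m n A) : Prop := ∀ i j, M i j ∈ C

lemma Ent.lift {M : Matrix m n A} (h : Ent C M) : ∃ N : Matrix m n C, N.map C.val = M :=
  ⟨of fun i j => ⟨M i j, h i j⟩, rfl⟩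

lemma Ent.mul [Fintype m] {M : Matrix l m A} {N : Matrix m n A} (h : Ent C M) (k : Ent C N) :
    Ent C (M * N) := fun i j => sum_mem fun a _ => mul_mem (h i a) (k a j)

lemma Ent.add {M N : Matrix m n A} (h : Ent C M) (k : Ent C N) : Ent C (M + N) :=
  fun i j => add_mem (h i j) (k i j)

lemma Ent.sub {M N : Matrix m n A} (h : Ent C M) (k : Ent C N) : Ent C (M - N) :=
  fun i j => sub_mem (h i j) (k i j)

lemma Ent.smul {M : Matrix m n A} {a : A} (h : Ent C M) (ha : a ∈ C) : Ent C (a • M) :=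
  fun i j => mul_mem ha (h i j)

lemma Ent.sum {ι : Type*} {s : Finset ι} {M : ι → Matrix m n A} (h : ∀ i ∈ s, Ent C (M i)) :
    Ent C (∑ i ∈ s, M i) := fun i j => by
  rw [Matrix.sum_apply]; exact sum_mem fun a ha => h a ha i j

lemma ent_one [DecidableEq n] : Ent C (1 : Matrix n n A) := fun i j => by
  rw [Matrix.one_apply]
  split_ifs
  exacts [one_mem _, zero_mem _]

lemma Ent.mono {D : Subalgebra R A} {M : Matrix m n A} (h : Ent C M) (k : C ≤ D) : Ent D M :=
  fun i j => k (h i j)

lemma Ent.mulVec [Fintype n] {M : Matrix m n A} {v : n → A} (h : Ent C M) (k : ∀ i, v i ∈ C)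
    (i : m) : (M *ᵥ v) i ∈ C := sum_mem fun a _ => mul_mem (h i a) (k a)

variable [Fintype n] [DecidableEq n] {M : Matrix n n A}

lemma Ent.det (h : Ent C M) : M.det ∈ C := by
  obtain ⟨N, rfl⟩ := h.lift
  exact (AlgHom.map_det C.val N) ▸ N.det.2

lemma Ent.adjugate (h : Ent C M) : Ent C M.adjugate := by
  obtain ⟨N, rfl⟩ := h.lift
  exact (AlgHom.map_adjugate C.val N) ▸ fun i j => (N.adjugate i j).2

lemma ent_algHom {σ : Type*} (ψ : MvPolynomial σ R →ₐ[R] Matrix n n A)
    (h : ∀ i, Ent C (ψ (MvPolynomial.X i))) (p : MvPolynomial σ R) : Ent C (ψ p) := by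
  induction p using MvPolynomial.induction_on with
  | C r =>
    rw [MvPolynomial.algHom_C, Algebra.algebraMap_eq_smul_one, ← algebraMap_smul A]
    exact ent_one.smul (algebraMap_mem C r)
  | add p q hp hq => rw [map_add]; exact hp.add hq
  | mul_X p i hp => rw [map_mul]; exact hp.mul (h i)

end ent

section cl

variable (R : Type*) {A : Type*} [CommRing R] [CommRing A] [IsDomain A] [Algebra R A]

/-- The elements that are algebraic over the subalgebra generated by a set. -/
def Cl (s : Set A) : Subalgebra R A :=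
  (Subalgebra.algebraicClosure (Algebra.adjoin R s) A).restrictScalars R

variable {R} {s t : Set A} {a d : A}

lemma mem_cl : a ∈ Cl R s ↔ IsAlgebraic (Algebra.adjoin R s) a := Iff.rfl

lemma subset_cl : s ⊆ Cl R s := fun a h =>
  isAlgebraic_algebraMap (⟨a, Algebra.subset_adjoin h⟩ : Algebra.adjoin R s)

lemma cl_of_mul (hd : d ∈ Cl R s) (h0 : d ≠ 0) (h : d * a ∈ Cl R s) : a ∈ Cl R s :=
  IsAlgebraic.of_mul (mem_nonZeroDivisors_of_ne_zero h0) hd h

lemma cl_of_alg (h : IsAlgebraic (Cl R s) a) : a ∈ Cl R s :=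
  have h' : IsAlgebraic (Subalgebra.algebraicClosure (Algebra.adjoin R s) A) a := h
  h'.restrictScalars (Algebra.adjoin R s)

variable {m n : Type*} [Fintype n] [DecidableEq n]

lemma Ent.solve {M : Matrix n n A} {N : Matrix n m A} (hM : Ent (Cl R s) M) (h0 : M.det ≠ 0)
    (h : Ent (Cl R s) (M * N)) : Ent (Cl R s) N := fun i j => by
  refine cl_of_mul hM.det h0 ?_
  have := hM.adjugate.mul h i j
  rwa [← Matrix.mul_assoc, adjugate_mul, Matrix.smul_mul, Matrix.one_mul] at this

lemma Ent.solve' {M : Matrix n n A} {N : Matrix m n A} (hM : Ent (Cl R s) M) (h0 : M.det ≠ 0)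
    (h : Ent (Cl R s) (N * M)) : Ent (Cl R s) N := fun i j => by
  refine cl_of_mul hM.det h0 ?_
  have := h.mul hM.adjugate i j
  rwa [Matrix.mul_assoc, mul_adjugate, Matrix.mul_smul, Matrix.mul_one] at this

lemma Ent.solveVec {M : Matrix n n A} {v : n → A} (hM : Ent (Cl R s) M) (h0 : M.det ≠ 0)
    (h : ∀ i, (M *ᵥ v) i ∈ Cl R s) (i : n) : v i ∈ Cl R s := by
  refine cl_of_mul hM.det h0 ?_
  have := hM.adjugate.mulVec h i
  rwa [mulVec_mulVec, adjugate_mul, smul_mulVec, one_mulVec] at this

lemma Ent.eigen {M : Matrix n n A} {v : n → A} (hM : Ent (Cl R s) M) (hv : v ≠ 0)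
    (h : M *ᵥ v = a • v) : a ∈ Cl R s := by
  obtain ⟨N, rfl⟩ := hM.lift
  refine cl_of_alg ⟨N.charpoly, N.charpoly_monic.ne_zero, ?_⟩
  rw [← Polynomial.eval_map_algebraMap, ← charpoly_map, eval_charpoly,
    ← exists_mulVec_eq_zero_iff]
  refine ⟨v, hv, ?_⟩
  rw [sub_mulVec, sub_eq_zero]
  refine Eq.trans ?_ h.symm
  ext i
  simp [mulVec_diagonal]

variable [FaithfulSMul R A]

variable (R) in
/-- The transcendence degree of the subalgebra generated by a set. -/
noncomputable def rk (s : Set A) : ℕ∞ := (AlgebraicIndependent.matroid R A).eRk s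

lemma rk_le (h : s ⊆ Cl R t) : rk R s ≤ rk R t := by
  rw [rk, rk, ← Matroid.eRk_closure_eq _ t, AlgebraicIndependent.matroid_closure_eq]
  exact Matroid.eRk_mono _ h

lemma rk_mono (h : s ⊆ t) : rk R s ≤ rk R t := Matroid.eRk_mono _ h

lemma rk_union_le (s t : Set A) : rk R (s ∪ t) ≤ rk R s + rk R t :=
  Matroid.eRk_union_le_eRk_add_eRk _ s t

lemma rk_range_le {ι : Type*} [Fintype ι] (f : ι → A) :
    rk R (Set.range f) ≤ Fintype.card ι := by
  refine (Matroid.eRk_le_encard _ _).trans ?_
  rw [← Set.image_univ]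
  exact (Set.encard_image_le _ _).trans_eq (by simp)

lemma rk_ne_top (h : s.Finite) : rk R s ≠ ⊤ :=
  ((Matroid.eRk_le_encard _ _).trans_lt h.encard_lt_top).ne

lemma rk_submod {u : Set A} (h : s ⊆ t) : rk R s + rk R (t ∪ u) ≤ rk R (s ∪ u) + rk R t := by
  refine le_trans (add_le_add (rk_mono ?_) (rk_mono ?_))
    (Matroid.eRk_inter_add_eRk_union_le _ (s ∪ u) t)
  · exact Set.subset_inter Set.subset_union_left h
  · exact Set.union_subset Set.subset_union_right
      (Set.subset_union_right.trans Set.subset_union_left)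

lemma le_rk {ι : Type*} [Fintype ι] {τ : ι → A} (h : AlgebraicIndependent R τ) :
    (Fintype.card ι : ℕ∞) ≤ rk R (Set.range τ) := by
  have := (algebraMap R A).domain_nontrivial
  have h2 : (AlgebraicIndependent.matroid R A).Indep (Set.range τ) := h.coe_range
  refine le_trans ?_ (h2.encard_le_eRk_of_subset subset_rfl)
  rw [← Set.image_univ, h.injective.encard_image]
  simp

lemma rk_add_le {S : Type*} [CommRing S] [Algebra R S] [Algebra S A] [IsScalarTower R S A]
    {ι : Type*} [Fintype ι] {τ : ι → A} (h : AlgebraicIndependent S τ)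
    (hs : s ⊆ Set.range (algebraMap S A)) :
    rk R s + Fintype.card ι ≤ rk R (s ∪ Set.range τ) := by
  have := (algebraMap R A).domain_nontrivial
  obtain ⟨I, hI⟩ := (AlgebraicIndependent.matroid R A).exists_isBasis' s
  have h0 : AlgebraicIndependent R ((↑) : I → A) := hI.indep
  have h1 := h0.sumElim_of_tower (by rw [Subtype.range_coe]; exact hI.subset.trans hs) h
  have h2 : (AlgebraicIndependent.matroid R A).Indep _ := h1.coe_range
  refine le_trans ?_ (h2.encard_le_eRk_of_subset (X := s ∪ Set.range τ) ?_)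
  · rw [rk, ← hI.encard_eq_eRk, ← Set.image_univ, h1.injective.encard_image, Set.encard_univ,
      ENat.card_sum, add_comm, Set.encard]
    simp
  · rintro _ ⟨i | i, rfl⟩
    exacts [.inr ⟨i, rfl⟩, .inl (hI.subset i.2)]

lemma exists_basis (s : Set A) : ∃ I ⊆ s, I.encard = rk R s ∧ s ⊆ Cl R I := by
  obtain ⟨I, hI⟩ := (AlgebraicIndependent.matroid R A).exists_isBasis s
  exact ⟨I, hI.subset, hI.encard_eq_eRk,
    fun a ha => (AlgebraicIndependent.matroid_isBasis_iff.1 hI).2.2 a ha⟩

lemma rk_pair_le {a b : A} {f : MvPolynomial (Fin 2) R} (hf : f ≠ 0)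
    (h : MvPolynomial.aeval ![a, b] f = 0) : rk R {a, b} ≤ 1 := by
  by_contra! h1
  have h2 : ({a, b} : Set A).encard ≤ rk R {a, b} :=
    (Set.encard_insert_le _ _).trans (by rw [Set.encard_singleton]; exact Order.add_one_le_of_lt h1)
  have h3 : (AlgebraicIndependent.matroid R A).Indep {a, b} :=
    Matroid.IsRkFinite.indep_of_encard_le_eRk (Matroid.isRkFinite_of_finite _ (Set.toFinite _)) h2
  have hab : a ≠ b := by
    rintro rfl
    rw [Set.pair_eq_singleton] at h1
    exact h1.not_ge (Matroid.eRk_singleton_le _ _)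
  have h4 : AlgebraicIndependent R ![a, b] :=
    (algebraicIndependent_subtype_range (by
      intro i j
      fin_cases i <;> fin_cases j <;> simp [hab, hab.symm])).1 (by
        rw [Matrix.range_cons_cons_empty]; exact h3)
  exact hf (algebraicIndependent_iff.1 h4 f h)

lemma rk_image {B : Type*} [CommRing B] [IsDomain B] [Algebra R B] [FaithfulSMul R B]
    (σ : A →ₐ[R] B) (h : Function.Injective σ) (s : Set A) : rk R s ≤ rk R (σ '' s) := by
  refine Matroid.eRk_le_iff.2 fun I hI hind => ?_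
  have h0 : AlgebraicIndependent R ((↑) : I → A) := hind
  have h2 : (AlgebraicIndependent.matroid R B).Indep _ := (h0.map' h).coe_range
  refine le_trans ?_ (h2.encard_le_eRk_of_subset (X := σ '' s) ?_)
  · rw [Set.range_comp, Subtype.range_coe, h.encard_image]
  · rw [Set.range_comp, Subtype.range_coe]
    exact Set.image_mono hI

end cl

end Pool.Agent.Lib.MP_9e3d42_al.CT
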