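import Pool.Agent.Lib.MP_9e3d42_al.CT.E2

/-! A dimension count through the main theorem of Zariski, and joint kernels. -/

open Polynomial Matrix

namespace Pool.Agent.Lib.MP_9e3d42_al.CT

theorem alg_of_min {R A : Type*} [CommRing R] [IsDomain R] [CommRing A] [IsDomain A]
    [IsNoetherianRing A] [Algebra R A] [Algebra.FiniteType R A] {u : A} {q : Ideal A}
    (hq : q ∈ (Ideal.span {u}).minimalPrimes) {x : R} (hx0 : algebraMap R A x ≠ 0)
    (hx : algebraMap R A x ∈ q)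
    (h : ∀ a : A, ∃ p : R[X], p.map (Ideal.Quotient.mk (q.comap (algebraMap R A))) ≠ 0 ∧
      p.eval₂ (algebraMap R A) a ∈ q) (a : A) : IsAlgebraic R a := by
  have hp : q.IsPrime := hq.1.1
  have h1 := Ideal.height_le_one_of_isPrincipal_of_mem_minimalPrimes _ _ hq
  let T := (Ideal.span {algebraMap R A x}).minimalPrimes \ {q}
  have hT : T.Finite := (Ideal.finite_minimalPrimes_of_isNoetherianRing A _).sdiff
  have h2 : ∀ p ∈ T, ∃ s ∈ p, s ∉ q := fun p hp' => by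
    by_contra! e
    have := hp'.1.1.1
    exact hp'.2 (Ideal.eq_of_le_of_height_le p e (h1.trans
      ((Ideal.one_le_height_span_singleton_of_mem_nonZeroDivisors
        (mem_nonZeroDivisors_of_ne_zero hx0)).trans (Ideal.height_mono hp'.1.1.2))))
  choose! s hs using h2
  let t := ∏ p ∈ hT.toFinset, s p
  have ht : t ∉ q := fun e => by
    obtain ⟨p, h3, h4⟩ := Ideal.IsPrime.prod_mem_iff.1 e
    exact (hs p (hT.mem_toFinset.1 h3)).2 h4
  have : Algebra.QuasiFiniteAt R q := by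
    refine Algebra.QuasiFiniteAt.of_isOpen_singleton_fiber ⟨q, hp⟩ ?_
    refine ⟨_, (PrimeSpectrum.basicOpen t).isOpen, Set.ext fun q' => ⟨fun e => ?_, ?_⟩⟩
    · have e1 : q'.1.asIdeal.comap (algebraMap R A) = q.comap (algebraMap R A) :=
        congrArg PrimeSpectrum.asIdeal q'.2
      obtain ⟨p, h3, h4⟩ := Ideal.exists_minimalPrimes_le
        (I := Ideal.span {algebraMap R A x}) (J := q'.1.asIdeal)
        ((Ideal.span_singleton_le_iff_mem _).2 (show x ∈ _ from e1.ge hx))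
      have h5 : p = q := by
        by_contra h5
        exact e (h4 (Ideal.mem_of_dvd _ (Finset.dvd_prod_of_mem s (hT.mem_toFinset.2 ⟨h3, h5⟩))
          (hs p ⟨h3, h5⟩).1))
      subst h5
      refine Subtype.ext (PrimeSpectrum.ext (le_antisymm (fun b hb => ?_) h4))
      by_contra hb'
      obtain ⟨f, f1, f2⟩ := h b
      exact (Ideal.comap_lt_comap_of_root_mem_sdiff h4 ⟨hb, hb'⟩ f1 f2).ne' e1
    · rintro rfl
      exact ht
  obtain ⟨r, hr, h3, h4⟩ := Algebra.zariskisMainProperty_iff.1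
    (Algebra.ZariskisMainProperty.of_finiteType (R := R) q)
  obtain ⟨m, hm⟩ := h4 a
  exact IsAlgebraic.of_mul (mem_nonZeroDivisors_of_ne_zero (pow_ne_zero m fun e => hr
    (by rw [e]; exact q.zero_mem))) (h3.pow m).isAlgebraic hm.isAlgebraic

theorem lemZ {O k A K : Type*} [CommRing O] [Field k] [CommRing A] [IsDomain A]
    [IsNoetherianRing A] [Algebra O A] [Algebra.FiniteType O A] [Field K] [Algebra k K]
    (res : O →+* k) (hres : Function.Surjective res) (σ : A →+* K)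
    (hσ : ∀ o, σ (algebraMap O A o) = algebraMap k K (res o)) {u : A}
    (hq : RingHom.ker σ ∈ (Ideal.span {u}).minimalPrimes) {x : O} (hx0 : algebraMap O A x ≠ 0)
    (hx : res x = 0) (I : Set A) (h : ∀ a, σ a ∈ Cl k (σ '' I)) (a : A) : a ∈ Cl O I := by
  have : Algebra.FiniteType (Algebra.adjoin O I) A := .of_restrictScalars_finiteType O _ _
  let τ : Algebra.adjoin O I →+* Algebra.adjoin k (σ '' I) :=
    (σ.comp (Algebra.adjoin O I).val.toRingHom).codRestrict _ fun ⟨b, hb⟩ => by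
      change σ b ∈ _
      induction hb using Algebra.adjoin_induction with
      | mem c hc => exact Algebra.subset_adjoin ⟨c, hc, rfl⟩
      | algebraMap o => rw [hσ]; exact algebraMap_mem _ _
      | add c d _ _ hc hd => rw [map_add]; exact add_mem hc hd
      | mul c d _ _ hc hd => rw [map_mul]; exact mul_mem hc hd
  have hτ : Function.Surjective τ := fun ⟨b, hb⟩ => by
    suffices ∃ c ∈ Algebra.adjoin O I, σ c = b from
      let ⟨c, h1, h2⟩ := this; ⟨⟨c, h1⟩, Subtype.ext h2⟩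
    induction hb using Algebra.adjoin_induction with
    | mem c hc => exact hc.imp fun d hd => ⟨Algebra.subset_adjoin hd.1, hd.2⟩
    | algebraMap o =>
      obtain ⟨o, rfl⟩ := hres o
      exact ⟨_, algebraMap_mem _ o, hσ o⟩
    | add c d _ _ hc hd =>
      obtain ⟨c, h1, rfl⟩ := hc
      obtain ⟨d, h2, rfl⟩ := hd
      exact ⟨_, add_mem h1 h2, map_add _ _ _⟩
    | mul c d _ _ hc hd =>
      obtain ⟨c, h1, rfl⟩ := hc
      obtain ⟨d, h2, rfl⟩ := hd
      exact ⟨_, mul_mem h1 h2, map_mul _ _ _⟩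
  refine alg_of_min (R := Algebra.adjoin O I) hq (x := algebraMap O _ x) hx0
    (show σ (algebraMap O A x) = 0 by rw [hσ, hx, map_zero]) (fun b => ?_) a
  obtain ⟨p, h1, h2⟩ := h b
  obtain ⟨p, rfl⟩ := map_surjective τ hτ p
  refine ⟨p, fun e => h1 (Polynomial.ext fun i => Subtype.ext ?_), ?_⟩
  · have := congrArg (coeff · i) e
    simp only [coeff_map, coeff_zero, Ideal.Quotient.eq_zero_iff_mem] at this ⊢
    exact this
  · rw [RingHom.mem_ker, hom_eval₂, ← h2, aeval_def, eval₂_map]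
    rfl

variable {n : Type*} [Fintype n] [DecidableEq n]

lemma exists_joint' {K : Type*} [Field K] [IsAlgClosed K] {Y Z : Matrix n n K} (h : Commute Y Z)
    (U : Submodule K (n → K)) (h0 : U ≠ ⊥) (hY : ∀ v ∈ U, Y *ᵥ v ∈ U) (hZ : ∀ v ∈ U, Z *ᵥ v ∈ U) :
    ∃ a b : K, ∃ v ∈ U, v ≠ 0 ∧ Y *ᵥ v = a • v ∧ Z *ᵥ v = b • v := by
  have key : ∀ (T : Matrix n n K) (V : Submodule K (n → K)), V ≠ ⊥ → (∀ v ∈ V, T *ᵥ v ∈ V) →
      ∃ a : K, ∃ v ∈ V, v ≠ 0 ∧ T *ᵥ v = a • v := fun T V h1 h2 => by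
    have := Submodule.nontrivial_iff_ne_bot.2 h1
    obtain ⟨a, ha⟩ := Module.End.exists_eigenvalue ((toLin' T).restrict (p := V) (q := V) h2)
    obtain ⟨w, hw⟩ := ha.exists_hasEigenvector
    exact ⟨a, w, w.2, fun e => hw.2 (Subtype.ext e), congrArg Subtype.val hw.apply_eq_smul⟩
  obtain ⟨a, v, h1, h2, h3⟩ := key Y U h0 hY
  have hU : ∀ w, w ∈ Module.End.eigenspace (toLin' Y) a ↔ Y *ᵥ w = a • w :=
    fun w => Module.End.mem_eigenspace_iff
  obtain ⟨b, w, h4, h5, h6⟩ := key Z (U ⊓ Module.End.eigenspace (toLin' Y) a)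
    ((Submodule.ne_bot_iff _).2 ⟨v, ⟨h1, (hU v).2 h3⟩, h2⟩) fun w hw => ⟨hZ w hw.1, (hU _).2 (by
      rw [mulVec_mulVec, h.eq, ← mulVec_mulVec, (hU w).1 hw.2, mulVec_smul])⟩
  exact ⟨a, b, w, h4.1, h5, (hU w).1 h4.2, h6⟩

lemma finite_eig {K : Type*} [Field K] (Y : Matrix n n K) :
    {a : K | ∃ v ≠ 0, Y *ᵥ v = a • v}.Finite := by
  classical
  refine (Y.charpoly.roots.toFinset.finite_toSet).subset fun a ⟨v, hv, h⟩ => ?_
  rw [Finset.mem_coe, Multiset.mem_toFinset, mem_roots Y.charpoly_monic.ne_zero, IsRoot,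
    eval_charpoly, ← exists_mulVec_eq_zero_iff]
  refine ⟨v, hv, ?_⟩
  rw [sub_mulVec, sub_eq_zero, scalar_apply, ← smul_one_eq_diagonal, smul_mulVec, one_mulVec, h]

theorem joint_ker {k K : Type*} [CommRing k] [Field K] [IsAlgClosed K] [Algebra k K]
    (ψ : MvPolynomial (Fin 2) k →ₐ[k] Matrix n n K)
    (h : ∀ p ∈ Ideal.span {MvPolynomial.X 0, MvPolynomial.X 1}, (ψ p).det = 0) :
    ∃ v ≠ 0, ψ (.X 0) *ᵥ v = 0 ∧ ψ (.X 1) *ᵥ v = 0 := by
  by_contra! h0
  let T : Set (K × K) := {e | ∃ v ≠ 0, ψ (.X 0) *ᵥ v = e.1 • v ∧ ψ (.X 1) *ᵥ v = e.2 • v}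
  have hT : T.Finite := ((finite_eig (ψ (.X 0))).prod (finite_eig (ψ (.X 1)))).subset
    fun e ⟨v, hv, h1, h2⟩ => ⟨⟨v, hv, h1⟩, v, hv, h2⟩
  let F : K × K → Ideal (MvPolynomial (Fin 2) k) := fun e =>
    RingHom.ker (MvPolynomial.aeval ![e.1, e.2] : MvPolynomial (Fin 2) k →ₐ[k] K)
  have h1 : ¬((Ideal.span {MvPolynomial.X 0, MvPolynomial.X 1} : Ideal (MvPolynomial (Fin 2) k)) :
      Set (MvPolynomial (Fin 2) k)) ⊆ ⋃ e ∈ T, F e := by
    rw [Ideal.subset_union_prime_finite hT 0 0 fun _ _ _ _ => RingHom.ker_isPrime _]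
    rintro ⟨e, ⟨v, hv, h1, h2⟩, h3⟩
    have h4 := h3 (Ideal.subset_span (.inl rfl))
    have h5 := h3 (Ideal.subset_span (.inr rfl))
    simp only [RingHom.mem_ker, MvPolynomial.aeval_X, cons_val_zero, cons_val_one] at h4 h5
    exact h0 v hv (by rw [h1, h4, zero_smul]) (by rw [h2, h5, zero_smul])
  obtain ⟨p, h2, h3⟩ := Set.not_subset.1 h1
  obtain ⟨v, hv, h4⟩ := exists_mulVec_eq_zero_iff.2 (h p h2)
  have h5 : ∀ q, ∀ w ∈ LinearMap.ker (toLin' (ψ p)), ψ q *ᵥ w ∈ LinearMap.ker (toLin' (ψ p)) :=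
    fun q w hw => by
      rw [LinearMap.mem_ker, toLin'_apply] at hw ⊢
      rw [mulVec_mulVec, ← map_mul, mul_comm, map_mul, ← mulVec_mulVec, hw, mulVec_zero]
  obtain ⟨a, b, w, h6, h7, h8, h9⟩ := exists_joint' ((Commute.all _ _).map ψ) _
    ((Submodule.ne_bot_iff _).2 ⟨v, h4, hv⟩) (h5 (.X 0)) (h5 (.X 1))
  refine h3 (Set.mem_biUnion (x := (a, b)) ⟨w, h7, h8, h9⟩ ?_)
  exact (smul_eq_zero_iff_left h7).1 ((ev_mulVec ψ h8 h9 p).symm.trans h6)

end Pool.Agent.Lib.MP_9e3d42_al.CT
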